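import Mathlib

namespace Pool.Agent.Lib.MP_a28f5d_nt

open Real Finset

/-- `rho τ s = exp (-(τ s))`. -/
noncomputable def rho (τ : ℝ) (s : ℕ) : ℝ := Real.exp (-(τ * s))

/-- The unit-normalised factor `(1 + rho e(s θ)) / (1 + rho)`. -/
noncomputable def phi (τ : ℝ) (s : ℕ) (θ : ℝ) : ℂ :=
  (1 + (rho τ s : ℂ) * Complex.exp ((2 * π * (s * θ) : ℝ) * Complex.I)) / (1 + (rho τ s : ℂ))

/-- `(1 - rho)/(1 + rho)`. -/
noncomputable def kap (τ : ℝ) (s : ℕ) : ℝ := (1 - rho τ s) / (1 + rho τ s)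

lemma rho_pos (τ : ℝ) (s : ℕ) : 0 < rho τ s := Real.exp_pos _

lemma rho_le_one {τ : ℝ} (hτ : 0 ≤ τ) (s : ℕ) : rho τ s ≤ 1 := by
  unfold rho
  rw [Real.exp_le_one_iff]
  have : 0 ≤ τ * (s : ℝ) := by positivity
  linarith

lemma kap_nonneg {τ : ℝ} (hτ : 0 ≤ τ) (s : ℕ) : 0 ≤ kap τ s := by
  unfold kap
  have := rho_le_one hτ s
  have := rho_pos τ s
  apply div_nonneg <;> linarith

lemma kap_le_one {τ : ℝ} (s : ℕ) : kap τ s ≤ 1 := by
  unfold kap
  have := rho_pos τ s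
  rw [div_le_one (by linarith)]
  linarith

lemma kap_le {τ : ℝ} (hτ : 0 ≤ τ) (s : ℕ) : kap τ s ≤ τ * s / 2 := by
  unfold kap
  have h1 := rho_pos τ s
  have hx : 0 ≤ τ * (s : ℝ) := by positivity
  rw [div_le_iff₀ (by linarith)]
  set x := τ * (s : ℝ) with hxdef
  have : rho τ s = Real.exp (-x) := by simp [rho, hxdef]
  rw [this]
  -- 1 - e^{-x} ≤ (x/2)(1+e^{-x})
  -- equivalent (2 - x) ≤ (2 + x) e^{-x}
  have key : (2 - x) ≤ (2 + x) * Real.exp (-x) := by
    by_cases h2 : 2 ≤ x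
    · have : 0 ≤ (2 + x) * Real.exp (-x) := by positivity
      linarith
    · push Not at h2
      -- e^x (2-x) ≤ 2 + x for 0 ≤ x < 2
      have hmono : ∀ y ∈ Set.Icc (0:ℝ) 2, Real.exp y * (2 - y) ≤ 2 + y := by
        intro y hy
        have hconc : AntitoneOn (fun y : ℝ => Real.exp y * (2 - y) - (2 + y)) (Set.Icc 0 2) := by
          apply antitoneOn_of_deriv_nonpos (convex_Icc 0 2)
          · fun_prop
          · fun_prop
          · intro z hz
            rw [interior_Icc] at hz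
            have hd : deriv (fun y : ℝ => Real.exp y * (2 - y) - (2 + y)) z
                = Real.exp z * (2 - z) - Real.exp z - 1 := by
              have h1 : HasDerivAt (fun y : ℝ => Real.exp y * (2 - y) - (2 + y))
                  (Real.exp z * (2 - z) + Real.exp z * (0 - 1) - (0 + 1)) z := by
                apply HasDerivAt.sub
                · exact (Real.hasDerivAt_exp z).mul ((hasDerivAt_const z 2).sub (hasDerivAt_id z))
                · exact (hasDerivAt_const z 2).add (hasDerivAt_id z)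
              rw [h1.deriv]; ring
            rw [hd]
            -- e^z (1 - z) ≤ 1
            have : (1 - z) ≤ Real.exp (-z) := by
              have := Real.add_one_le_exp (-z); linarith
            have h3 : Real.exp z * (1 - z) ≤ Real.exp z * Real.exp (-z) :=
              mul_le_mul_of_nonneg_left this (Real.exp_pos z).le
            rw [← Real.exp_add] at h3
            simp at h3
            nlinarith
        have := hconc (Set.left_mem_Icc.mpr (by norm_num)) hy hy.1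
        simp at this
        linarith
      have h4 := hmono x ⟨hx, h2.le⟩
      have h5 : Real.exp x * Real.exp (-x) = 1 := by rw [← Real.exp_add]; simp
      have h6 : 0 < Real.exp (-x) := Real.exp_pos _
      calc (2 - x) = (Real.exp x * (2 - x)) * Real.exp (-x) := by
            rw [mul_right_comm, h5, one_mul]
        _ ≤ (2 + x) * Real.exp (-x) := by
            apply mul_le_mul_of_nonneg_right h4 h6.le
  nlinarith

lemma one_add_rho_ne (τ : ℝ) (s : ℕ) : (1 + (rho τ s : ℂ)) ≠ 0 := by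
  have := rho_pos τ s
  have h : ((1 + rho τ s : ℝ) : ℂ) ≠ 0 := by
    rw [Complex.ofReal_ne_zero]; linarith
  simpa using h

lemma norm_phi_sq {τ : ℝ} (s : ℕ) (θ : ℝ) :
    ‖phi τ s θ‖ ^ 2 = Real.cos (π * (s * θ)) ^ 2 + kap τ s ^ 2 * Real.sin (π * (s * θ)) ^ 2 := by
  have hρ := rho_pos τ s
  unfold phi kap
  rw [norm_div, div_pow]
  have h1 : ‖(1 + (rho τ s : ℂ))‖ = 1 + rho τ s := by
    have : (1 + (rho τ s : ℂ)) = ((1 + rho τ s : ℝ) : ℂ) := by push_cast; rfl
    rw [this, Complex.norm_real, Real.norm_eq_abs, abs_of_pos (by linarith)]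
  rw [h1]
  have h2 : ‖1 + (rho τ s : ℂ) * Complex.exp ((2 * π * (s * θ) : ℝ) * Complex.I)‖ ^ 2
      = (1 + rho τ s * Real.cos (2 * π * (s * θ))) ^ 2 + (rho τ s * Real.sin (2 * π * (s * θ))) ^ 2 := by
    generalize (2 * π * (s * θ) : ℝ) = y
    generalize rho τ s = ρ
    rw [← Complex.normSq_eq_norm_sq, Complex.normSq_apply, Complex.exp_mul_I,
      ← Complex.ofReal_cos, ← Complex.ofReal_sin]
    simp only [Complex.add_re, Complex.one_re, Complex.mul_re, Complex.ofReal_re, Complex.ofReal_im,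
      Complex.I_re, Complex.I_im, Complex.add_im, Complex.one_im, Complex.mul_im]
    ring
  rw [h2]
  have h3 : 2 * π * (s * θ) = 2 * (π * (s * θ)) := by ring
  rw [h3, Real.cos_two_mul, Real.sin_two_mul]
  set c := Real.cos (π * (s * θ))
  set d := Real.sin (π * (s * θ))
  have hcd : d ^ 2 + c ^ 2 = 1 := Real.sin_sq_add_cos_sq _
  have hd2 : d ^ 2 = 1 - c ^ 2 := by linarith
  set ρ := rho τ s
  have hne : (1 + ρ) ≠ 0 := by positivity
  field_simp
  ring_nf
  rw [hd2]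
  ring

lemma norm_phi_sq_le {τ : ℝ} (hτ : 0 ≤ τ) (s : ℕ) (θ : ℝ) :
    ‖phi τ s θ‖ ^ 2 ≤ Real.cos (π * (s * θ)) ^ 2 + (τ * s / 2) ^ 2 := by
  rw [norm_phi_sq]
  have h1 := kap_le hτ s
  have h0 := kap_nonneg hτ s
  have h2 : kap τ s ^ 2 ≤ (τ * s / 2) ^ 2 := by
    apply pow_le_pow_left₀ h0 h1
  have h3 : Real.sin (π * (s * θ)) ^ 2 ≤ 1 := Real.sin_sq_le_one _
  nlinarith [sq_nonneg (kap τ s), sq_nonneg (Real.sin (π * (s * θ)))]

lemma norm_phi_le_one {τ : ℝ} (hτ : 0 ≤ τ) (s : ℕ) (θ : ℝ) : ‖phi τ s θ‖ ≤ 1 := by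
  have h := norm_phi_sq (τ := τ) s θ
  have h1 := kap_le_one (τ := τ) s
  have h0 := kap_nonneg hτ s
  have h2 := Real.sin_sq_add_cos_sq (π * (s * θ))
  have h3 : ‖phi τ s θ‖ ^ 2 ≤ 1 := by
    rw [h]
    have : kap τ s ^ 2 ≤ 1 := by nlinarith
    nlinarith [sq_nonneg (Real.sin (π * (s * θ)))]
  have h4 : 0 ≤ ‖phi τ s θ‖ := norm_nonneg _
  nlinarith

/-- For `τ s ≤ 1/2` a clean decay bound. -/
lemma norm_phi_sq_le' {τ : ℝ} (hτ : 0 ≤ τ) (s : ℕ) (θ : ℝ) (hs : τ * s ≤ 1 / 2) :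
    ‖phi τ s θ‖ ^ 2 ≤ 1 - (15 / 16) * Real.sin (π * (s * θ)) ^ 2 := by
  rw [norm_phi_sq]
  have h1 := kap_le hτ s
  have h0 := kap_nonneg hτ s
  have h2 : kap τ s ^ 2 ≤ 1 / 16 := by nlinarith
  have h3 := Real.sin_sq_add_cos_sq (π * (s * θ))
  nlinarith [sq_nonneg (Real.sin (π * (s * θ)))]

lemma phi_add_int {τ : ℝ} (s : ℕ) (θ : ℝ) (m : ℤ) : phi τ s (θ + m) = phi τ s θ := by
  unfold phi
  congr 2
  have : (((2 * π * (s * (θ + m)) : ℝ) : ℂ) * Complex.I)
      = ((2 * π * (s * θ) : ℝ) : ℂ) * Complex.I + ((s * m : ℤ) : ℂ) * (2 * π * Complex.I) := by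
    push_cast; ring
  rw [this, Complex.exp_add, Complex.exp_int_mul_two_pi_mul_I, mul_one]

end Pool.Agent.Lib.MP_a28f5d_nt
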