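import Mathlib
import Pool.Agent.Lib.MP_a28f5d_nt.Phi

namespace Pool.Agent.Lib.MP_a28f5d_nt

open Real Finset MeasureTheory

/-- `e(x) = exp(2 π i x)`. -/
noncomputable def ee (x : ℝ) : ℂ := Complex.exp ((2 * π * x : ℝ) * Complex.I)

lemma ee_zero : ee 0 = 1 := by simp [ee]

lemma ee_add (x y : ℝ) : ee (x + y) = ee x * ee y := by
  unfold ee
  rw [← Complex.exp_add]
  congr 1
  push_cast; ring

lemma norm_ee (x : ℝ) : ‖ee x‖ = 1 := by
  unfold ee
  exact Complex.norm_exp_ofReal_mul_I _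

lemma ee_int (k : ℤ) : ee k = 1 := by
  unfold ee
  have : (((2 * π * (k : ℝ)) : ℝ) : ℂ) * Complex.I = (k : ℂ) * (2 * π * Complex.I) := by
    push_cast; ring
  rw [this, Complex.exp_int_mul_two_pi_mul_I]

lemma ee_cont : Continuous ee := by unfold ee; fun_prop

lemma ee_neg (x : ℝ) : ee (-x) = (starRingEnd ℂ) (ee x) := by
  unfold ee
  rw [← Complex.exp_conj, map_mul, Complex.conj_ofReal, Complex.conj_I]
  congr 1
  push_cast; ring

lemma integral_ee (k : ℤ) :
    ∫ θ in (0:ℝ)..1, ee (k * θ) = if k = 0 then 1 else 0 := by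
  split_ifs with h
  · subst h; simp [ee_zero]
  · have hc : (2 * π * (k : ℝ) : ℂ) * Complex.I ≠ 0 := by
      apply mul_ne_zero _ Complex.I_ne_zero
      have : (k : ℂ) ≠ 0 := by exact_mod_cast h
      have hpi : (π : ℂ) ≠ 0 := by exact_mod_cast Real.pi_ne_zero
      simp [this, hpi]
    have : ∀ θ : ℝ, ee (k * θ) = Complex.exp (((2 * π * (k : ℝ) : ℂ) * Complex.I) * θ) := by
      intro θ
      unfold ee
      congr 1
      push_cast; ring
    simp_rw [this]
    rw [integral_exp_mul_complex hc]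
    have h1 : Complex.exp (((2 * π * (k : ℝ) : ℂ) * Complex.I) * (1 : ℝ)) = 1 := by
      have := ee_int k
      unfold ee at this
      rw [← this]
      congr 1
      push_cast; ring
    rw [h1]
    simp

/-- the elements `3^a 4^b`. -/
def el (a b : ℕ) : ℕ := 3 ^ a * 4 ^ b

/-- counting function on index sets. -/
def cnt (M n : ℕ) : ℕ :=
  (((range M ×ˢ range M).powerset).filter (fun T => ∑ i ∈ T, el i.1 i.2 = n)).card

/-- The product of all normalised factors. -/
noncomputable def PP (τ : ℝ) (M : ℕ) (θ : ℝ) : ℂ :=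
  ∏ b ∈ range M, ∏ a ∈ range M, phi τ (el a b) θ

/-- The normalising constant. -/
noncomputable def CC (τ : ℝ) (M : ℕ) : ℝ := ∏ i ∈ range M ×ˢ range M, (1 + rho τ (el i.1 i.2))

lemma CC_pos (τ : ℝ) (M : ℕ) : 0 < CC τ M := by
  unfold CC
  apply Finset.prod_pos
  intro i _
  have := rho_pos τ (el i.1 i.2)
  linarith

lemma phi_eq (τ : ℝ) (s : ℕ) (θ : ℝ) :
    phi τ s θ = (1 + (rho τ s : ℂ) * ee (s * θ)) / (1 + (rho τ s : ℂ)) := rfl

lemma prod_rho (τ : ℝ) (T : Finset (ℕ × ℕ)) :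
    ∏ i ∈ T, rho τ (el i.1 i.2) = rho τ (∑ i ∈ T, el i.1 i.2) := by
  unfold rho
  rw [← Real.exp_sum]
  congr 1
  push_cast
  rw [Finset.mul_sum, Finset.sum_neg_distrib]

lemma prod_ee (θ : ℝ) (T : Finset (ℕ × ℕ)) :
    ∏ i ∈ T, ee ((el i.1 i.2 : ℕ) * θ) = ee ((∑ i ∈ T, el i.1 i.2 : ℕ) * θ) := by
  induction T using Finset.induction_on with
  | empty => simp [ee_zero]
  | insert a s ha ih =>
    rw [Finset.prod_insert ha, ih, Finset.sum_insert ha, ← ee_add]
    congr 1
    push_cast; ring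

lemma PP_eq (τ : ℝ) (M : ℕ) (θ : ℝ) :
    PP τ M θ = (∑ T ∈ (range M ×ˢ range M).powerset,
      (rho τ (∑ i ∈ T, el i.1 i.2) : ℂ) * ee ((∑ i ∈ T, el i.1 i.2 : ℕ) * θ)) / (CC τ M : ℂ) := by
  have h1 : PP τ M θ = ∏ i ∈ range M ×ˢ range M, phi τ (el i.1 i.2) θ := by
    unfold PP
    rw [Finset.prod_product_right]
  rw [h1]
  simp_rw [phi_eq]
  rw [Finset.prod_div_distrib]
  congr 1
  · rw [Finset.prod_one_add]
    apply Finset.sum_congr rfl
    intro T _
    rw [Finset.prod_mul_distrib, prod_ee]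
    congr 1
    rw [← prod_rho]
    push_cast
    rfl
  · unfold CC
    push_cast
    rfl

lemma rho_mul (τ : ℝ) (m n : ℕ) : rho τ m * rho τ n = rho τ (m + n) := by
  unfold rho
  rw [← Real.exp_add]
  congr 1
  push_cast; ring

lemma integral_coef (τ : ℝ) (M m : ℕ) :
    ∫ θ in (0:ℝ)..1, PP τ M θ * ee (-(m * θ)) = ((rho τ m * cnt M m / CC τ M : ℝ) : ℂ) := by
  have hC := CC_pos τ M
  have h1 : ∀ θ : ℝ, PP τ M θ * ee (-(m * θ)) =
      ∑ T ∈ (range M ×ˢ range M).powerset,
        ((rho τ (∑ i ∈ T, el i.1 i.2) : ℂ) / (CC τ M : ℂ)) *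
          ee ((((∑ i ∈ T, el i.1 i.2 : ℕ) : ℤ) - (m : ℤ) : ℤ) * θ) := by
    intro θ
    rw [PP_eq, div_mul_eq_mul_div, Finset.sum_mul, Finset.sum_div]
    apply Finset.sum_congr rfl
    intro T _
    have : ee ((((∑ i ∈ T, el i.1 i.2 : ℕ) : ℤ) - (m : ℤ) : ℤ) * θ)
        = ee ((∑ i ∈ T, el i.1 i.2 : ℕ) * θ) * ee (-(m * θ)) := by
      rw [← ee_add]
      congr 1
      push_cast; ring
    rw [this]
    ring
  simp_rw [h1]
  rw [intervalIntegral.integral_finsetSum]
  · have h2 : ∀ T ∈ (range M ×ˢ range M).powerset,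
        ∫ θ in (0:ℝ)..1, ((rho τ (∑ i ∈ T, el i.1 i.2) : ℂ) / (CC τ M : ℂ)) *
          ee ((((∑ i ∈ T, el i.1 i.2 : ℕ) : ℤ) - (m : ℤ) : ℤ) * θ)
        = if (∑ i ∈ T, el i.1 i.2) = m then ((rho τ m / CC τ M : ℝ) : ℂ) else 0 := by
      intro T _
      rw [intervalIntegral.integral_const_mul, integral_ee]
      by_cases h : (∑ i ∈ T, el i.1 i.2) = m
      · rw [if_pos h, if_pos (by rw [h]; simp), h]
        push_cast; ring
      · rw [if_neg h, if_neg (by intro h'; apply h; omega)]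
        simp
    rw [Finset.sum_congr rfl h2, ← Finset.sum_filter, Finset.sum_const]
    unfold cnt
    rw [nsmul_eq_mul]
    push_cast
    ring
  · intro T _
    apply Continuous.intervalIntegrable
    apply Continuous.mul continuous_const
    exact ee_cont.comp (by fun_prop)

lemma phi_cont (τ : ℝ) (s : ℕ) : Continuous (phi τ s) := by
  have : phi τ s = fun θ => (1 + (rho τ s : ℂ) * ee (s * θ)) / (1 + (rho τ s : ℂ)) := rfl
  rw [this]
  apply Continuous.div_const
  apply Continuous.add continuous_const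
  apply Continuous.mul continuous_const
  exact ee_cont.comp (by fun_prop)

lemma PP_cont (τ : ℝ) (M : ℕ) : Continuous (PP τ M) := by
  unfold PP
  apply continuous_finsetProd
  intro b _
  apply continuous_finsetProd
  intro a _
  exact phi_cont _ _

/-- integrand. -/
noncomputable def gg (τ : ℝ) (M n : ℕ) (θ : ℝ) : ℂ :=
  PP τ M θ * ee (-((n + 1 : ℕ) * θ)) * (1 - (rho τ 1 : ℂ) * ee θ)

lemma gg_cont (τ : ℝ) (M n : ℕ) : Continuous (gg τ M n) := by
  unfold gg
  apply Continuous.mul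
  · apply (PP_cont τ M).mul
    exact ee_cont.comp (by fun_prop)
  · apply Continuous.sub continuous_const
    exact continuous_const.mul ee_cont

lemma integral_gg (τ : ℝ) (M n : ℕ) :
    ∫ θ in (0:ℝ)..1, gg τ M n θ =
      ((rho τ (n + 1) * ((cnt M (n + 1) : ℝ) - cnt M n) / CC τ M : ℝ) : ℂ) := by
  have h1 : ∀ θ : ℝ, gg τ M n θ = PP τ M θ * ee (-((n + 1 : ℕ) * θ))
      - (rho τ 1 : ℂ) * (PP τ M θ * ee (-(n * θ))) := by
    intro θ
    unfold gg
    have : ee (-(n * θ)) = ee (-((n + 1 : ℕ) * θ)) * ee θ := by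
      rw [← ee_add]; congr 1; push_cast; ring
    rw [this]; ring
  simp_rw [h1]
  rw [intervalIntegral.integral_sub, intervalIntegral.integral_const_mul, integral_coef,
    integral_coef]
  · have := rho_mul τ 1 n
    rw [add_comm 1 n] at this
    rw [← this]
    push_cast
    ring
  · apply Continuous.intervalIntegrable
    exact (PP_cont τ M).mul (ee_cont.comp (by fun_prop))
  · apply Continuous.intervalIntegrable
    exact continuous_const.mul ((PP_cont τ M).mul (ee_cont.comp (by fun_prop)))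

/-- If the integral is nonzero then consecutive counts differ. -/
lemma cnt_ne_of_integral_ne {τ : ℝ} {M n : ℕ} (h : ∫ θ in (0:ℝ)..1, gg τ M n θ ≠ 0) :
    cnt M (n + 1) ≠ cnt M n := by
  intro heq
  apply h
  rw [integral_gg, heq]
  simp

end Pool.Agent.Lib.MP_a28f5d_nt
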