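import Mathlib
import Pool.Agent.Lib.MP_a28f5d_nt.Gen

namespace Pool.Agent.Lib.MP_a28f5d_nt

open Real Finset

lemma el_pos (a b : ℕ) : 0 < el a b := by unfold el; positivity

lemma el_cast (a b : ℕ) : (el a b : ℝ) = 3 ^ a * 4 ^ b := by unfold el; push_cast; rfl

lemma exists_el {Y : ℝ} (b : ℕ) (h : (4:ℝ) ^ b ≤ Y) :
    ∃ a, Y / 3 < (el a b : ℝ) ∧ (el a b : ℝ) ≤ Y := by
  have h4 : (0:ℝ) < 4 ^ b := by positivity
  have h1 : 1 ≤ Y / 4 ^ b := by rw [le_div_iff₀ h4]; linarith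
  obtain ⟨a, ha1, ha2⟩ := exists_nat_pow_near h1 (by norm_num : (1:ℝ) < 3)
  refine ⟨a, ?_, ?_⟩
  · rw [el_cast]
    rw [div_lt_iff₀ h4] at ha2
    rw [pow_succ] at ha2
    linarith
  · rw [el_cast]
    rw [le_div_iff₀ h4] at ha1
    exact ha1

/-- elementary bound used for all the sums. -/
lemma pk_le (k : ℕ) (hk1 : 1 ≤ k) (hk3 : k ≤ 3) {x : ℝ} (hx : 0 < x) :
    x ^ k * Real.exp (-x) ≤ 96 * (3 * x / (1 + 3 * x) - x / (1 + x)) := by
  have e1 : 3 * x / (1 + 3 * x) - x / (1 + x) = 2 * x / ((1 + x) * (1 + 3 * x)) := by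
    field_simp
    ring
  have h2 := Real.pow_div_factorial_le_exp x hx.le 2
  have h3 := Real.pow_div_factorial_le_exp x hx.le 3
  have h4 := Real.pow_div_factorial_le_exp x hx.le 4
  have h1' := Real.add_one_le_exp x
  simp only [Nat.factorial] at h2 h3 h4
  norm_num at h2 h3 h4
  have hE : 0 < Real.exp x := Real.exp_pos x
  have hEi : Real.exp x * Real.exp (-x) = 1 := by rw [← Real.exp_add]; simp
  have hEn : 0 < Real.exp (-x) := Real.exp_pos _
  -- bound A : x^k e^{-x} ≤ 24 x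
  have A : x ^ k * Real.exp (-x) ≤ 24 * x := by
    have : x ^ k ≤ 24 * x * Real.exp x := by
      interval_cases k
      · nlinarith
      · nlinarith
      · nlinarith
    calc x ^ k * Real.exp (-x) ≤ (24 * x * Real.exp x) * Real.exp (-x) :=
          mul_le_mul_of_nonneg_right this hEn.le
      _ = 24 * x := by rw [mul_assoc, hEi, mul_one]
  have B : x ^ (k + 1) * Real.exp (-x) ≤ 24 := by
    have : x ^ (k + 1) ≤ 24 * Real.exp x := by
      interval_cases k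
      · norm_num; linarith
      · norm_num; linarith
      · norm_num; linarith
    calc x ^ (k + 1) * Real.exp (-x) ≤ (24 * Real.exp x) * Real.exp (-x) :=
          mul_le_mul_of_nonneg_right this hEn.le
      _ = 24 := by rw [mul_assoc, hEi, mul_one]
  rw [e1]
  rcases le_total x 1 with h | h
  · refine A.trans ?_
    rw [mul_div_assoc', le_div_iff₀ (by positivity)]
    nlinarith [mul_pos hx hx]
  · have B' : x ^ k * Real.exp (-x) ≤ 24 / x := by
      rw [le_div_iff₀ hx]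
      calc x ^ k * Real.exp (-x) * x = x ^ (k + 1) * Real.exp (-x) := by ring
        _ ≤ 24 := B
    refine B'.trans ?_
    rw [mul_div_assoc', div_le_div_iff₀ hx (by positivity)]
    nlinarith [mul_pos hx hx]

lemma row_sum (k : ℕ) (hk1 : 1 ≤ k) (hk3 : k ≤ 3) {y : ℝ} (hy : 0 < y) (M : ℕ) :
    ∑ a ∈ range M, (y * 3 ^ a) ^ k * Real.exp (-(y * 3 ^ a)) ≤ 96 / (1 + y) := by
  have h1 : ∑ a ∈ range M, (y * 3 ^ a) ^ k * Real.exp (-(y * 3 ^ a)) ≤
      ∑ a ∈ range M, 96 * ((y * 3 ^ (a + 1)) / (1 + y * 3 ^ (a + 1)) - (y * 3 ^ a) / (1 + y * 3 ^ a)) := by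
    apply Finset.sum_le_sum
    intro a _
    have := pk_le k hk1 hk3 (x := y * 3 ^ a) (by positivity)
    have e : 3 * (y * 3 ^ a) = y * 3 ^ (a + 1) := by ring
    rw [e] at this
    exact this
  refine h1.trans ?_
  rw [← Finset.mul_sum, Finset.sum_range_sub (fun a => (y * 3 ^ a) / (1 + y * 3 ^ a))]
  have h2 : y * 3 ^ M / (1 + y * 3 ^ M) ≤ 1 := by
    rw [div_le_one (by positivity)]; linarith
  have h3 : (1:ℝ) / (1 + y) = 1 - y / (1 + y) := by field_simp; ring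
  have h4 : (96:ℝ) / (1 + y) = 96 * (1 / (1 + y)) := by ring
  rw [h4, h3]
  simp only [pow_zero, mul_one]
  nlinarith

lemma geom_quarter (M : ℕ) : ∑ x ∈ range M, ((1:ℝ) / 4) ^ x ≤ 4 / 3 := by
  have h := geom_sum_eq (x := (1:ℝ)/4) (by norm_num) M
  rw [h]
  have h0 : 0 < ((1:ℝ) / 4) ^ M := by positivity
  have h1 : (((1:ℝ) / 4) ^ M - 1) / (1 / 4 - 1) = (1 - ((1:ℝ) / 4) ^ M) * (4 / 3) := by ring
  rw [h1]
  linarith

lemma col_sum {τ : ℝ} (hτ : 0 < τ) (K : ℕ) (hK : 1 ≤ τ * 4 ^ K) (M : ℕ) :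
    ∑ b ∈ range M, 1 / (1 + τ * 4 ^ b) ≤ K + 2 := by
  have h1 : ∑ b ∈ range M, 1 / (1 + τ * 4 ^ b) ≤ ∑ b ∈ range (K + M), 1 / (1 + τ * (4:ℝ) ^ b) := by
    apply Finset.sum_le_sum_of_subset_of_nonneg
    · intro b hb
      simp only [Finset.mem_range] at hb ⊢
      omega
    · intro b _ _
      positivity
  refine h1.trans ?_
  rw [Finset.sum_range_add]
  have h2 : ∑ x ∈ range K, 1 / (1 + τ * (4:ℝ) ^ x) ≤ K := by
    calc ∑ x ∈ range K, 1 / (1 + τ * (4:ℝ) ^ x) ≤ ∑ x ∈ range K, (1:ℝ) := by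
          apply Finset.sum_le_sum
          intro b _
          rw [div_le_one (by positivity)]
          have : 0 < τ * (4:ℝ) ^ b := by positivity
          linarith
      _ = K := by simp
  have h3 : ∑ x ∈ range M, 1 / (1 + τ * (4:ℝ) ^ (K + x)) ≤ ∑ x ∈ range M, ((1:ℝ) / 4) ^ x := by
    apply Finset.sum_le_sum
    intro x _
    rw [div_pow, one_pow]
    apply one_div_le_one_div_of_le (by positivity)
    have : τ * (4:ℝ) ^ (K + x) = (τ * 4 ^ K) * 4 ^ x := by ring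
    rw [this]
    have h4 : (0:ℝ) < 4 ^ x := by positivity
    nlinarith
  have h5 := geom_quarter M
  linarith

lemma total_sum (k : ℕ) (hk1 : 1 ≤ k) (hk3 : k ≤ 3) {τ : ℝ} (hτ : 0 < τ) (K : ℕ)
    (hK : 1 ≤ τ * 4 ^ K) (M : ℕ) :
    ∑ b ∈ range M, ∑ a ∈ range M, (el a b : ℝ) ^ k * rho τ (el a b) ≤ 96 * (K + 2) / τ ^ k := by
  have h1 : ∀ b ∈ range M, ∑ a ∈ range M, (el a b : ℝ) ^ k * rho τ (el a b)
      ≤ (96 / τ ^ k) * (1 / (1 + τ * 4 ^ b)) := by
    intro b _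
    have h := row_sum k hk1 hk3 (y := τ * 4 ^ b) (by positivity) M
    have e : ∑ a ∈ range M, (el a b : ℝ) ^ k * rho τ (el a b)
        = (1 / τ ^ k) * ∑ a ∈ range M, (τ * 4 ^ b * 3 ^ a) ^ k * Real.exp (-(τ * 4 ^ b * 3 ^ a)) := by
      rw [Finset.mul_sum]
      apply Finset.sum_congr rfl
      intro a _
      unfold rho
      rw [el_cast]
      have e2 : τ * (3 ^ a * 4 ^ b) = τ * 4 ^ b * 3 ^ a := by ring
      rw [e2]
      have e3 : (τ * 4 ^ b * 3 ^ a) ^ k = τ ^ k * (3 ^ a * 4 ^ b) ^ k := by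
        rw [← mul_pow]; ring
      rw [e3]
      have : τ ^ k ≠ 0 := by positivity
      field_simp
    rw [e]
    calc (1 / τ ^ k) * ∑ a ∈ range M, (τ * 4 ^ b * 3 ^ a) ^ k * Real.exp (-(τ * 4 ^ b * 3 ^ a))
        ≤ (1 / τ ^ k) * (96 / (1 + τ * 4 ^ b)) := by
          apply mul_le_mul_of_nonneg_left h (by positivity)
      _ = (96 / τ ^ k) * (1 / (1 + τ * 4 ^ b)) := by ring
  refine (Finset.sum_le_sum h1).trans ?_
  rw [← Finset.mul_sum]
  have h2 := col_sum hτ K hK M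
  calc 96 / τ ^ k * ∑ i ∈ range M, 1 / (1 + τ * 4 ^ i) ≤ 96 / τ ^ k * (K + 2) := by
        apply mul_le_mul_of_nonneg_left h2 (by positivity)
    _ = 96 * (K + 2) / τ ^ k := by ring

end Pool.Agent.Lib.MP_a28f5d_nt
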