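import Mathlib
import Pool.Agent.Lib.MP_a28f5d_nt.Sums

namespace Pool.Agent.Lib.MP_a28f5d_nt

open Real Finset

lemma norm_prod_sub_prod_le' {ι : Type*} [DecidableEq ι] (s : Finset ι) (f g : ι → ℂ)
    (hf : ∀ i ∈ s, ‖f i‖ ≤ 1) (hg : ∀ i ∈ s, ‖g i‖ ≤ 1) :
    ‖∏ i ∈ s, f i - ∏ i ∈ s, g i‖ ≤ ∑ i ∈ s, ‖f i - g i‖ := by
  induction s using Finset.induction_on with
  | empty => simp
  | insert a s ha ih =>
    rw [Finset.prod_insert ha, Finset.prod_insert ha, Finset.sum_insert ha]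
    have h1 : f a * ∏ i ∈ s, f i - g a * ∏ i ∈ s, g i
        = (f a - g a) * ∏ i ∈ s, f i + g a * (∏ i ∈ s, f i - ∏ i ∈ s, g i) := by ring
    rw [h1]
    refine (norm_add_le _ _).trans ?_
    rw [norm_mul, norm_mul]
    have h2 : ‖∏ i ∈ s, f i‖ ≤ 1 := by
      rw [norm_prod]
      apply Finset.prod_le_one
      · intro i _; exact norm_nonneg _
      · intro i hi; exact hf i (Finset.mem_insert_of_mem hi)
    have h3 : ‖g a‖ ≤ 1 := hg a (Finset.mem_insert_self a s)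
    have h4 := ih (fun i hi => hf i (Finset.mem_insert_of_mem hi))
      (fun i hi => hg i (Finset.mem_insert_of_mem hi))
    have h5 : ‖f a - g a‖ * ‖∏ i ∈ s, f i‖ ≤ ‖f a - g a‖ := by
      have := norm_nonneg (f a - g a)
      nlinarith
    have h6 : ‖g a‖ * ‖∏ i ∈ s, f i - ∏ i ∈ s, g i‖ ≤ ‖∏ i ∈ s, f i - ∏ i ∈ s, g i‖ := by
      have := norm_nonneg (∏ i ∈ s, f i - ∏ i ∈ s, g i)
      nlinarith
    linarith

lemma exp_taylor3 {u : ℝ} (hu : |u| ≤ 1) :
    ‖Complex.exp (u * Complex.I) - (1 + u * Complex.I - u ^ 2 / 2)‖ ≤ (2 / 9) * |u| ^ 3 := by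
  have hn : ‖(u : ℂ) * Complex.I‖ ≤ 1 := by simpa using hu
  have h := Complex.exp_bound hn (n := 3) (by norm_num)
  have e : (∑ m ∈ Finset.range 3, ((u : ℂ) * Complex.I) ^ m / (m.factorial : ℂ))
      = 1 + u * Complex.I - u ^ 2 / 2 := by
    simp [Finset.sum_range_succ, Nat.factorial, mul_pow]
    ring
  rw [e] at h
  refine h.trans ?_
  have : ‖(u : ℂ) * Complex.I‖ = |u| := by simp
  rw [this]
  simp [Nat.factorial]
  norm_num
  linarith

lemma clt_factor {p y : ℝ} (hp0 : 0 ≤ p) (hp1 : p ≤ 1) :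
    ‖((1 - p : ℝ) + (p : ℝ) * Complex.exp (y * Complex.I)) * Complex.exp ((-(p * y) : ℝ) * Complex.I)
      - (Real.exp (-(p * (1 - p) * y ^ 2 / 2)) : ℂ)‖ ≤ 4 * p * |y| ^ 3 := by
  have hx0 : 0 ≤ p * (1 - p) * y ^ 2 / 2 := by
    have : 0 ≤ 1 - p := by linarith
    positivity
  have hxle : p * (1 - p) * y ^ 2 / 2 ≤ p * y ^ 2 / 2 := by
    have : p * (1 - p) * y ^ 2 ≤ p * y ^ 2 := by
      have h1 : p * (1 - p) ≤ p := by nlinarith
      exact mul_le_mul_of_nonneg_right h1 (sq_nonneg y)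
    linarith
  set x := p * (1 - p) * y ^ 2 / 2 with hx
  rcases le_or_gt |y| 1 with hy | hy
  · -- small y
    have hz : ((1 - p : ℝ) + (p : ℝ) * Complex.exp (y * Complex.I)) *
        Complex.exp ((-(p * y) : ℝ) * Complex.I)
        = (1 - p : ℝ) * Complex.exp ((-(p * y) : ℝ) * Complex.I)
          + (p : ℝ) * Complex.exp ((((1 - p) * y : ℝ)) * Complex.I) := by
      have : Complex.exp ((((1 - p) * y : ℝ)) * Complex.I)
          = Complex.exp (y * Complex.I) * Complex.exp ((-(p * y) : ℝ) * Complex.I) := by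
        rw [← Complex.exp_add]; congr 1; push_cast; ring
      rw [this]; ring
    rw [hz]
    have hy2 : y ^ 2 = |y| ^ 2 := (sq_abs y).symm
    have hyn : 0 ≤ |y| := abs_nonneg y
    have hu1 : |(-(p * y))| ≤ 1 := by
      rw [abs_neg, abs_mul, abs_of_nonneg hp0]; nlinarith
    have hu2 : |(1 - p) * y| ≤ 1 := by
      rw [abs_mul, abs_of_nonneg (by linarith : (0:ℝ) ≤ 1 - p)]; nlinarith
    have t1 := exp_taylor3 hu1
    have t2 := exp_taylor3 hu2
    have hexp : |Real.exp (-x) - (1 - x)| ≤ 3 / 4 * x ^ 2 := by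
      have hx1 : x ≤ 1 := by nlinarith
      have h := Real.exp_bound (x := -x) (by rw [abs_neg, abs_of_nonneg hx0]; exact hx1)
        (n := 2) (by norm_num)
      simp [Finset.sum_range_succ, Nat.factorial] at h
      have e1 : Real.exp (-x) - (1 + -x) = Real.exp (-x) - (1 - x) := by ring
      rw [e1] at h
      refine h.trans ?_
      norm_num
      linarith [sq_nonneg x]
    have key : (1 - p : ℝ) * Complex.exp ((-(p * y) : ℝ) * Complex.I)
          + (p : ℝ) * Complex.exp ((((1 - p) * y : ℝ)) * Complex.I) - (Real.exp (-x) : ℂ)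
        = (1 - p : ℝ) * (Complex.exp ((-(p * y) : ℝ) * Complex.I)
              - (1 + (-(p * y) : ℝ) * Complex.I - ((-(p * y) : ℝ) : ℂ) ^ 2 / 2))
          + (p : ℝ) * (Complex.exp ((((1 - p) * y : ℝ)) * Complex.I)
              - (1 + (((1 - p) * y : ℝ) : ℂ) * Complex.I - (((1 - p) * y : ℝ) : ℂ) ^ 2 / 2))
          - ((Real.exp (-x) - (1 - x) : ℝ) : ℂ) := by
      rw [hx]
      push_cast
      ring
    rw [key]
    refine (norm_sub_le _ _).trans ?_
    refine (add_le_add_left (norm_add_le _ _) _).trans ?_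
    rw [norm_mul, norm_mul, Complex.norm_real, Complex.norm_real, Complex.norm_real,
      Real.norm_eq_abs, Real.norm_eq_abs, Real.norm_eq_abs, abs_of_nonneg hp0,
      abs_of_nonneg (by linarith : (0:ℝ) ≤ 1 - p)]
    have a1 : |(-(p * y))| ^ 3 ≤ p * |y| ^ 3 := by
      rw [abs_neg, abs_mul, abs_of_nonneg hp0, mul_pow]
      apply mul_le_mul_of_nonneg_right _ (by positivity)
      nlinarith [mul_nonneg hp0 hp0, mul_nonneg (mul_nonneg hp0 hp0) (by linarith : (0:ℝ) ≤ 1 - p)]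
    have a2 : |(1 - p) * y| ^ 3 ≤ |y| ^ 3 := by
      rw [abs_mul, abs_of_nonneg (by linarith : (0:ℝ) ≤ 1 - p), mul_pow]
      have : (1 - p) ^ 3 ≤ 1 := pow_le_one₀ (by linarith) (by linarith)
      have h3 : 0 ≤ |y| ^ 3 := by positivity
      nlinarith
    have a3 : x ^ 2 ≤ p * |y| ^ 3 / 4 := by
      have h1 : x ≤ p * |y| ^ 2 / 2 := by rw [← hy2]; exact hxle
      have h2 : x ^ 2 ≤ (p * |y| ^ 2 / 2) ^ 2 := pow_le_pow_left₀ hx0 h1 2
      refine h2.trans ?_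
      have h3 : (p * |y| ^ 2 / 2) ^ 2 = (p * |y|) * (p * |y| ^ 3) / 4 := by ring
      rw [h3]
      have h4 : p * |y| ≤ 1 := by nlinarith
      have h5 : 0 ≤ p * |y| ^ 3 := by positivity
      nlinarith
    have b1 : (1 - p) * ‖Complex.exp ((-(p * y) : ℝ) * Complex.I)
              - (1 + (-(p * y) : ℝ) * Complex.I - ((-(p * y) : ℝ) : ℂ) ^ 2 / 2)‖
        ≤ (2 / 9) * (p * |y| ^ 3) := by
      have : (1 - p) * ‖Complex.exp ((-(p * y) : ℝ) * Complex.I)
              - (1 + (-(p * y) : ℝ) * Complex.I - ((-(p * y) : ℝ) : ℂ) ^ 2 / 2)‖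
          ≤ 1 * ((2 / 9) * |(-(p * y))| ^ 3) := by
        apply mul_le_mul (by linarith) t1 (norm_nonneg _) (by norm_num)
      linarith
    have b2 : p * ‖Complex.exp ((((1 - p) * y : ℝ)) * Complex.I)
              - (1 + (((1 - p) * y : ℝ) : ℂ) * Complex.I - (((1 - p) * y : ℝ) : ℂ) ^ 2 / 2)‖
        ≤ (2 / 9) * (p * |y| ^ 3) := by
      have : p * ‖Complex.exp ((((1 - p) * y : ℝ)) * Complex.I)
              - (1 + (((1 - p) * y : ℝ) : ℂ) * Complex.I - (((1 - p) * y : ℝ) : ℂ) ^ 2 / 2)‖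
          ≤ p * ((2 / 9) * |y| ^ 3) := by
        apply mul_le_mul_of_nonneg_left _ hp0
        exact t2.trans (by linarith)
      linarith
    have h7 : 0 ≤ p * |y| ^ 3 := by positivity
    linarith
  · -- large y
    have hyn : 0 < |y| := by linarith
    have n1 : ‖Complex.exp (y * Complex.I) - 1‖ ≤ 2 := by
      refine (norm_sub_le _ _).trans ?_
      rw [Complex.norm_exp_ofReal_mul_I, norm_one]; norm_num
    have n2 : ‖Complex.exp ((-(p * y) : ℝ) * Complex.I) - 1‖ ≤ p * |y| := by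
      have := Real.norm_exp_I_mul_ofReal_sub_one_le (x := -(p * y))
      rw [mul_comm Complex.I] at this
      refine this.trans ?_
      rw [Real.norm_eq_abs, abs_neg, abs_mul, abs_of_nonneg hp0]
    have n3 : |Real.exp (-x) - 1| ≤ p * y ^ 2 / 2 := by
      have h1 : Real.exp (-x) ≤ 1 := by rw [Real.exp_le_one_iff]; linarith
      have h2 := Real.add_one_le_exp (-x)
      rw [abs_le]
      constructor <;> linarith
    have key : ((1 - p : ℝ) + (p : ℝ) * Complex.exp (y * Complex.I)) *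
          Complex.exp ((-(p * y) : ℝ) * Complex.I) - (Real.exp (-x) : ℂ)
        = (p : ℝ) * (Complex.exp (y * Complex.I) - 1) * Complex.exp ((-(p * y) : ℝ) * Complex.I)
          + (Complex.exp ((-(p * y) : ℝ) * Complex.I) - 1)
          - ((Real.exp (-x) - 1 : ℝ) : ℂ) := by
      push_cast; ring
    rw [key]
    refine (norm_sub_le _ _).trans ?_
    refine (add_le_add_left (norm_add_le _ _) _).trans ?_
    rw [norm_mul, norm_mul, Complex.norm_exp_ofReal_mul_I, Complex.norm_real, Complex.norm_real,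
      Real.norm_eq_abs, Real.norm_eq_abs, abs_of_nonneg hp0, mul_one]
    have m1 : p * ‖Complex.exp (y * Complex.I) - 1‖ ≤ p * 2 := mul_le_mul_of_nonneg_left n1 hp0
    have hy2 : y ^ 2 = |y| ^ 2 := (sq_abs y).symm
    rw [hy2] at n3
    have c1 : (1:ℝ) ≤ |y| ^ 3 := one_le_pow₀ hy.le
    have c2 : |y| ≤ |y| ^ 3 := by
      calc |y| = |y| ^ 1 := (pow_one _).symm
        _ ≤ |y| ^ 3 := pow_le_pow_right₀ hy.le (by norm_num)
    have c3 : |y| ^ 2 ≤ |y| ^ 3 := pow_le_pow_right₀ hy.le (by norm_num)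
    have d1 := mul_le_mul_of_nonneg_left c1 hp0
    have d2 := mul_le_mul_of_nonneg_left c2 hp0
    have d3 := mul_le_mul_of_nonneg_left c3 hp0
    nlinarith

/-- Bernoulli weight. -/
noncomputable def pr (τ : ℝ) (s : ℕ) : ℝ := rho τ s / (1 + rho τ s)

lemma pr_nonneg (τ : ℝ) (s : ℕ) : 0 ≤ pr τ s := by
  unfold pr; have := rho_pos τ s; positivity

lemma pr_le_one (τ : ℝ) (s : ℕ) : pr τ s ≤ 1 := by
  unfold pr; have := rho_pos τ s; rw [div_le_one (by linarith)]; linarith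

lemma pr_le_rho (τ : ℝ) (s : ℕ) : pr τ s ≤ rho τ s := by
  unfold pr
  have := rho_pos τ s
  rw [div_le_iff₀ (by linarith)]; nlinarith

lemma phi_pr (τ : ℝ) (s : ℕ) (θ : ℝ) :
    phi τ s θ = (1 - pr τ s : ℝ) + (pr τ s : ℝ) * Complex.exp ((2 * π * (s * θ) : ℝ) * Complex.I) := by
  have h := one_add_rho_ne τ s
  unfold phi pr
  push_cast
  field_simp
  ring

/-- index set of the elements divisible by 4. -/
def idx4 (M : ℕ) : Finset (ℕ × ℕ) := range M ×ˢ Finset.Ico 1 M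

noncomputable def PP4 (τ : ℝ) (M : ℕ) (θ : ℝ) : ℂ := ∏ i ∈ idx4 M, phi τ (el i.1 i.2) θ

noncomputable def mu4 (τ : ℝ) (M : ℕ) : ℝ := ∑ i ∈ idx4 M, (el i.1 i.2 : ℝ) * pr τ (el i.1 i.2)

noncomputable def sig2 (τ : ℝ) (M : ℕ) : ℝ :=
  ∑ i ∈ idx4 M, (el i.1 i.2 : ℝ) ^ 2 * (pr τ (el i.1 i.2) * (1 - pr τ (el i.1 i.2)))

lemma sum_idx4_le (k : ℕ) (hk1 : 1 ≤ k) (hk3 : k ≤ 3) {τ : ℝ} (hτ : 0 < τ) (K : ℕ)
    (hK : 1 ≤ τ * 4 ^ K) (M : ℕ) :
    ∑ i ∈ idx4 M, (el i.1 i.2 : ℝ) ^ k * pr τ (el i.1 i.2) ≤ 96 * (K + 2) / τ ^ k := by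
  have h1 := total_sum k hk1 hk3 hτ K hK M
  refine le_trans ?_ h1
  rw [← Finset.sum_product_right']
  unfold idx4
  calc ∑ i ∈ range M ×ˢ Finset.Ico 1 M, (el i.1 i.2 : ℝ) ^ k * pr τ (el i.1 i.2)
      ≤ ∑ i ∈ range M ×ˢ Finset.Ico 1 M, (el i.1 i.2 : ℝ) ^ k * rho τ (el i.1 i.2) := by
        apply Finset.sum_le_sum
        intro i _
        apply mul_le_mul_of_nonneg_left (pr_le_rho _ _) (by positivity)
    _ ≤ ∑ i ∈ range M ×ˢ range M, (el i.1 i.2 : ℝ) ^ k * rho τ (el i.1 i.2) := by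
        apply Finset.sum_le_sum_of_subset_of_nonneg
        · apply Finset.product_subset_product_right
          intro x hx
          simp only [Finset.mem_Ico, Finset.mem_range] at hx ⊢
          omega
        · intro i _ _
          have := rho_pos τ (el i.1 i.2)
          positivity

lemma sig2_nonneg (τ : ℝ) (M : ℕ) : 0 ≤ sig2 τ M := by
  unfold sig2
  apply Finset.sum_nonneg
  intro i _
  have h1 := pr_nonneg τ (el i.1 i.2)
  have h2 := pr_le_one τ (el i.1 i.2)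
  have : 0 ≤ 1 - pr τ (el i.1 i.2) := by linarith
  positivity

lemma sig2_le {τ : ℝ} (hτ : 0 < τ) (K : ℕ) (hK : 1 ≤ τ * 4 ^ K) (M : ℕ) :
    sig2 τ M ≤ 96 * (K + 2) / τ ^ 2 := by
  refine le_trans ?_ (sum_idx4_le 2 (by norm_num) (by norm_num) hτ K hK M)
  unfold sig2
  apply Finset.sum_le_sum
  intro i _
  apply mul_le_mul_of_nonneg_left _ (by positivity)
  have h1 := pr_nonneg τ (el i.1 i.2)
  nlinarith

lemma gauss_approx {τ : ℝ} (hτ : 0 < τ) (K : ℕ) (hK : 1 ≤ τ * 4 ^ K) (M : ℕ) (θ : ℝ) :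
    ‖PP4 τ M θ * ee (-(mu4 τ M * θ)) - (Real.exp (-(2 * π ^ 2 * sig2 τ M * θ ^ 2)) : ℂ)‖
      ≤ 4 * (2 * π) ^ 3 * (96 * (K + 2)) * |θ| ^ 3 / τ ^ 3 := by
  have e1 : ee (-(mu4 τ M * θ))
      = ∏ i ∈ idx4 M, Complex.exp ((-(pr τ (el i.1 i.2) * (2 * π * (el i.1 i.2 * θ))) : ℝ) * Complex.I) := by
    rw [← Complex.exp_sum]
    unfold ee mu4
    congr 1
    rw [← Finset.sum_mul]
    congr 1
    push_cast
    rw [Finset.sum_mul, ← Finset.sum_neg_distrib, Finset.mul_sum]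
    apply Finset.sum_congr rfl
    intro i _
    ring
  have e2 : (Real.exp (-(2 * π ^ 2 * sig2 τ M * θ ^ 2)) : ℂ)
      = ∏ i ∈ idx4 M, ((Real.exp (-(pr τ (el i.1 i.2) * (1 - pr τ (el i.1 i.2))
          * (2 * π * (el i.1 i.2 * θ)) ^ 2 / 2)) : ℝ) : ℂ) := by
    rw [← Complex.ofReal_prod, ← Real.exp_sum]
    congr 2
    unfold sig2
    rw [Finset.mul_sum, Finset.sum_mul, ← Finset.sum_neg_distrib]
    apply Finset.sum_congr rfl
    intro i _
    ring
  rw [e1, e2]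
  unfold PP4
  rw [← Finset.prod_mul_distrib]
  refine (norm_prod_sub_prod_le' _ _ _ ?_ ?_).trans ?_
  · intro i _
    rw [norm_mul, Complex.norm_exp_ofReal_mul_I, mul_one]
    exact norm_phi_le_one hτ.le _ _
  · intro i _
    rw [Complex.norm_real, Real.norm_eq_abs, abs_of_pos (Real.exp_pos _), Real.exp_le_one_iff]
    have h1 := pr_nonneg τ (el i.1 i.2)
    have h2 : 0 ≤ 1 - pr τ (el i.1 i.2) := by linarith [pr_le_one τ (el i.1 i.2)]
    have : 0 ≤ pr τ (el i.1 i.2) * (1 - pr τ (el i.1 i.2)) * (2 * π * (el i.1 i.2 * θ)) ^ 2 / 2 := by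
      positivity
    linarith
  · have h3 : ∀ i ∈ idx4 M, ‖phi τ (el i.1 i.2) θ *
          Complex.exp ((-(pr τ (el i.1 i.2) * (2 * π * (el i.1 i.2 * θ))) : ℝ) * Complex.I)
          - ((Real.exp (-(pr τ (el i.1 i.2) * (1 - pr τ (el i.1 i.2))
          * (2 * π * (el i.1 i.2 * θ)) ^ 2 / 2)) : ℝ) : ℂ)‖
        ≤ (4 * (2 * π) ^ 3 * |θ| ^ 3) * ((el i.1 i.2 : ℝ) ^ 3 * pr τ (el i.1 i.2)) := by
      intro i _
      rw [phi_pr]
      refine (clt_factor (pr_nonneg _ _) (pr_le_one _ _)).trans ?_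
      rw [abs_mul, abs_mul, abs_mul, abs_of_pos Real.pi_pos, abs_of_pos (by norm_num : (0:ℝ) < 2),
        abs_of_nonneg (by positivity : (0:ℝ) ≤ (el i.1 i.2 : ℝ))]
      apply le_of_eq
      ring
    refine (Finset.sum_le_sum h3).trans ?_
    rw [← Finset.mul_sum]
    have h4 := sum_idx4_le 3 (by norm_num) (by norm_num) hτ K hK M
    calc 4 * (2 * π) ^ 3 * |θ| ^ 3 * ∑ i ∈ idx4 M, (el i.1 i.2 : ℝ) ^ 3 * pr τ (el i.1 i.2)
        ≤ 4 * (2 * π) ^ 3 * |θ| ^ 3 * (96 * (K + 2) / τ ^ 3) := by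
          apply mul_le_mul_of_nonneg_left h4 (by positivity)
      _ = 4 * (2 * π) ^ 3 * (96 * (K + 2)) * |θ| ^ 3 / τ ^ 3 := by ring

end Pool.Agent.Lib.MP_a28f5d_nt
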