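import Mathlib

namespace Pool.Agent.Lib.MP_a28f5d_nt

open Real Finset MeasureTheory

/-- `v(x) = (cos²(πx)+η)²`. -/
noncomputable def vv (η x : ℝ) : ℝ := (Real.cos (π * x) ^ 2 + η) ^ 2

lemma vv_nonneg (η x : ℝ) : 0 ≤ vv η x := sq_nonneg _

lemma vv_cont (η : ℝ) : Continuous (vv η) := by unfold vv; fun_prop

lemma vv_periodic (η : ℝ) : Function.Periodic (vv η) 1 := by
  intro x
  unfold vv
  have : π * (x + 1) = π * x + π := by ring
  rw [this, Real.cos_add_pi]
  ring

lemma vv_sum (η x : ℝ) :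
    vv η x + vv η (x + 1 / 3) + vv η (x + 2 / 3) = 3 * (3 / 8 + η + η ^ 2) := by
  unfold vv
  have h1 : π * (x + 1 / 3) = π * x + π / 3 := by ring
  have h2 : π * (x + 2 / 3) = π * x - π / 3 + π := by ring
  rw [h1, h2, Real.cos_add_pi, Real.cos_add, Real.cos_sub, Real.cos_pi_div_three,
    Real.sin_pi_div_three]
  set c := Real.cos (π * x)
  set d := Real.sin (π * x)
  have hcd : d ^ 2 = 1 - c ^ 2 := by
    have := Real.sin_sq_add_cos_sq (π * x); linarith
  have h3 : Real.sqrt 3 ^ 2 = 3 := Real.sq_sqrt (by norm_num)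
  set t := Real.sqrt 3
  have e1 : (c * (1 / 2) - d * (t / 2)) ^ 2 = c ^ 2 / 4 + 3 / 4 * (1 - c ^ 2) - c * d * t / 2 := by
    have : (c * (1 / 2) - d * (t / 2)) ^ 2 = c ^ 2 / 4 + d ^ 2 * t ^ 2 / 4 - c * d * t / 2 := by ring
    rw [this, hcd, h3]; ring
  have e2 : (-(c * (1 / 2) + d * (t / 2))) ^ 2 = c ^ 2 / 4 + 3 / 4 * (1 - c ^ 2) + c * d * t / 2 := by
    have : (-(c * (1 / 2) + d * (t / 2))) ^ 2 = c ^ 2 / 4 + d ^ 2 * t ^ 2 / 4 + c * d * t / 2 := by ring
    rw [this, hcd, h3]; ring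
  rw [e1, e2]
  have : (c * d * t) ^ 2 = c ^ 2 * (1 - c ^ 2) * 3 := by
    have : (c * d * t) ^ 2 = c ^ 2 * d ^ 2 * t ^ 2 := by ring
    rw [this, hcd, h3]
  nlinarith [this]

lemma integral_shift {H : ℝ → ℝ} (hp : Function.Periodic H 1) (t : ℝ) :
    ∫ x in (0:ℝ)..1, H (x + t) = ∫ x in (0:ℝ)..1, H x := by
  rw [intervalIntegral.integral_comp_add_right]
  have := hp.intervalIntegral_add_eq t 0
  simp only [zero_add] at this ⊢
  rw [add_comm 1 t]
  exact this

lemma integral_mul_nat {G : ℝ → ℝ} (hp : Function.Periodic G 1) (hc : Continuous G) (m : ℕ)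
    (hm : 0 < m) : ∫ x in (0:ℝ)..1, G (m * x) = ∫ x in (0:ℝ)..1, G x := by
  have hm' : (m : ℝ) ≠ 0 := by positivity
  rw [intervalIntegral.integral_comp_mul_left G hm']
  have h := hp.intervalIntegral_add_zsmul_eq (m : ℤ) 0 (fun a b => hc.intervalIntegrable a b)
  simp only [zero_add, zsmul_eq_mul, mul_one, Int.cast_natCast] at h
  rw [mul_zero, mul_one, h, smul_eq_mul, ← mul_assoc, inv_mul_cancel₀ hm', one_mul]

lemma integral_vv_mul (η : ℝ) {G : ℝ → ℝ} (hp : Function.Periodic G 1) (hc : Continuous G) :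
    ∫ x in (0:ℝ)..1, vv η x * G (3 * x) = (3 / 8 + η + η ^ 2) * ∫ x in (0:ℝ)..1, G x := by
  set H : ℝ → ℝ := fun x => vv η x * G (3 * x) with hH
  have hHc : Continuous H := by
    apply (vv_cont η).mul; exact hc.comp (by fun_prop)
  have hG3 : ∀ x, G (3 * (x + 1 / 3)) = G (3 * x) := by
    intro x
    have : 3 * (x + 1 / 3) = 3 * x + 1 := by ring
    rw [this, hp]
  have hG3' : ∀ x, G (3 * (x + 2 / 3)) = G (3 * x) := by
    intro x
    have : 3 * (x + 2 / 3) = 3 * x + 1 + 1 := by ring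
    rw [this, hp, hp]
  have hHp : Function.Periodic H 1 := by
    intro x
    simp only [hH]
    have : 3 * (x + 1) = 3 * x + 1 + 1 + 1 := by ring
    rw [vv_periodic, this, hp, hp, hp]
  have s1 := integral_shift hHp (1 / 3)
  have s2 := integral_shift hHp (2 / 3)
  have hsum : ∫ x in (0:ℝ)..1, (H x + H (x + 1 / 3) + H (x + 2 / 3))
      = 3 * ∫ x in (0:ℝ)..1, H x := by
    rw [intervalIntegral.integral_add, intervalIntegral.integral_add, s1, s2]
    · ring
    · exact hHc.intervalIntegrable _ _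
    · exact (hHc.comp (by fun_prop)).intervalIntegrable _ _
    · exact (hHc.add (hHc.comp (by fun_prop))).intervalIntegrable _ _
    · exact (hHc.comp (by fun_prop)).intervalIntegrable _ _
  have hpt : ∀ x, H x + H (x + 1 / 3) + H (x + 2 / 3) = 3 * (3 / 8 + η + η ^ 2) * G (3 * x) := by
    intro x
    simp only [hH]
    rw [hG3, hG3', ← vv_sum η x]
    ring
  have hint : ∫ x in (0:ℝ)..1, (H x + H (x + 1 / 3) + H (x + 2 / 3))
      = 3 * (3 / 8 + η + η ^ 2) * ∫ x in (0:ℝ)..1, G (3 * x) := by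
    rw [← intervalIntegral.integral_const_mul]
    apply intervalIntegral.integral_congr
    intro x _
    exact hpt x
  have h3 := integral_mul_nat hp hc 3 (by norm_num)
  push_cast at h3
  rw [hint, h3] at hsum
  linarith

/-- product of `v(3^a x)`. -/
noncomputable def prodv (η : ℝ) (A : ℕ) (x : ℝ) : ℝ := ∏ a ∈ range A, vv η (3 ^ a * x)

lemma prodv_cont (η : ℝ) (A : ℕ) : Continuous (prodv η A) := by
  unfold prodv
  apply continuous_finsetProd
  intro a _
  exact (vv_cont η).comp (by fun_prop)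

lemma vv_add_nat (η x : ℝ) (k : ℕ) : vv η (x + k) = vv η x := by
  have := (vv_periodic η).nat_mul k x
  simpa using this

lemma prodv_periodic (η : ℝ) (A : ℕ) : Function.Periodic (prodv η A) 1 := by
  intro x
  unfold prodv
  apply Finset.prod_congr rfl
  intro a _
  have : (3:ℝ) ^ a * (x + 1) = 3 ^ a * x + ((3 ^ a : ℕ) : ℝ) := by push_cast; ring
  rw [this, vv_add_nat]

lemma integral_prodv (η : ℝ) (A : ℕ) :
    ∫ x in (0:ℝ)..1, prodv η A x = (3 / 8 + η + η ^ 2) ^ A := by
  induction A with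
  | zero => simp [prodv]
  | succ A ih =>
    have h : ∀ x, prodv η (A + 1) x = vv η x * prodv η A (3 * x) := by
      intro x
      unfold prodv
      rw [Finset.prod_range_succ']
      rw [mul_comm]
      congr 1
      · simp
      · apply Finset.prod_congr rfl
        intro a _
        congr 1
        ring
    have : ∫ x in (0:ℝ)..1, prodv η (A + 1) x
        = ∫ x in (0:ℝ)..1, vv η x * prodv η A (3 * x) := by
      apply intervalIntegral.integral_congr
      intro x _
      exact h x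
    rw [this, integral_vv_mul η (prodv_periodic η A) (prodv_cont η A), ih]
    ring

lemma integral_prodv_mul (η : ℝ) (A m : ℕ) (hm : 0 < m) :
    ∫ x in (0:ℝ)..1, prodv η A (m * x) = (3 / 8 + η + η ^ 2) ^ A := by
  rw [integral_mul_nat (prodv_periodic η A) (prodv_cont η A) m hm, integral_prodv]

end Pool.Agent.Lib.MP_a28f5d_nt
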