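import Mathlib
import Pool.Agent.Lib.MP_a28f5d_nt.CLT

namespace Pool.Agent.Lib.MP_a28f5d_nt

open Real Finset

/-- alternating sums of antitone nonnegative sequences -/
lemma alt_even (t : ℕ → ℝ) (m : ℕ) :
    ∑ a ∈ range (2 * m), (-1 : ℝ) ^ a * t a = ∑ k ∈ range m, (t (2 * k) - t (2 * k + 1)) := by
  induction m with
  | zero => simp
  | succ m ih =>
    have : 2 * (m + 1) = 2 * m + 1 + 1 := by ring
    rw [this, Finset.sum_range_succ, Finset.sum_range_succ, ih, Finset.sum_range_succ]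
    have e1 : (-1 : ℝ) ^ (2 * m) = 1 := by rw [pow_mul]; norm_num
    have e2 : (-1 : ℝ) ^ (2 * m + 1) = -1 := by rw [pow_succ, e1]; norm_num
    rw [e1, e2]; ring

lemma alt_odd (t : ℕ → ℝ) (m : ℕ) :
    ∑ a ∈ range (2 * m + 1), (-1 : ℝ) ^ a * t a
      = t 0 - ∑ k ∈ range m, (t (2 * k + 1) - t (2 * k + 2)) := by
  induction m with
  | zero => simp
  | succ m ih =>
    have : 2 * (m + 1) + 1 = (2 * m + 1) + 1 + 1 := by ring
    rw [this, Finset.sum_range_succ, Finset.sum_range_succ, ih, Finset.sum_range_succ]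
    have e1 : (-1 : ℝ) ^ (2 * m + 1) = -1 := by rw [pow_succ, pow_mul]; norm_num
    have e2 : (-1 : ℝ) ^ (2 * m + 1 + 1) = 1 := by rw [pow_succ, e1]; norm_num
    rw [e1, e2]; ring_nf

lemma alt_nonneg {t : ℕ → ℝ} (ht : Antitone t) (h0 : ∀ n, 0 ≤ t n) (M : ℕ) :
    0 ≤ ∑ a ∈ range M, (-1 : ℝ) ^ a * t a := by
  have hE : ∀ m, 0 ≤ ∑ a ∈ range (2 * m), (-1 : ℝ) ^ a * t a := by
    intro m
    rw [alt_even]
    apply Finset.sum_nonneg
    intro k _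
    have := ht (Nat.le_succ (2 * k))
    simp only [Nat.succ_eq_add_one] at this
    linarith
  rcases Nat.even_or_odd' M with ⟨m, rfl | rfl⟩
  · exact hE m
  · rw [Finset.sum_range_succ]
    have e1 : (-1 : ℝ) ^ (2 * m) = 1 := by rw [pow_mul]; norm_num
    rw [e1]
    have := hE m
    have := h0 (2 * m)
    linarith

lemma alt_le {t : ℕ → ℝ} (ht : Antitone t) (h0 : ∀ n, 0 ≤ t n) (M i : ℕ) (hi : 2 * i + 2 < M) :
    ∑ a ∈ range M, (-1 : ℝ) ^ a * t a ≤ t 0 - (t (2 * i + 1) - t (2 * i + 2)) := by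
  have hO : ∀ m, i < m → ∑ a ∈ range (2 * m + 1), (-1 : ℝ) ^ a * t a
      ≤ t 0 - (t (2 * i + 1) - t (2 * i + 2)) := by
    intro m him
    rw [alt_odd]
    have : t (2 * i + 1) - t (2 * i + 2) ≤ ∑ k ∈ range m, (t (2 * k + 1) - t (2 * k + 2)) := by
      apply Finset.single_le_sum (f := fun k => t (2 * k + 1) - t (2 * k + 2))
      · intro k _
        have := ht (Nat.le_succ (2 * k + 1))
        simp only [Nat.succ_eq_add_one] at this
        show 0 ≤ t (2 * k + 1) - t (2 * k + 2)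
        have e : 2 * k + 1 + 1 = 2 * k + 2 := by ring
        rw [e] at this
        linarith
      · simpa using him
    linarith
  rcases Nat.even_or_odd' M with ⟨m, rfl | rfl⟩
  · obtain ⟨m', rfl⟩ : ∃ m', m = m' + 1 := ⟨m - 1, by omega⟩
    have e : 2 * (m' + 1) = (2 * m' + 1) + 1 := by ring
    rw [e, Finset.sum_range_succ]
    have e1 : (-1 : ℝ) ^ (2 * m' + 1) = -1 := by rw [pow_succ, pow_mul]; norm_num
    rw [e1]
    have := hO m' (by omega)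
    have := h0 (2 * m' + 1)
    linarith
  · exact hO m (by omega)

lemma arctan_sub_ge {x y : ℝ} (hy : 0 ≤ y) (hxy : y ≤ x) (hx : x ≤ 1) :
    (x - y) / 2 ≤ Real.arctan x - Real.arctan y := by
  have hmono : MonotoneOn (fun z : ℝ => Real.arctan z - z / 2) (Set.Icc 0 1) := by
    apply monotoneOn_of_deriv_nonneg (convex_Icc 0 1)
    · exact (Real.continuous_arctan.sub (by fun_prop)).continuousOn
    · intro z _
      exact ((Real.differentiableAt_arctan z).sub (by fun_prop)).differentiableWithinAt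
    · intro z hz
      rw [interior_Icc] at hz
      have h1 : HasDerivAt (fun z : ℝ => Real.arctan z - z / 2) (1 / (1 + z ^ 2) - 1 / 2) z :=
        (Real.hasDerivAt_arctan z).sub ((hasDerivAt_id z).div_const 2)
      rw [h1.deriv]
      have h2 : (1:ℝ) / 2 ≤ 1 / (1 + z ^ 2) := by
        apply one_div_le_one_div_of_le (by positivity)
        nlinarith [hz.1, hz.2]
      linarith
  have := hmono ⟨hy, hxy.trans hx⟩ ⟨hy.trans hxy, hx⟩ hxy
  simp only at this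
  linarith

lemma ee_three_pow (a : ℕ) : ee ((3:ℝ) ^ a * (1 / 4)) = (-1 : ℂ) ^ a * Complex.I := by
  induction a with
  | zero =>
    unfold ee
    have : ((2 * π * ((3:ℝ) ^ 0 * (1 / 4)) : ℝ) : ℂ) = (π : ℂ) / 2 := by push_cast; ring
    rw [this, Complex.exp_pi_div_two_mul_I]
    simp
  | succ a ih =>
    have : (3:ℝ) ^ (a + 1) * (1 / 4) = (3:ℝ) ^ a * (1 / 4) + (3:ℝ) ^ a * (1 / 4)
        + (3:ℝ) ^ a * (1 / 4) := by ring
    rw [this, ee_add, ee_add, ih]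
    have hI : Complex.I * Complex.I = -1 := Complex.I_mul_I
    have h2 : ((-1 : ℂ) ^ a) * ((-1 : ℂ) ^ a) = 1 := by
      rw [← pow_add, ← two_mul, pow_mul]; norm_num
    calc (-1 : ℂ) ^ a * Complex.I * ((-1) ^ a * Complex.I) * ((-1) ^ a * Complex.I)
        = (((-1 : ℂ) ^ a) * ((-1 : ℂ) ^ a)) * (-1 : ℂ) ^ a * (Complex.I * Complex.I) * Complex.I := by ring
      _ = (-1 : ℂ) ^ (a + 1) * Complex.I := by rw [h2, hI]; ring

/-- the three-power part at `1/4 + θ`. -/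
noncomputable def VV (τ : ℝ) (M : ℕ) (θ : ℝ) : ℂ := ∏ a ∈ range M, phi τ (3 ^ a) (1 / 4 + θ)

lemma phi_quarter (τ : ℝ) (a : ℕ) (θ : ℝ) :
    phi τ (3 ^ a) (1 / 4 + θ) =
      (1 + (rho τ (3 ^ a) : ℂ) * ((-1 : ℂ) ^ a * Complex.I) * ee (3 ^ a * θ)) / (1 + (rho τ (3 ^ a) : ℂ)) := by
  rw [phi_eq]
  have : ee (((3 ^ a : ℕ) : ℝ) * (1 / 4 + θ)) = ((-1 : ℂ) ^ a * Complex.I) * ee (3 ^ a * θ) := by
    rw [← ee_three_pow, ← ee_add]
    congr 1
    push_cast; ring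
  rw [this]
  ring

lemma phi_four (τ : ℝ) (m : ℕ) (θ : ℝ) : phi τ (4 * m) (1 / 4 + θ) = phi τ (4 * m) θ := by
  rw [phi_eq, phi_eq]
  have : ee (((4 * m : ℕ) : ℝ) * (1 / 4 + θ)) = ee (((4 * m : ℕ) : ℝ) * θ) := by
    have e : ((4 * m : ℕ) : ℝ) * (1 / 4 + θ) = ((m : ℤ) : ℝ) + ((4 * m : ℕ) : ℝ) * θ := by
      push_cast; ring
    rw [e, ee_add, ee_int, one_mul]
  rw [this]

lemma PP_quarter (τ : ℝ) {M : ℕ} (hM : 0 < M) (θ : ℝ) :
    PP τ M (1 / 4 + θ) = VV τ M θ * PP4 τ M θ := by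
  obtain ⟨m, rfl⟩ : ∃ m, M = m + 1 := ⟨M - 1, by omega⟩
  unfold PP PP4 VV idx4
  rw [Finset.prod_product_right]
  rw [Finset.range_eq_Ico, Finset.prod_eq_prod_Ico_succ_bot (by omega : 0 < m + 1)]
  congr 1
  · apply Finset.prod_congr rfl
    intro a _
    congr 1
    simp [el]
  · apply Finset.prod_congr rfl
    intro b hb
    simp only [Finset.mem_Ico] at hb
    apply Finset.prod_congr rfl
    intro a _
    have : el a b = 4 * (3 ^ a * 4 ^ (b - 1)) := by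
      unfold el
      obtain ⟨c, rfl⟩ : ∃ c, b = c + 1 := ⟨b - 1, by omega⟩
      simp [pow_succ]; ring
    rw [this, phi_four]

/-- `‖1 + ρ c‖ ≥ 1` for `c = ± i`. -/
lemma norm_one_add_I_ge (ρ : ℝ) (a : ℕ) : 1 ≤ ‖1 + (ρ : ℂ) * ((-1 : ℂ) ^ a * Complex.I)‖ := by
  have h : (1 + (ρ : ℂ) * ((-1 : ℂ) ^ a * Complex.I)).re = 1 := by
    rcases Nat.even_or_odd a with h | h
    · rw [h.neg_one_pow]; simp
    · rw [h.neg_one_pow]; simp
  calc (1:ℝ) = |(1 + (ρ : ℂ) * ((-1 : ℂ) ^ a * Complex.I)).re| := by rw [h]; simp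
    _ ≤ _ := Complex.abs_re_le_norm _

lemma norm_ee_sub_one_le (x : ℝ) : ‖ee x - 1‖ ≤ 2 * π * |x| := by
  have := Real.norm_exp_I_mul_ofReal_sub_one_le (x := 2 * π * x)
  rw [mul_comm Complex.I] at this
  unfold ee
  refine this.trans ?_
  rw [Real.norm_eq_abs, abs_mul, abs_of_pos (by positivity : 0 < 2 * π)]

lemma sum_three_rho {τ : ℝ} (hτ : 0 < τ) (M : ℕ) :
    ∑ a ∈ range M, (3:ℝ) ^ a * rho τ (3 ^ a) ≤ 96 / τ := by
  have h := row_sum 1 le_rfl (by norm_num) hτ M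
  have e : ∑ a ∈ range M, (3:ℝ) ^ a * rho τ (3 ^ a)
      = (1 / τ) * ∑ a ∈ range M, (τ * 3 ^ a) ^ 1 * Real.exp (-(τ * 3 ^ a)) := by
    rw [Finset.mul_sum]
    apply Finset.sum_congr rfl
    intro a _
    unfold rho
    push_cast
    field_simp
  rw [e]
  have h2 : 96 / (1 + τ) ≤ 96 := by
    rw [div_le_iff₀ (by linarith)]; nlinarith
  calc (1 / τ) * ∑ a ∈ range M, (τ * 3 ^ a) ^ 1 * Real.exp (-(τ * 3 ^ a)) ≤ (1 / τ) * 96 := by
        apply mul_le_mul_of_nonneg_left (h.trans h2) (by positivity)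
    _ = 96 / τ := by ring

/-- perturbation factor -/
noncomputable def tt (τ θ : ℝ) (a : ℕ) : ℂ :=
  (rho τ (3 ^ a) : ℂ) * ((-1 : ℂ) ^ a * Complex.I) * (ee (3 ^ a * θ) - 1) /
    (1 + (rho τ (3 ^ a) : ℂ) * ((-1 : ℂ) ^ a * Complex.I))

lemma VV_eq_mul (τ : ℝ) (M : ℕ) (θ : ℝ) :
    VV τ M θ = VV τ M 0 * ∏ a ∈ range M, (1 + tt τ θ a) := by
  unfold VV
  rw [← Finset.prod_mul_distrib]
  apply Finset.prod_congr rfl
  intro a _
  rw [phi_quarter, phi_quarter]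
  unfold tt
  have h1 := one_add_rho_ne τ (3 ^ a)
  have h2 : 1 + (rho τ (3 ^ a) : ℂ) * ((-1 : ℂ) ^ a * Complex.I) ≠ 0 := by
    intro h
    have := norm_one_add_I_ge (rho τ (3 ^ a)) a
    rw [h] at this
    simp at this
    linarith
  rw [mul_zero, ee_zero, mul_one]
  generalize (-1 : ℂ) ^ a * Complex.I = c at h2 ⊢
  field_simp
  ring

lemma norm_tt_le {τ : ℝ} (θ : ℝ) (a : ℕ) :
    ‖tt τ θ a‖ ≤ 2 * π * |θ| * ((3:ℝ) ^ a * rho τ (3 ^ a)) := by
  unfold tt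
  rw [norm_div, norm_mul, norm_mul, norm_mul, norm_pow, norm_neg, norm_one, one_pow, one_mul,
    Complex.norm_I, mul_one, Complex.norm_real, Real.norm_eq_abs, abs_of_pos (rho_pos _ _)]
  have h1 := norm_one_add_I_ge (rho τ (3 ^ a)) a
  have h2 := norm_ee_sub_one_le (3 ^ a * θ)
  have h3 := rho_pos τ (3 ^ a)
  have h4 : |(3:ℝ) ^ a * θ| = 3 ^ a * |θ| := by
    rw [abs_mul, abs_of_pos (by positivity)]
  rw [h4] at h2
  calc rho τ (3 ^ a) * ‖ee (3 ^ a * θ) - 1‖ / ‖1 + (rho τ (3 ^ a) : ℂ) * ((-1 : ℂ) ^ a * Complex.I)‖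
      ≤ rho τ (3 ^ a) * ‖ee (3 ^ a * θ) - 1‖ / 1 := by
        apply div_le_div_of_nonneg_left _ (by norm_num) h1
        positivity
    _ ≤ rho τ (3 ^ a) * (2 * π * (3 ^ a * |θ|)) := by
        rw [div_one]
        apply mul_le_mul_of_nonneg_left h2 h3.le
    _ = 2 * π * |θ| * ((3:ℝ) ^ a * rho τ (3 ^ a)) := by ring

lemma sum_tt_le {τ : ℝ} (hτ : 0 < τ) (M : ℕ) (θ : ℝ) :
    ∑ a ∈ range M, ‖tt τ θ a‖ ≤ 192 * π * |θ| / τ := by
  calc ∑ a ∈ range M, ‖tt τ θ a‖ ≤ ∑ a ∈ range M, 2 * π * |θ| * ((3:ℝ) ^ a * rho τ (3 ^ a)) :=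
        Finset.sum_le_sum (fun a _ => norm_tt_le θ a)
    _ = 2 * π * |θ| * ∑ a ∈ range M, ((3:ℝ) ^ a * rho τ (3 ^ a)) := by rw [Finset.mul_sum]
    _ ≤ 2 * π * |θ| * (96 / τ) := by
        apply mul_le_mul_of_nonneg_left (sum_three_rho hτ M) (by positivity)
    _ = 192 * π * |θ| / τ := by ring

lemma VV_sub_le {τ : ℝ} (hτ : 0 < τ) (M : ℕ) (θ : ℝ) :
    ‖VV τ M θ - VV τ M 0‖ ≤ ‖VV τ M 0‖ * (Real.exp (192 * π * |θ| / τ) - 1) := by
  have e : VV τ M θ - VV τ M 0 = VV τ M 0 * (∏ a ∈ range M, (1 + tt τ θ a) - 1) := by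
    rw [VV_eq_mul]; ring
  rw [e, norm_mul]
  apply mul_le_mul_of_nonneg_left _ (norm_nonneg _)
  refine (Finset.norm_prod_one_add_sub_one_le _ _).trans ?_
  have := Real.exp_le_exp.mpr (sum_tt_le hτ M θ)
  linarith

lemma VV_le {τ : ℝ} (hτ : 0 < τ) (M : ℕ) (θ : ℝ) :
    ‖VV τ M θ‖ ≤ ‖VV τ M 0‖ * Real.exp (192 * π * |θ| / τ) := by
  have h := VV_sub_le hτ M θ
  have h2 : ‖VV τ M θ‖ ≤ ‖VV τ M 0‖ + ‖VV τ M θ - VV τ M 0‖ := by
    calc ‖VV τ M θ‖ = ‖VV τ M 0 + (VV τ M θ - VV τ M 0)‖ := by congr 1; ring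
      _ ≤ _ := norm_add_le _ _
  linarith

/-- total phase -/
noncomputable def Ph (τ : ℝ) (M : ℕ) : ℝ :=
  ∑ a ∈ range M, (-1 : ℝ) ^ a * Real.arctan (rho τ (3 ^ a))

lemma one_add_I_polar (ρ : ℝ) (a : ℕ) :
    1 + (ρ : ℂ) * ((-1 : ℂ) ^ a * Complex.I)
      = (Real.sqrt (1 + ρ ^ 2) : ℂ) * Complex.exp (((-1 : ℝ) ^ a * Real.arctan ρ : ℝ) * Complex.I) := by
  have h1 : Real.sqrt (1 + ρ ^ 2) ≠ 0 := by positivity
  have hc := Real.cos_arctan ρ
  have hs := Real.sin_arctan ρ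
  rcases Nat.even_or_odd a with h | h
  · rw [h.neg_one_pow, h.neg_one_pow, one_mul, one_mul, Complex.exp_mul_I, ← Complex.ofReal_cos,
      ← Complex.ofReal_sin, hc, hs]
    push_cast
    have : (Real.sqrt (1 + ρ ^ 2) : ℂ) ≠ 0 := by exact_mod_cast h1
    field_simp
  · rw [h.neg_one_pow, h.neg_one_pow, neg_one_mul, neg_one_mul, Complex.exp_mul_I, ← Complex.ofReal_cos,
      ← Complex.ofReal_sin, Real.cos_neg, Real.sin_neg, hc, hs]
    push_cast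
    have : (Real.sqrt (1 + ρ ^ 2) : ℂ) ≠ 0 := by exact_mod_cast h1
    field_simp

lemma VV_zero_eq (τ : ℝ) (M : ℕ) :
    VV τ M 0 = (‖VV τ M 0‖ : ℂ) * Complex.exp ((Ph τ M : ℝ) * Complex.I) := by
  have h1 : VV τ M 0 = ((∏ a ∈ range M, Real.sqrt (1 + rho τ (3 ^ a) ^ 2) / (1 + rho τ (3 ^ a)) : ℝ) : ℂ)
      * Complex.exp ((Ph τ M : ℝ) * Complex.I) := by
    unfold VV Ph
    have e : Complex.exp (((∑ a ∈ range M, (-1 : ℝ) ^ a * Real.arctan (rho τ (3 ^ a)) : ℝ) : ℂ) * Complex.I)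
        = ∏ a ∈ range M, Complex.exp (((-1 : ℝ) ^ a * Real.arctan (rho τ (3 ^ a)) : ℝ) * Complex.I) := by
      rw [← Complex.exp_sum]
      congr 1
      rw [Complex.ofReal_sum, Finset.sum_mul]
    rw [e, Complex.ofReal_prod, ← Finset.prod_mul_distrib]
    apply Finset.prod_congr rfl
    intro a _
    rw [phi_quarter, mul_zero, ee_zero, mul_one, one_add_I_polar]
    push_cast
    ring
  have hpos : 0 ≤ ∏ a ∈ range M, Real.sqrt (1 + rho τ (3 ^ a) ^ 2) / (1 + rho τ (3 ^ a)) := by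
    apply Finset.prod_nonneg
    intro a _
    have := rho_pos τ (3 ^ a)
    positivity
  have h2 : ‖VV τ M 0‖ = ∏ a ∈ range M, Real.sqrt (1 + rho τ (3 ^ a) ^ 2) / (1 + rho τ (3 ^ a)) := by
    rw [h1, norm_mul, Complex.norm_exp_ofReal_mul_I, mul_one, Complex.norm_real, Real.norm_eq_abs,
      abs_of_nonneg hpos]
  rw [h2]
  exact h1

lemma rho_anti {τ : ℝ} (hτ : 0 < τ) : Antitone (fun a : ℕ => Real.arctan (rho τ (3 ^ a))) := by
  intro a b hab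
  apply Real.arctan_strictMono.monotone
  unfold rho
  apply Real.exp_le_exp.mpr
  have : (3:ℝ) ^ a ≤ 3 ^ b := pow_le_pow_right₀ (by norm_num) hab
  push_cast
  nlinarith

lemma Ph_nonneg {τ : ℝ} (hτ : 0 < τ) (M : ℕ) : 0 ≤ Ph τ M := by
  unfold Ph
  apply alt_nonneg (rho_anti hτ)
  intro n
  exact Real.arctan_nonneg.mpr (rho_pos _ _).le

lemma Ph_le {τ : ℝ} (hτ : 0 < τ) (hτ1 : τ ≤ 1 / 9) (M : ℕ) (hM : 1 / τ < 3 ^ M) :
    Ph τ M ≤ π / 4 - 1 / 100 := by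
  -- choose i
  have h1 : 1 ≤ 1 / (9 * τ) := by
    rw [le_div_iff₀ (by positivity)]; linarith
  obtain ⟨i, hi1, hi2⟩ := exists_nat_pow_near h1 (by norm_num : (1:ℝ) < 9)
  rw [le_div_iff₀ (by positivity)] at hi1
  rw [div_lt_iff₀ (by positivity)] at hi2
  set u := τ * 3 ^ (2 * i + 1) with hu
  have e9 : (9:ℝ) ^ i = 3 ^ (2 * i) := by rw [pow_mul]; norm_num
  have hu1 : u ≤ 1 / 3 := by
    rw [hu, pow_succ, ← e9]; linarith
  have hu2 : 1 / 27 < u := by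
    rw [pow_succ] at hi2
    rw [hu, pow_succ, ← e9]; linarith
  have hiM : 2 * i + 2 < M := by
    have h3 : (3:ℝ) ^ (2 * i + 2) < 3 ^ M := by
      refine lt_of_le_of_lt ?_ hM
      rw [le_div_iff₀ hτ]
      have : (3:ℝ) ^ (2 * i + 2) * τ = 3 * u := by rw [hu]; ring
      rw [this]; linarith
    exact (pow_lt_pow_iff_right₀ (by norm_num : (1:ℝ) < 3)).mp h3
  have h2 := alt_le (rho_anti hτ) (fun n => Real.arctan_nonneg.mpr (rho_pos _ _).le) M i hiM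
  unfold Ph
  refine h2.trans ?_
  have h0 : Real.arctan (rho τ (3 ^ 0)) ≤ π / 4 := by
    rw [← Real.arctan_one]
    exact Real.arctan_strictMono.monotone (rho_le_one hτ.le _)
  have r1 : rho τ (3 ^ (2 * i + 1)) = Real.exp (-u) := by
    unfold rho; rw [hu]; push_cast; rfl
  have r2 : rho τ (3 ^ (2 * i + 2)) = Real.exp (-(3 * u)) := by
    unfold rho; rw [hu]; push_cast; congr 1; ring
  rw [r1, r2]
  have h4 := arctan_sub_ge (x := Real.exp (-u)) (y := Real.exp (-(3 * u))) (Real.exp_pos _).le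
    (Real.exp_le_exp.mpr (by linarith)) (by rw [Real.exp_le_one_iff]; linarith)
  have h5 : 2 / 81 ≤ Real.exp (-u) - Real.exp (-(3 * u)) := by
    have e1 : Real.exp (-u) = Real.exp (-(3 * u)) * Real.exp (2 * u) := by
      rw [← Real.exp_add]; congr 1; ring
    rw [e1]
    have e2 := Real.add_one_le_exp (2 * u)
    have e3 : Real.exp (-1) ≤ Real.exp (-(3 * u)) := Real.exp_le_exp.mpr (by linarith)
    have e4 : (1:ℝ) / 3 ≤ Real.exp (-1) := by
      rw [Real.exp_neg, ← one_div]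
      apply one_div_le_one_div_of_le (Real.exp_pos _)
      have := Real.exp_one_lt_d9
      linarith
    nlinarith
  linarith

end Pool.Agent.Lib.MP_a28f5d_nt
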