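import Mathlib
import Pool.Agent.Lib.MP_a28f5d_nt.Phase

namespace Pool.Agent.Lib.MP_a28f5d_nt

open Real Finset

lemma one_sub_sum_le_prod {ι : Type*} [DecidableEq ι] (s : Finset ι) (x : ι → ℝ)
    (h0 : ∀ i ∈ s, 0 ≤ x i) (h1 : ∀ i ∈ s, x i ≤ 1) :
    1 - ∑ i ∈ s, x i ≤ ∏ i ∈ s, (1 - x i) := by
  induction s using Finset.induction_on with
  | empty => simp
  | insert a s ha ih =>
    rw [Finset.sum_insert ha, Finset.prod_insert ha]
    have h2 := ih (fun i hi => h0 i (Finset.mem_insert_of_mem hi))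
      (fun i hi => h1 i (Finset.mem_insert_of_mem hi))
    have h3 : 0 ≤ x a := h0 a (Finset.mem_insert_self a s)
    have h4 : x a ≤ 1 := h1 a (Finset.mem_insert_self a s)
    have h5 : 0 ≤ ∑ i ∈ s, x i :=
      Finset.sum_nonneg (fun i hi => h0 i (Finset.mem_insert_of_mem hi))
    nlinarith

lemma norm_VV_zero (τ : ℝ) (M : ℕ) :
    ‖VV τ M 0‖ = ∏ a ∈ range M, Real.sqrt (1 + rho τ (3 ^ a) ^ 2) / (1 + rho τ (3 ^ a)) := by
  unfold VV
  rw [norm_prod]
  apply Finset.prod_congr rfl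
  intro a _
  rw [phi_quarter, mul_zero, ee_zero, mul_one, one_add_I_polar, norm_div, norm_mul,
    Complex.norm_exp_ofReal_mul_I, mul_one, Complex.norm_real, Real.norm_eq_abs,
    abs_of_nonneg (Real.sqrt_nonneg _)]
  congr 1
  have h := rho_pos τ (3 ^ a)
  have e : (1 + (rho τ (3 ^ a) : ℂ)) = ((1 + rho τ (3 ^ a) : ℝ) : ℂ) := by push_cast; rfl
  rw [e, Complex.norm_real, Real.norm_eq_abs, abs_of_pos (by linarith)]

lemma gfac_le_one {ρ : ℝ} (h : 0 < ρ) : Real.sqrt (1 + ρ ^ 2) / (1 + ρ) ≤ 1 := by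
  rw [div_le_one (by linarith)]
  apply Real.sqrt_le_iff.mpr
  constructor
  · linarith
  · nlinarith

lemma gfac_ge {ρ : ℝ} (h : 0 < ρ) : Real.sqrt (1 / 2) ≤ Real.sqrt (1 + ρ ^ 2) / (1 + ρ) := by
  rw [le_div_iff₀ (by linarith)]
  apply Real.le_sqrt_of_sq_le
  rw [mul_pow, Real.sq_sqrt (by norm_num)]
  nlinarith [sq_nonneg (1 - ρ)]

lemma gfac_ge' {ρ : ℝ} (h : 0 < ρ) : 1 - ρ ≤ Real.sqrt (1 + ρ ^ 2) / (1 + ρ) := by
  rw [le_div_iff₀ (by linarith)]
  have : 1 ≤ Real.sqrt (1 + ρ ^ 2) := by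
    apply Real.le_sqrt_of_sq_le
    nlinarith
  nlinarith

lemma geom_third (M : ℕ) : ∑ x ∈ range M, ((1:ℝ) / 3) ^ x ≤ 3 / 2 := by
  have h := geom_sum_eq (x := (1:ℝ)/3) (by norm_num) M
  rw [h]
  have h0 : 0 < ((1:ℝ) / 3) ^ M := by positivity
  have h1 : (((1:ℝ) / 3) ^ M - 1) / (1 / 3 - 1) = (1 - ((1:ℝ) / 3) ^ M) * (3 / 2) := by ring
  rw [h1]
  linarith

lemma VV_lower {τ : ℝ} (hτ : 0 < τ) (M a1 : ℕ) (ha1 : 3 ≤ τ * 3 ^ a1) :
    (1 / 2) * Real.sqrt (1 / 2) ^ a1 ≤ ‖VV τ M 0‖ := by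
  rw [norm_VV_zero]
  set g : ℕ → ℝ := fun a => Real.sqrt (1 + rho τ (3 ^ a) ^ 2) / (1 + rho τ (3 ^ a)) with hg
  have hg0 : ∀ a, 0 ≤ g a := by
    intro a; simp only [hg]; have := rho_pos τ (3 ^ a); positivity
  have hg1 : ∀ a, g a ≤ 1 := fun a => gfac_le_one (rho_pos _ _)
  have h1 : ∏ a ∈ range (a1 + M), g a ≤ ∏ a ∈ range M, g a := by
    rw [add_comm, Finset.prod_range_add]
    have : ∏ x ∈ range a1, g (M + x) ≤ 1 :=
      Finset.prod_le_one (fun i _ => hg0 _) (fun i _ => hg1 _)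
    have h0 : 0 ≤ ∏ x ∈ range M, g x := Finset.prod_nonneg (fun i _ => hg0 _)
    nlinarith
  refine le_trans ?_ h1
  rw [Finset.prod_range_add]
  have h2 : Real.sqrt (1 / 2) ^ a1 ≤ ∏ x ∈ range a1, g x := by
    calc Real.sqrt (1 / 2) ^ a1 = ∏ x ∈ range a1, Real.sqrt (1 / 2) := by simp
      _ ≤ ∏ x ∈ range a1, g x := by
        apply Finset.prod_le_prod
        · intro i _; positivity
        · intro i _; exact gfac_ge (rho_pos _ _)
  have hsmall : ∀ x, rho τ (3 ^ (a1 + x)) ≤ (1 / 3) * ((1:ℝ) / 3) ^ x := by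
    intro x
    unfold rho
    rw [Real.exp_neg, ← one_div]
    have h3 : τ * ((3 ^ (a1 + x) : ℕ) : ℝ) = (τ * 3 ^ a1) * 3 ^ x := by push_cast; ring
    rw [h3]
    have h4 : (0:ℝ) < 3 ^ x := by positivity
    have h5 : 3 * (3:ℝ) ^ x ≤ Real.exp (τ * 3 ^ a1 * 3 ^ x) := by
      have := Real.add_one_le_exp (τ * 3 ^ a1 * 3 ^ x)
      nlinarith
    calc 1 / Real.exp (τ * 3 ^ a1 * 3 ^ x) ≤ 1 / (3 * (3:ℝ) ^ x) :=
          one_div_le_one_div_of_le (by positivity) h5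
      _ = (1 / 3) * ((1:ℝ) / 3) ^ x := by rw [div_pow]; field_simp; simp
  have hsum : ∑ x ∈ range M, rho τ (3 ^ (a1 + x)) ≤ 1 / 2 := by
    calc ∑ x ∈ range M, rho τ (3 ^ (a1 + x)) ≤ ∑ x ∈ range M, (1 / 3) * ((1:ℝ) / 3) ^ x :=
          Finset.sum_le_sum (fun x _ => hsmall x)
      _ = (1 / 3) * ∑ x ∈ range M, ((1:ℝ) / 3) ^ x := by rw [Finset.mul_sum]
      _ ≤ (1 / 3) * (3 / 2) := mul_le_mul_of_nonneg_left (geom_third M) (by norm_num)
      _ = 1 / 2 := by norm_num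
  have h6 : 1 / 2 ≤ ∏ x ∈ range M, g (a1 + x) := by
    have h7 := one_sub_sum_le_prod (range M) (fun x => rho τ (3 ^ (a1 + x)))
      (fun i _ => (rho_pos _ _).le) (fun i _ => rho_le_one hτ.le _)
    have h8 : ∏ x ∈ range M, (1 - rho τ (3 ^ (a1 + x))) ≤ ∏ x ∈ range M, g (a1 + x) := by
      apply Finset.prod_le_prod
      · intro i _
        have := rho_le_one hτ.le (3 ^ (a1 + i))
        linarith
      · intro i _
        exact gfac_ge' (rho_pos _ _)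
    linarith
  calc (1 / 2) * Real.sqrt (1 / 2) ^ a1 = Real.sqrt (1 / 2) ^ a1 * (1 / 2) := by ring
    _ ≤ (∏ x ∈ range a1, g x) * ∏ x ∈ range M, g (a1 + x) := by
      apply mul_le_mul h2 h6 (by norm_num)
      exact Finset.prod_nonneg (fun i _ => hg0 _)

lemma ee_quarter_cases (k : ℕ) :
    ee (-((k:ℝ) / 4)) = 1 ∨ ee (-((k:ℝ) / 4)) = -Complex.I ∨ ee (-((k:ℝ) / 4)) = -1 ∨
      ee (-((k:ℝ) / 4)) = Complex.I := by
  have h1 : ee (-(1 / 4)) = -Complex.I := by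
    unfold ee
    have : ((2 * π * (-(1 / 4)) : ℝ) : ℂ) * Complex.I = -((π : ℂ) / 2 * Complex.I) := by
      push_cast; ring
    rw [this, Complex.exp_neg, Complex.exp_pi_div_two_mul_I]
    simp
  induction k with
  | zero => left; simp [ee_zero]
  | succ k ih =>
    have e : ee (-(((k + 1 : ℕ) : ℝ) / 4)) = ee (-((k:ℝ) / 4)) * ee (-(1 / 4)) := by
      rw [← ee_add]; congr 1; push_cast; ring
    rw [e, h1]
    rcases ih with h | h | h | h <;> rw [h]
    · right; left; ring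
    · right; right; left
      rw [neg_mul_neg, Complex.I_mul_I]
    · right; right; right; ring
    · left; rw [mul_neg, Complex.I_mul_I]; ring

lemma re_quarter_ge {z : ℂ} {c : ℝ} (h1 : c ≤ |z.re|) (h2 : c ≤ |z.im|) (k : ℕ) :
    c ≤ |(ee (-((k:ℝ) / 4)) * z).re| := by
  rcases ee_quarter_cases k with h | h | h | h <;> rw [h]
  · simpa using h1
  · simpa using h2
  · simpa using h1
  · simpa using h2

/-- The main term does not vanish. -/
lemma main_phase {Φ r : ℝ} (h0 : 0 ≤ Φ) (h1 : Φ ≤ π / 4 - 1 / 100) (hr0 : 1 - 1 / 1000 ≤ r)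
    (hr1 : r ≤ 1) (k : ℕ) :
    1 / 100 ≤ |(ee (-((k:ℝ) / 4)) * (Complex.exp ((Φ : ℝ) * Complex.I) * (1 - r * Complex.I))).re| := by
  have hpi := Real.pi_lt_d2
  have hpi3 := Real.pi_gt_three
  set z := Complex.exp ((Φ : ℝ) * Complex.I) * (1 - r * Complex.I) with hz
  have hzre : z.re = Real.cos Φ + r * Real.sin Φ := by
    rw [hz, Complex.exp_mul_I, ← Complex.ofReal_cos, ← Complex.ofReal_sin]
    simp only [Complex.mul_re, Complex.add_re, Complex.add_im, Complex.sub_re, Complex.sub_im,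
      Complex.mul_im, Complex.ofReal_re, Complex.ofReal_im, Complex.I_re, Complex.I_im,
      Complex.one_re, Complex.one_im]
    ring
  have hzim : z.im = Real.sin Φ - r * Real.cos Φ := by
    rw [hz, Complex.exp_mul_I, ← Complex.ofReal_cos, ← Complex.ofReal_sin]
    simp only [Complex.mul_re, Complex.add_re, Complex.add_im, Complex.sub_re, Complex.sub_im,
      Complex.mul_im, Complex.ofReal_re, Complex.ofReal_im, Complex.I_re, Complex.I_im,
      Complex.one_re, Complex.one_im]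
    ring
  have hsin : 0 ≤ Real.sin Φ := Real.sin_nonneg_of_nonneg_of_le_pi h0 (by linarith)
  have hcos : Real.cos (π / 4) ≤ Real.cos Φ :=
    Real.cos_le_cos_of_nonneg_of_le_pi h0 (by linarith) (by linarith)
  have hc4 : (7:ℝ) / 10 ≤ Real.cos (π / 4) := by
    rw [Real.cos_pi_div_four]
    have : (1.4:ℝ) ≤ Real.sqrt 2 := by
      apply Real.le_sqrt_of_sq_le; norm_num
    linarith
  have hcos1 : Real.cos Φ ≤ 1 := Real.cos_le_one _
  -- cos Φ - sin Φ = √2 sin (π/4 - Φ)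
  have hdiff : Real.cos Φ - Real.sin Φ = Real.sqrt 2 * Real.sin (π / 4 - Φ) := by
    rw [Real.sin_sub, Real.sin_pi_div_four, Real.cos_pi_div_four]
    have : Real.sqrt 2 * Real.sqrt 2 = 2 := Real.mul_self_sqrt (by norm_num)
    nlinarith
  have hsd : (1:ℝ) / 100 * 99 / 100 ≤ Real.sin (π / 4 - Φ) := by
    have h3 : Real.sin (1 / 100) ≤ Real.sin (π / 4 - Φ) := by
      apply Real.sin_le_sin_of_le_of_le_pi_div_two <;> linarith
    have h4 := Real.sin_gt_sub_cube (x := 1 / 100) (by norm_num)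
    linarith
  have hs2 : (1.4:ℝ) ≤ Real.sqrt 2 := by
    apply Real.le_sqrt_of_sq_le; norm_num
  apply re_quarter_ge
  · rw [hzre, abs_of_nonneg (by nlinarith)]
    nlinarith
  · rw [hzim, abs_of_nonpos (by nlinarith)]
    nlinarith

end Pool.Agent.Lib.MP_a28f5d_nt
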