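import Mathlib
import Pool.Agent.Lib.MP_a28f5d_nt.Lower

namespace Pool.Agent.Lib.MP_a28f5d_nt

open Real Finset

/-- triple product inequality -/
lemma triple_le {u w v : ℝ} (hu0 : 0 ≤ u) (hu : u ≤ 3 / 4) (hw : w = u * (4 * u - 3) ^ 2)
    (hv : v = w * (4 * w - 3) ^ 2) : u * w * v ≤ 7 / 25 := by
  have hw0 : 0 ≤ w := by rw [hw]; positivity
  have hv0 : 0 ≤ v := by rw [hv]; positivity
  have hw1 : w ≤ 1 := by
    have : 1 - u * (4 * u - 3) ^ 2 = (1 - u) * (4 * u - 1) ^ 2 := by ring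
    have h2 : 0 ≤ (1 - u) * (4 * u - 1) ^ 2 := mul_nonneg (by linarith) (sq_nonneg _)
    rw [hw]; linarith
  have hv1 : v ≤ 1 := by
    have : 1 - w * (4 * w - 3) ^ 2 = (1 - w) * (4 * w - 1) ^ 2 := by ring
    have h2 : 0 ≤ (1 - w) * (4 * w - 1) ^ 2 := mul_nonneg (by linarith) (sq_nonneg _)
    rw [hv]; linarith
  have hwv : w * v = (w * (4 * w - 3)) ^ 2 := by rw [hv]; ring
  have hwv1 : w * v ≤ 1 := by nlinarith
  rw [mul_assoc]
  rcases le_or_gt u (7 / 25) with h1 | h1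
  · have : 0 ≤ w * v := mul_nonneg hw0 hv0
    nlinarith
  · rcases le_or_gt w (3 / 4) with h2 | h2
    · have h3 : w * (3 - 4 * w) ≤ 9 / 16 := by nlinarith [sq_nonneg (w - 3 / 8)]
      have h4 : 0 ≤ w * (3 - 4 * w) := mul_nonneg hw0 (by linarith)
      have h5 : w * v ≤ 81 / 256 := by
        rw [hwv]
        have : (w * (4 * w - 3)) ^ 2 = (w * (3 - 4 * w)) ^ 2 := by ring
        rw [this]
        nlinarith
      nlinarith
    · -- w > 3/4 forces u < 0.42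
      have hu42 : u < 42 / 100 := by
        by_contra hcon
        push Not at hcon
        have : w ≤ 3 / 4 := by
          rw [hw]
          nlinarith [mul_nonneg (sub_nonneg.mpr hcon) (sub_nonneg.mpr hu),
            mul_nonneg hu0 (mul_nonneg (sub_nonneg.mpr hcon) (sub_nonneg.mpr hu))]
        linarith
      have hmono : ∀ W : ℝ, w ≤ W → w * (4 * w - 3) ≤ W * (4 * W - 3) := by
        intro W hW
        nlinarith
      have h0 : 0 ≤ w * (4 * w - 3) := mul_nonneg hw0 (by linarith)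
      rcases le_or_gt u (311 / 1000) with h3 | h3
      · have hwb : w ≤ 98964 / 100000 := by
          rw [hw]
          nlinarith [mul_nonneg (sub_nonneg.mpr h1.le) (sub_nonneg.mpr h3),
            mul_nonneg hu0 (mul_nonneg (sub_nonneg.mpr h1.le) (sub_nonneg.mpr h3))]
        have h5 := hmono _ hwb
        have h6 : w * v ≤ ((98964 / 100000) * (4 * (98964 / 100000) - 3)) ^ 2 := by
          rw [hwv]
          exact pow_le_pow_left₀ h0 h5 2
        have h7 : w * v ≤ 9 / 10 := h6.trans (by norm_num)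
        nlinarith
      · have hwb : w ≤ 959 / 1000 := by
          rw [hw]
          nlinarith [mul_nonneg (sub_nonneg.mpr h3.le) (sub_nonneg.mpr hu42.le),
            mul_nonneg hu0 (mul_nonneg (sub_nonneg.mpr h3.le) (sub_nonneg.mpr hu42.le))]
        have h5 := hmono _ hwb
        have h6 : w * v ≤ ((959 / 1000) * (4 * (959 / 1000) - 3)) ^ 2 := by
          rw [hwv]
          exact pow_le_pow_left₀ h0 h5 2
        have h7 : w * v ≤ 65 / 100 := h6.trans (by norm_num)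
        nlinarith

lemma cos_three_sq (x : ℝ) : Real.cos (3 * x) ^ 2 = Real.cos x ^ 2 * (4 * Real.cos x ^ 2 - 3) ^ 2 := by
  rw [Real.cos_three_mul]; ring

lemma triple_cos {x : ℝ} (h : Real.cos x ^ 2 ≤ 3 / 4) :
    Real.cos x ^ 2 * Real.cos (3 * x) ^ 2 * Real.cos (9 * x) ^ 2 ≤ 7 / 25 := by
  apply triple_le (sq_nonneg _) h (cos_three_sq x)
  have : 9 * x = 3 * (3 * x) := by ring
  rw [this, cos_three_sq]

lemma cos_sq_add_int (x : ℝ) (m : ℤ) : Real.cos (π * (m + x)) ^ 2 = Real.cos (π * x) ^ 2 := by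
  have : π * (m + x) = π * x + m * π := by ring
  rw [this, Real.cos_add_int_mul_pi, mul_pow]
  have h1 : (((-1 : ℝ) ^ m)) ^ 2 = 1 := by
    rw [← zpow_natCast, ← zpow_mul, mul_comm, zpow_mul]
    norm_num
  rw [h1, one_mul]

lemma cos_sq_le_of_far {d : ℝ} (h1 : 1 / 6 ≤ |d|) (h2 : |d| ≤ 1 / 2) :
    Real.cos (π * d) ^ 2 ≤ 3 / 4 := by
  have e : Real.cos (π * d) = Real.cos (π * |d|) := by
    rcases abs_cases d with ⟨h, _⟩ | ⟨h, _⟩
    · rw [h]
    · rw [h, mul_neg, Real.cos_neg]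
  rw [e]
  have hpi := Real.pi_pos
  have h3 : Real.cos (π * |d|) ≤ Real.cos (π / 6) := by
    apply Real.cos_le_cos_of_nonneg_of_le_pi (by positivity)
    · nlinarith
    · nlinarith
  have h4 : 0 ≤ Real.cos (π * |d|) := by
    apply Real.cos_nonneg_of_neg_pi_div_two_le_of_le
    · have : 0 ≤ π * |d| := by positivity
      linarith
    · nlinarith
  rw [Real.cos_pi_div_six] at h3
  have h5 : Real.sqrt 3 ^ 2 = 3 := Real.sq_sqrt (by norm_num)
  have h6 := Real.sqrt_nonneg 3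
  calc Real.cos (π * |d|) ^ 2 ≤ (Real.sqrt 3 / 2) ^ 2 := pow_le_pow_left₀ h4 h3 2
    _ = 3 / 4 := by rw [div_pow, h5]; norm_num

/-- the pass lemma -/
lemma pass_exists {y Y : ℝ} (hY : 9 ≤ Y) (h : ∀ m : ℤ, 5 / Y ≤ |y - m|) :
    ∃ a : ℕ, (3:ℝ) ^ (a + 2) ≤ Y ∧ Real.cos (π * (3 ^ a * y)) ^ 2 ≤ 3 / 4 := by
  have hY0 : 0 < Y := by linarith
  set d := y - round y with hd
  have hd2 : |d| ≤ 1 / 2 := by rw [hd]; exact abs_sub_round y
  have hd1 : 5 / Y ≤ |d| := h (round y)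
  have hdpos : 0 < |d| := lt_of_lt_of_le (by positivity) hd1
  have hcos : ∀ a : ℕ, Real.cos (π * (3 ^ a * y)) ^ 2 = Real.cos (π * (3 ^ a * d)) ^ 2 := by
    intro a
    have e : (3:ℝ) ^ a * y = ((3 ^ a * round y : ℤ) : ℝ) + 3 ^ a * d := by
      rw [hd]; push_cast; ring
    rw [e, cos_sq_add_int]
  rcases le_or_gt (1 / 6) |d| with h6 | h6
  · refine ⟨0, by norm_num; linarith, ?_⟩
    rw [hcos]
    simpa using cos_sq_le_of_far h6 hd2
  · have h1 : 1 ≤ 1 / (6 * |d|) := by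
      rw [le_div_iff₀ (by positivity)]; linarith
    obtain ⟨k, hk1, hk2⟩ := exists_nat_pow_near h1 (by norm_num : (1:ℝ) < 3)
    rw [le_div_iff₀ (by positivity)] at hk1
    rw [div_lt_iff₀ (by positivity)] at hk2
    refine ⟨k + 1, ?_, ?_⟩
    · have h5 : 5 ≤ |d| * Y := by
        rw [div_le_iff₀ hY0] at hd1; exact hd1
      have h7 : (3:ℝ) ^ (k + 1 + 2) * |d| ≤ Y * |d| := by
        have : (3:ℝ) ^ (k + 1 + 2) = 27 * 3 ^ k := by ring
        rw [this]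
        nlinarith
      exact le_of_mul_le_mul_right h7 hdpos
    · rw [hcos]
      apply cos_sq_le_of_far
      · rw [abs_mul, abs_of_pos (by positivity : (0:ℝ) < 3 ^ (k + 1))]
        linarith
      · rw [abs_mul, abs_of_pos (by positivity : (0:ℝ) < 3 ^ (k + 1)), pow_succ]
        linarith

/-- row product (of norms) -/
noncomputable def Rw (τ : ℝ) (M : ℕ) (θ : ℝ) (b : ℕ) : ℝ := ∏ a ∈ range M, ‖phi τ (el a b) θ‖

lemma Rw_nonneg (τ : ℝ) (M : ℕ) (θ : ℝ) (b : ℕ) : 0 ≤ Rw τ M θ b :=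
  Finset.prod_nonneg (fun _ _ => norm_nonneg _)

lemma Rw_le_one {τ : ℝ} (hτ : 0 ≤ τ) (M : ℕ) (θ : ℝ) (b : ℕ) : Rw τ M θ b ≤ 1 :=
  Finset.prod_le_one (fun _ _ => norm_nonneg _) (fun _ _ => norm_phi_le_one hτ _ _)

lemma Rw_le_prod {τ : ℝ} (hτ : 0 ≤ τ) (M : ℕ) (θ : ℝ) (b : ℕ) {s : Finset ℕ} (hs : s ⊆ range M) :
    Rw τ M θ b ≤ ∏ a ∈ s, ‖phi τ (el a b) θ‖ := by
  unfold Rw
  rw [← Finset.prod_sdiff hs]
  have h1 : ∏ a ∈ range M \ s, ‖phi τ (el a b) θ‖ ≤ 1 :=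
    Finset.prod_le_one (fun _ _ => norm_nonneg _) (fun _ _ => norm_phi_le_one hτ _ _)
  have h2 : 0 ≤ ∏ a ∈ s, ‖phi τ (el a b) θ‖ := Finset.prod_nonneg (fun _ _ => norm_nonneg _)
  nlinarith

lemma norm_PP (τ : ℝ) (M : ℕ) (θ : ℝ) : ‖PP τ M θ‖ = ∏ b ∈ range M, Rw τ M θ b := by
  unfold PP Rw
  rw [norm_prod]
  apply Finset.prod_congr rfl
  intro b _
  rw [norm_prod]

lemma norm_phi_sq_le_eta {τ : ℝ} (hτ : 0 < τ) {X : ℝ} (hX : τ * X ≤ 1 / 100) (s : ℕ)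
    (hs : (s : ℝ) ≤ X) (θ : ℝ) :
    ‖phi τ s θ‖ ^ 2 ≤ Real.cos (π * (s * θ)) ^ 2 + 1 / 40000 := by
  refine (norm_phi_sq_le hτ.le s θ).trans ?_
  have h1 : τ * s ≤ 1 / 100 := by nlinarith
  have h2 : 0 ≤ τ * s := by positivity
  nlinarith

lemma Rw_pass {τ : ℝ} (hτ : 0 < τ) {X : ℝ} (hX : τ * X ≤ 1 / 100) {M : ℕ} (hM : X < 3 ^ M)
    (b : ℕ) (hb : 9 * 4 ^ b ≤ X) (θ : ℝ) (h : ∀ m : ℤ, 5 * 4 ^ b / X ≤ |4 ^ b * θ - m|) :
    Rw τ M θ b ^ 2 ≤ (53 / 100) ^ 2 := by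
  have h4 : (0:ℝ) < 4 ^ b := by positivity
  have hX0 : 0 < X := by nlinarith
  have hY : 9 ≤ X / 4 ^ b := by rw [le_div_iff₀ h4]; linarith
  have hfar : ∀ m : ℤ, 5 / (X / 4 ^ b) ≤ |4 ^ b * θ - m| := by
    intro m
    have : 5 / (X / 4 ^ b) = 5 * 4 ^ b / X := by field_simp
    rw [this]; exact h m
  obtain ⟨a, ha1, ha2⟩ := pass_exists hY hfar
  have ha3 : (3:ℝ) ^ (a + 2) * 4 ^ b ≤ X := by rw [le_div_iff₀ h4] at ha1; exact ha1
  have haM : a + 2 < M := by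
    have : (3:ℝ) ^ (a + 2) < 3 ^ M := by
      refine lt_of_le_of_lt ?_ hM
      have h1 : (1:ℝ) ≤ 4 ^ b := one_le_pow₀ (by norm_num)
      have h2 : (0:ℝ) < 3 ^ (a + 2) := by positivity
      nlinarith
    exact (pow_lt_pow_iff_right₀ (by norm_num : (1:ℝ) < 3)).mp this
  have hsub : ({a, a + 1, a + 2} : Finset ℕ) ⊆ range M := by
    intro x hx
    simp only [Finset.mem_insert, Finset.mem_singleton] at hx
    simp only [Finset.mem_range]
    omega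
  have h1 := Rw_le_prod hτ.le M θ b hsub
  rw [Finset.prod_insert (by simp), Finset.prod_insert (by simp), Finset.prod_singleton] at h1
  have hel0 : ((el a b : ℕ) : ℝ) ≤ X := by
    rw [el_cast]; rw [pow_add] at ha3
    have : (0:ℝ) < 3 ^ a * 4 ^ b := by positivity
    nlinarith
  have hel1 : ((el (a + 1) b : ℕ) : ℝ) ≤ X := by
    rw [el_cast, pow_succ]; rw [pow_add] at ha3
    have : (0:ℝ) < 3 ^ a * 4 ^ b := by positivity
    nlinarith
  have hel2 : ((el (a + 2) b : ℕ) : ℝ) ≤ X := by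
    rw [el_cast]; exact ha3
  have f0 := norm_phi_sq_le_eta hτ hX _ hel0 θ
  have f1 := norm_phi_sq_le_eta hτ hX _ hel1 θ
  have f2 := norm_phi_sq_le_eta hτ hX _ hel2 θ
  set x := π * (3 ^ a * (4 ^ b * θ)) with hx
  have e0 : π * (((el a b : ℕ) : ℝ) * θ) = x := by rw [el_cast, hx]; ring
  have e1 : π * (((el (a + 1) b : ℕ) : ℝ) * θ) = 3 * x := by rw [el_cast, hx]; ring
  have e2 : π * (((el (a + 2) b : ℕ) : ℝ) * θ) = 9 * x := by rw [el_cast, hx]; ring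
  rw [e0] at f0
  rw [e1] at f1
  rw [e2] at f2
  have ht := triple_cos ha2
  set c0 := Real.cos x ^ 2
  set c1 := Real.cos (3 * x) ^ 2
  set c2 := Real.cos (9 * x) ^ 2
  have c0n : 0 ≤ c0 := sq_nonneg _
  have c1n : 0 ≤ c1 := sq_nonneg _
  have c2n : 0 ≤ c2 := sq_nonneg _
  have c01 : c0 ≤ 1 := Real.cos_sq_le_one _
  have c11 : c1 ≤ 1 := Real.cos_sq_le_one _
  have c21 : c2 ≤ 1 := Real.cos_sq_le_one _
  have hR0 := Rw_nonneg τ M θ b
  calc Rw τ M θ b ^ 2 ≤ (‖phi τ (el a b) θ‖ * (‖phi τ (el (a + 1) b) θ‖ * ‖phi τ (el (a + 2) b) θ‖)) ^ 2 :=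
        pow_le_pow_left₀ hR0 h1 2
    _ = ‖phi τ (el a b) θ‖ ^ 2 * (‖phi τ (el (a + 1) b) θ‖ ^ 2 * ‖phi τ (el (a + 2) b) θ‖ ^ 2) := by ring
    _ ≤ (c0 + 1 / 40000) * ((c1 + 1 / 40000) * (c2 + 1 / 40000)) := by
        apply mul_le_mul f0 _ (by positivity) (by positivity)
        apply mul_le_mul f1 f2 (by positivity) (by positivity)
    _ = c0 * c1 * c2 + (1 / 40000) * (c0 * c1 + c0 * c2 + c1 * c2)
          + (1 / 40000) ^ 2 * (c0 + c1 + c2) + (1 / 40000) ^ 3 := by ring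
    _ ≤ 7 / 25 + (1 / 40000) * 3 + (1 / 40000) ^ 2 * 3 + (1 / 40000) ^ 3 := by
        have i1 : c0 * c1 ≤ 1 := by nlinarith
        have i2 : c0 * c2 ≤ 1 := by nlinarith
        have i3 : c1 * c2 ≤ 1 := by nlinarith
        nlinarith
    _ ≤ (53 / 100) ^ 2 := by norm_num

end Pool.Agent.Lib.MP_a28f5d_nt
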