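import Mathlib
import Pool.Agent.Lib.MP_a28f5d_nt.Rows

namespace Pool.Agent.Lib.MP_a28f5d_nt

open Real Finset

/-- `cos²` near odd multiples of a quarter -/
lemma cos_sq_quarter {N : ℤ} (hN : Odd N) (w : ℝ) :
    Real.cos (π * (N / 4 + w)) ^ 2 ≤ 1 / 2 + π * |w| := by
  obtain ⟨l, hl⟩ := hN
  have e1 : Real.cos (π * (N / 4 + w)) ^ 2 = 1 / 2 + Real.cos (2 * (π * (N / 4 + w))) / 2 :=
    Real.cos_sq _
  have e2 : 2 * (π * (N / 4 + w)) = (2 * π * w + π / 2) + l * π := by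
    rw [hl]; push_cast; ring
  rw [e1, e2, Real.cos_add_int_mul_pi, Real.cos_add_pi_div_two]
  have h1 : |(-1 : ℝ) ^ l * -Real.sin (2 * π * w)| ≤ 2 * π * |w| := by
    rw [abs_mul, abs_neg]
    have : |(-1 : ℝ) ^ l| = 1 := by
      rw [abs_zpow, abs_neg, abs_one, one_zpow]
    rw [this, one_mul]
    refine (Real.abs_sin_le_abs).trans ?_
    rw [abs_mul, abs_of_pos (by positivity : (0:ℝ) < 2 * π)]
  have h2 := le_abs_self ((-1 : ℝ) ^ l * -Real.sin (2 * π * w))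
  linarith

lemma cos_sq_half {N : ℤ} (hN : Odd N) (w : ℝ) :
    Real.cos (π * (N / 2 + w)) ^ 2 ≤ (π * |w|) ^ 2 := by
  obtain ⟨l, hl⟩ := hN
  have e2 : π * (N / 2 + w) = (π * w + π / 2) + l * π := by
    rw [hl]; push_cast; ring
  rw [e2, Real.cos_add_int_mul_pi, Real.cos_add_pi_div_two, ← sq_abs]
  apply pow_le_pow_left₀ (abs_nonneg _)
  rw [abs_mul, abs_neg]
  have : |(-1 : ℝ) ^ l| = 1 := by
    rw [abs_zpow, abs_neg, abs_one, one_zpow]
  rw [this, one_mul]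
  refine (Real.abs_sin_le_abs).trans ?_
  rw [abs_mul, abs_of_pos Real.pi_pos]

lemma cos_sq_sixteen {N : ℤ} (hN : N % 16 = 7 ∨ N % 16 = 9) (w : ℝ) :
    Real.cos (π * (N / 16 + w)) ^ 2 ≤ (π * (1 / 16 + |w|)) ^ 2 := by
  rcases hN with h | h
  · obtain ⟨l, hl⟩ : ∃ l : ℤ, N = 16 * l + 7 := ⟨N / 16, by omega⟩
    have e2 : π * (N / 16 + w) = (π * (w - 1 / 16) + π / 2) + l * π := by
      rw [hl]; push_cast; ring
    rw [e2, Real.cos_add_int_mul_pi, Real.cos_add_pi_div_two, ← sq_abs]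
    apply pow_le_pow_left₀ (abs_nonneg _)
    rw [abs_mul, abs_neg]
    have : |(-1 : ℝ) ^ l| = 1 := by
      rw [abs_zpow, abs_neg, abs_one, one_zpow]
    rw [this, one_mul]
    refine (Real.abs_sin_le_abs).trans ?_
    rw [abs_mul, abs_of_pos Real.pi_pos]
    apply mul_le_mul_of_nonneg_left _ Real.pi_pos.le
    calc |w - 1 / 16| ≤ |w| + |(1:ℝ) / 16| := abs_sub _ _
      _ = 1 / 16 + |w| := by rw [abs_of_pos (by norm_num : (0:ℝ) < 1 / 16)]; ring
  · obtain ⟨l, hl⟩ : ∃ l : ℤ, N = 16 * l + 9 := ⟨N / 16, by omega⟩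
    have e2 : π * (N / 16 + w) = (π * (w + 1 / 16) + π / 2) + l * π := by
      rw [hl]; push_cast; ring
    rw [e2, Real.cos_add_int_mul_pi, Real.cos_add_pi_div_two, ← sq_abs]
    apply pow_le_pow_left₀ (abs_nonneg _)
    rw [abs_mul, abs_neg]
    have : |(-1 : ℝ) ^ l| = 1 := by
      rw [abs_zpow, abs_neg, abs_one, one_zpow]
    rw [this, one_mul]
    refine (Real.abs_sin_le_abs).trans ?_
    rw [abs_mul, abs_of_pos Real.pi_pos]
    apply mul_le_mul_of_nonneg_left _ Real.pi_pos.le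
    calc |w + 1 / 16| ≤ |w| + |(1:ℝ) / 16| := abs_add_le _ _
      _ = 1 / 16 + |w| := by rw [abs_of_pos (by norm_num : (0:ℝ) < 1 / 16)]; ring

lemma block_exists {N0 : ℤ} (h : Odd N0) :
    ∃ i : ℕ, i < 4 ∧ ((3 ^ i * N0) % 16 = 7 ∨ (3 ^ i * N0) % 16 = 9) := by
  have h16 : N0 % 16 = 1 ∨ N0 % 16 = 3 ∨ N0 % 16 = 5 ∨ N0 % 16 = 7 ∨ N0 % 16 = 9 ∨ N0 % 16 = 11 ∨
      N0 % 16 = 13 ∨ N0 % 16 = 15 := by
    obtain ⟨l, hl⟩ := h
    omega
  rcases h16 with h | h | h | h | h | h | h | h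
  · exact ⟨2, by norm_num, by right; omega⟩
  · exact ⟨1, by norm_num, by right; omega⟩
  · exact ⟨3, by norm_num, by left; omega⟩
  · exact ⟨0, by norm_num, by left; omega⟩
  · exact ⟨0, by norm_num, by right; omega⟩
  · exact ⟨3, by norm_num, by right; omega⟩
  · exact ⟨1, by norm_num, by left; omega⟩
  · exact ⟨2, by norm_num, by left; omega⟩

lemma block_prod (x : ℕ → ℝ) (c : ℝ) (K : ℕ) (h0 : ∀ a < 4 * K, 0 ≤ x a)
    (h1 : ∀ a < 4 * K, x a ≤ 1)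
    (hb : ∀ q < K, ∃ i : ℕ, i < 4 ∧ x (4 * q + i) ≤ c) (hc : 0 ≤ c) :
    ∏ a ∈ range (4 * K), x a ≤ c ^ K := by
  induction K with
  | zero => simp
  | succ K ih =>
    have e : 4 * (K + 1) = 4 * K + 1 + 1 + 1 + 1 := by ring
    have ih' := ih (fun a ha => h0 a (by omega)) (fun a ha => h1 a (by omega))
      (fun q hq => hb q (by omega))
    have hP0 : 0 ≤ ∏ a ∈ range (4 * K), x a :=
      Finset.prod_nonneg (fun a ha => h0 a (by simp only [Finset.mem_range] at ha; omega))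
    rw [e, Finset.prod_range_succ, Finset.prod_range_succ, Finset.prod_range_succ,
      Finset.prod_range_succ, pow_succ]
    have a0 := h0 (4 * K) (by omega)
    have a1 := h0 (4 * K + 1) (by omega)
    have a2 := h0 (4 * K + 1 + 1) (by omega)
    have a3 := h0 (4 * K + 1 + 1 + 1) (by omega)
    have b0 := h1 (4 * K) (by omega)
    have b1 := h1 (4 * K + 1) (by omega)
    have b2 := h1 (4 * K + 1 + 1) (by omega)
    have b3 := h1 (4 * K + 1 + 1 + 1) (by omega)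
    set y0 := x (4 * K)
    set y1 := x (4 * K + 1)
    set y2 := x (4 * K + 1 + 1)
    set y3 := x (4 * K + 1 + 1 + 1)
    have hblock : y0 * y1 * y2 * y3 ≤ c := by
      obtain ⟨i, hi, hxi⟩ := hb K (by omega)
      have p01 : y0 * y1 ≤ 1 := mul_le_one₀ b0 a1 b1
      have p012 : y0 * y1 * y2 ≤ 1 := mul_le_one₀ p01 a2 b2
      have n01 : 0 ≤ y0 * y1 := mul_nonneg a0 a1
      have n012 : 0 ≤ y0 * y1 * y2 := mul_nonneg n01 a2
      interval_cases i
      · have hy : y0 ≤ c := hxi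
        calc y0 * y1 * y2 * y3 ≤ y0 * y1 * y2 := mul_le_of_le_one_right n012 b3
          _ ≤ y0 * y1 := mul_le_of_le_one_right n01 b2
          _ ≤ y0 := mul_le_of_le_one_right a0 b1
          _ ≤ c := hy
      · have hy : y1 ≤ c := hxi
        calc y0 * y1 * y2 * y3 ≤ y0 * y1 * y2 := mul_le_of_le_one_right n012 b3
          _ ≤ y0 * y1 := mul_le_of_le_one_right n01 b2
          _ ≤ y1 := mul_le_of_le_one_left a1 b0
          _ ≤ c := hy
      · have hy : y2 ≤ c := hxi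
        calc y0 * y1 * y2 * y3 ≤ y0 * y1 * y2 := mul_le_of_le_one_right n012 b3
          _ ≤ y2 := mul_le_of_le_one_left a2 p01
          _ ≤ c := hy
      · have hy : y3 ≤ c := hxi
        calc y0 * y1 * y2 * y3 ≤ y3 := mul_le_of_le_one_left a3 p012
          _ ≤ c := hy
    have hcK : 0 ≤ c ^ K := pow_nonneg hc K
    calc (∏ a ∈ range (4 * K), x a) * y0 * y1 * y2 * y3
        = (∏ a ∈ range (4 * K), x a) * (y0 * y1 * y2 * y3) := by ring
      _ ≤ c ^ K * c := mul_le_mul ih' hblock (by positivity) hcK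

lemma Rw_sq_le_prod {τ : ℝ} (hτ : 0 ≤ τ) {M K : ℕ} (hK : K ≤ M) (θ : ℝ) (b : ℕ) :
    Rw τ M θ b ^ 2 ≤ ∏ a ∈ range K, ‖phi τ (el a b) θ‖ ^ 2 := by
  have h := Rw_le_prod hτ M θ b (s := range K) (by simpa using hK)
  rw [Finset.prod_pow]
  exact pow_le_pow_left₀ (Rw_nonneg _ _ _ _) h 2

/-- perturbation size bookkeeping -/
lemma pert_bound {R b a c : ℕ} {X : ℝ} (hX : X = 4 ^ (R + 6)) {θ : ℝ} {m : ℤ}
    (h : |4 ^ (b + c) * θ - m| < 5 * 4 ^ (b + c) / X) (hs : (3:ℝ) ^ a * 4 ^ b ≤ 4 ^ (R - 1))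
    (hR : 1 ≤ R) :
    ∃ w : ℝ, |w| ≤ 1 / 3000 ∧ ((el a b : ℕ) : ℝ) * θ = ((3 ^ a * m : ℤ) : ℝ) / 4 ^ c + w := by
  set u := 4 ^ (b + c) * θ - m with hu
  refine ⟨3 ^ a * u / 4 ^ c, ?_, ?_⟩
  · rw [abs_div, abs_mul, abs_of_pos (by positivity : (0:ℝ) < 3 ^ a),
      abs_of_pos (by positivity : (0:ℝ) < 4 ^ c)]
    have hX0 : 0 < X := by rw [hX]; positivity
    rw [lt_div_iff₀ hX0] at h
    have hXe : X = 4 ^ (R - 1) * 4 ^ 7 := by
      rw [hX, ← pow_add]; congr 1; omega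
    rw [div_le_iff₀ (by positivity)]
    have h4 : (0:ℝ) < 4 ^ (R - 1) := by positivity
    have h7 : |u| * (4 ^ (R - 1) * 4 ^ 7) < 5 * (4 ^ b * 4 ^ c) := by
      rw [← hXe, ← pow_add]; exact h
    -- 3^a |u| ≤ 4^c/3000
    have h8 : 3 ^ a * |u| * (4 ^ (R - 1) * 4 ^ 7) ≤ 5 * 4 ^ (R - 1) * 4 ^ c := by
      calc 3 ^ a * |u| * (4 ^ (R - 1) * 4 ^ 7) = 3 ^ a * (|u| * (4 ^ (R - 1) * 4 ^ 7)) := by ring
        _ ≤ 3 ^ a * (5 * (4 ^ b * 4 ^ c)) := by
            apply mul_le_mul_of_nonneg_left h7.le (by positivity)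
        _ = 5 * (3 ^ a * 4 ^ b) * 4 ^ c := by ring
        _ ≤ 5 * 4 ^ (R - 1) * 4 ^ c := by
            apply mul_le_mul_of_nonneg_right _ (by positivity)
            apply mul_le_mul_of_nonneg_left hs (by norm_num)
    have h9 : (3 ^ a * |u| * 4 ^ 7) * 4 ^ (R - 1) ≤ (5 * 4 ^ c) * 4 ^ (R - 1) := by linarith
    have h10 := le_of_mul_le_mul_right h9 h4
    have h11 : (0:ℝ) < 4 ^ c := by positivity
    norm_num at h10
    linarith
  · have hθ : θ = (u + m) / 4 ^ (b + c) := by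
      rw [hu]; field_simp; ring
    rw [hθ, el_cast, pow_add]
    push_cast
    field_simp
    ring

lemma el_le_X {R b a : ℕ} {X : ℝ} (hX : X = 4 ^ (R + 6)) (hs : (3:ℝ) ^ a * 4 ^ b ≤ 4 ^ (R - 1)) :
    ((el a b : ℕ) : ℝ) ≤ X := by
  rw [el_cast, hX]
  refine hs.trans ?_
  exact pow_le_pow_right₀ (by norm_num) (by omega)

lemma odd_three_pow_mul {m : ℤ} (hm : Odd m) (a : ℕ) : Odd (3 ^ a * m) := by
  apply Odd.mul _ hm
  exact Odd.pow (by decide)

/-- structured row: quarter type -/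
lemma row_quarter {τ : ℝ} (hτ : 0 < τ) {R M K b : ℕ} {X : ℝ} (hX : X = 4 ^ (R + 6))
    (hτX : τ * X ≤ 1 / 100) (hR : 1 ≤ R) (hK : K ≤ M) {θ : ℝ} {m : ℤ} (hm : Odd m)
    (h : |4 ^ (b + 1) * θ - m| < 5 * 4 ^ (b + 1) / X)
    (hs : ∀ a < K, (3:ℝ) ^ a * 4 ^ b ≤ 4 ^ (R - 1)) :
    Rw τ M θ b ^ 2 ≤ (51 / 100) ^ K := by
  refine (Rw_sq_le_prod hτ.le hK θ b).trans ?_
  calc ∏ a ∈ range K, ‖phi τ (el a b) θ‖ ^ 2 ≤ ∏ a ∈ range K, (51 / 100 : ℝ) := by
        apply Finset.prod_le_prod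
        · intro a _; positivity
        · intro a ha
          have ha' := hs a (by simpa using ha)
          have h1 := norm_phi_sq_le_eta hτ hτX _ (el_le_X hX ha') θ
          obtain ⟨w, hw, he⟩ := pert_bound hX h ha' hR
          rw [he] at h1
          have h2 := cos_sq_quarter (odd_three_pow_mul hm a) w
          rw [pow_one] at h1
          have hpi := Real.pi_lt_d2
          have h3 : π * |w| ≤ 3.15 * (1 / 3000) :=
            mul_le_mul hpi.le hw (abs_nonneg _) (by norm_num)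
          linarith
    _ = (51 / 100) ^ K := by rw [Finset.prod_const, Finset.card_range]

/-- structured row: half type -/
lemma row_half {τ : ℝ} (hτ : 0 < τ) {R M K b : ℕ} {X : ℝ} (hX : X = 4 ^ (R + 6))
    (hτX : τ * X ≤ 1 / 100) (hR : 1 ≤ R) (hK : K ≤ M) {θ : ℝ} {m : ℤ} (hm : Odd m)
    (h : |4 ^ (b + 1) * θ - (2 * m : ℤ)| < 5 * 4 ^ (b + 1) / X)
    (hs : ∀ a < K, (3:ℝ) ^ a * 4 ^ b ≤ 4 ^ (R - 1)) :
    Rw τ M θ b ^ 2 ≤ (1 / 50) ^ K := by
  refine (Rw_sq_le_prod hτ.le hK θ b).trans ?_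
  calc ∏ a ∈ range K, ‖phi τ (el a b) θ‖ ^ 2 ≤ ∏ a ∈ range K, (1 / 50 : ℝ) := by
        apply Finset.prod_le_prod
        · intro a _; positivity
        · intro a ha
          have ha' := hs a (by simpa using ha)
          have h1 := norm_phi_sq_le_eta hτ hτX _ (el_le_X hX ha') θ
          obtain ⟨w, hw, he⟩ := pert_bound hX h ha' hR
          rw [he] at h1
          have e : (((3 ^ a * (2 * m) : ℤ) : ℝ) / 4 ^ 1 + w) = (((3 ^ a * m : ℤ) : ℝ) / 2 + w) := by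
            push_cast; ring
          rw [e] at h1
          have h2 := cos_sq_half (odd_three_pow_mul hm a) w
          have hpi := Real.pi_lt_d2
          have hpi0 := Real.pi_pos
          have h3 : π * |w| ≤ 3.15 * (1 / 3000) :=
            mul_le_mul hpi.le hw (abs_nonneg _) (by norm_num)
          have h4 : (π * |w|) ^ 2 ≤ (3.15 * (1 / 3000)) ^ 2 :=
            pow_le_pow_left₀ (by positivity) h3 2
          norm_num at h4 ⊢
          linarith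
    _ = (1 / 50) ^ K := by rw [Finset.prod_const, Finset.card_range]

/-- structured row: sixteenth type -/
lemma row_sixteen {τ : ℝ} (hτ : 0 < τ) {R M K b : ℕ} {X : ℝ} (hX : X = 4 ^ (R + 6))
    (hτX : τ * X ≤ 1 / 100) (hR : 1 ≤ R) (hK : 4 * K ≤ M) {θ : ℝ} {m : ℤ} (hm : Odd m)
    (h : |4 ^ (b + 2) * θ - m| < 5 * 4 ^ (b + 2) / X)
    (hs : ∀ a < 4 * K, (3:ℝ) ^ a * 4 ^ b ≤ 4 ^ (R - 1)) :
    Rw τ M θ b ^ 2 ≤ (1 / 25) ^ K := by
  refine (Rw_sq_le_prod hτ.le hK θ b).trans ?_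
  apply block_prod
  · intro a _; positivity
  · intro a _
    exact pow_le_one₀ (norm_nonneg _) (norm_phi_le_one hτ.le _ _)
  · intro q hq
    obtain ⟨i, hi, hmod⟩ := block_exists (odd_three_pow_mul hm (4 * q))
    refine ⟨i, hi, ?_⟩
    have ha' := hs (4 * q + i) (by omega)
    have h1 := norm_phi_sq_le_eta hτ hτX _ (el_le_X hX ha') θ
    obtain ⟨w, hw, he⟩ := pert_bound hX h ha' hR
    rw [he] at h1
    have e3 : (3:ℤ) ^ i * (3 ^ (4 * q) * m) = 3 ^ (4 * q + i) * m := by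
      rw [pow_add]; ring
    rw [e3] at hmod
    have h2 := cos_sq_sixteen hmod w
    have e16 : (4:ℝ) ^ 2 = 16 := by norm_num
    rw [e16] at h1
    have hpi := Real.pi_lt_d2
    have hpi0 := Real.pi_pos
    have h3 : π * (1 / 16 + |w|) ≤ 3.15 * (1 / 16 + 1 / 3000) := by
      apply mul_le_mul hpi.le _ (by positivity) (by norm_num)
      linarith
    have h4 : (π * (1 / 16 + |w|)) ^ 2 ≤ (3.15 * (1 / 16 + 1 / 3000)) ^ 2 :=
      pow_le_pow_left₀ (by positivity) h3 2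
    norm_num at h4 ⊢
    linarith
  · norm_num

end Pool.Agent.Lib.MP_a28f5d_nt
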