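import Mathlib
import Pool.Agent.Lib.MP_a28f5d_nt.Rows2
import Pool.Agent.Lib.MP_a28f5d_nt.L1

namespace Pool.Agent.Lib.MP_a28f5d_nt

open Real Finset MeasureTheory

/-- `A_b`: `4^b θ` is very close to an integer -/
def Near (X : ℝ) (θ : ℝ) (b : ℕ) : Prop := ∃ m : ℤ, |4 ^ b * θ - m| < 5 * 4 ^ b / X

lemma four_pow_lt {R M : ℕ} (h : (4:ℝ) ^ (R + 6) < 3 ^ M) : R + 6 < M := by
  have : (4:ℝ) ^ (R + 6) < 4 ^ M := lt_of_lt_of_le h (pow_le_pow_left₀ (by norm_num) (by norm_num) M)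
  exact (pow_lt_pow_iff_right₀ (by norm_num : (1:ℝ) < 4)).mp this

lemma three_four_le {a b c : ℕ} (h : a + b ≤ c) : (3:ℝ) ^ a * 4 ^ b ≤ 4 ^ c := by
  calc (3:ℝ) ^ a * 4 ^ b ≤ 4 ^ a * 4 ^ b := by
        apply mul_le_mul_of_nonneg_right _ (by positivity)
        exact pow_le_pow_left₀ (by norm_num) (by norm_num) a
    _ = 4 ^ (a + b) := by rw [pow_add]
    _ ≤ 4 ^ c := pow_le_pow_right₀ (by norm_num) h

/-- the squared row -/
noncomputable def qq (τ : ℝ) (M : ℕ) (θ : ℝ) (b : ℕ) : ℝ := Rw τ M θ b ^ 2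

lemma qq_nonneg (τ : ℝ) (M : ℕ) (θ : ℝ) (b : ℕ) : 0 ≤ qq τ M θ b := sq_nonneg _

lemma qq_le_one {τ : ℝ} (hτ : 0 ≤ τ) (M : ℕ) (θ : ℝ) (b : ℕ) : qq τ M θ b ≤ 1 :=
  pow_le_one₀ (Rw_nonneg _ _ _ _) (Rw_le_one hτ _ _ _)

lemma prod_qq_le_of_subset {τ : ℝ} (hτ : 0 ≤ τ) (M : ℕ) (θ : ℝ) {s t : Finset ℕ} (h : s ⊆ t) :
    ∏ b ∈ t, qq τ M θ b ≤ ∏ b ∈ s, qq τ M θ b := by
  rw [← Finset.prod_sdiff h]
  have h1 : ∏ b ∈ t \ s, qq τ M θ b ≤ 1 :=
    Finset.prod_le_one (fun _ _ => qq_nonneg _ _ _ _) (fun _ _ => qq_le_one hτ _ _ _)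
  have h2 : 0 ≤ ∏ b ∈ s, qq τ M θ b := Finset.prod_nonneg (fun _ _ => qq_nonneg _ _ _ _)
  nlinarith

lemma qq_pass {τ : ℝ} (hτ : 0 < τ) {R M : ℕ} {X : ℝ} (hX : X = 4 ^ (R + 6))
    (hτX : τ * X ≤ 1 / 100) (hM : X < 3 ^ M) {θ : ℝ} {b : ℕ} (hb : b ≤ R) (h : ¬ Near X θ b) :
    qq τ M θ b ≤ (53 / 100) ^ 2 := by
  unfold qq
  apply Rw_pass hτ hτX hM
  · rw [hX, pow_add]
    have : (4:ℝ) ^ b ≤ 4 ^ R := pow_le_pow_right₀ (by norm_num) hb
    have h0 : (0:ℝ) < 4 ^ R := by positivity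
    norm_num
    linarith
  · intro m
    unfold Near at h
    push Not at h
    exact h m

/-- numeric comparison -/
lemma mixed_le (k : ℕ) :
    ((51:ℝ) / 100) ^ k * (1 / 25) ^ (k / 4) ≤ ((53 / 100) ^ 2) ^ (k - 3) := by
  obtain ⟨u, i, hi, hk⟩ : ∃ u i, i < 4 ∧ k = 4 * u + i := ⟨k / 4, k % 4, by omega, by omega⟩
  have hk4 : k / 4 = u := by omega
  rw [hk4]
  have h1 : ((51:ℝ) / 100) ^ k ≤ (51 / 100) ^ (4 * u) :=
    pow_le_pow_of_le_one (by norm_num) (by norm_num) (by omega)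
  have h2 : (((53:ℝ) / 100) ^ 2) ^ (4 * u) ≤ ((53 / 100) ^ 2) ^ (k - 3) :=
    pow_le_pow_of_le_one (by norm_num) (by norm_num) (by omega)
  refine le_trans ?_ h2
  calc ((51:ℝ) / 100) ^ k * (1 / 25) ^ u ≤ (51 / 100) ^ (4 * u) * (1 / 25) ^ u := by
        apply mul_le_mul_of_nonneg_right h1 (by positivity)
    _ = ((51 / 100) ^ 4 * (1 / 25)) ^ u := by rw [mul_pow, pow_mul]
    _ ≤ (((53 / 100) ^ 2) ^ 4) ^ u := by
        apply pow_le_pow_left₀ (by norm_num); norm_num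
    _ = ((53 / 100) ^ 2) ^ (4 * u) := by rw [← pow_mul]

def B0 : Finset ℕ := {0, 1, 2, 3}
def B1 : Finset ℕ := {6, 7, 8, 9}

/-- pointwise bound on minor arcs for the rows outside `B`. -/
lemma rest_bound {τ : ℝ} (hτ : 0 < τ) {R M : ℕ} (hR : 20 ≤ R) {X : ℝ} (hX : X = 4 ^ (R + 6))
    (hτX : τ * X ≤ 1 / 100) (hM : X < 3 ^ M) {θ : ℝ} (h0 : ¬ Near X θ 0)
    (h1 : ∀ m : ℤ, Odd m → ¬ |4 ^ 1 * θ - m| < 5 * 4 ^ 1 / X) :
    ∃ B : Finset ℕ, (B = B0 ∨ B = B1) ∧
      ∏ b ∈ range M \ B, qq τ M θ b ≤ ((53 / 100) ^ 2) ^ (R - 9) := by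
  have hRM : R + 6 < M := four_pow_lt (by rw [← hX]; exact hM)
  have hX0 : 0 < X := by rw [hX]; positivity
  have D0 : (0:ℝ) ≤ (53 / 100) ^ 2 := by norm_num
  have D1 : ((53:ℝ) / 100) ^ 2 ≤ 1 := by norm_num
  by_cases hnear : ∃ b, b ≤ R ∧ Near X θ b
  · classical
    set β := Nat.find hnear with hβ
    obtain ⟨hβR, hβN⟩ := Nat.find_spec hnear
    rw [← hβ] at hβR hβN
    have hmin : ∀ b < β, ¬ Near X θ b := by
      intro b hb hN
      exact Nat.find_min hnear hb ⟨by omega, hN⟩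
    have hβ0 : β ≠ 0 := by
      intro h; rw [h] at hβN; exact h0 hβN
    obtain ⟨m, hm⟩ := hβN
    -- m is not divisible by 4
    have hm4 : ¬ (4 ∣ m) := by
      rintro ⟨m', rfl⟩
      apply hmin (β - 1) (by omega)
      refine ⟨m', ?_⟩
      obtain ⟨c, hc⟩ : ∃ c, β = c + 1 := ⟨β - 1, by omega⟩
      rw [hc] at hm ⊢
      simp only [Nat.add_sub_cancel]
      have e1 : (4:ℝ) ^ (c + 1) * θ - ((4 * m' : ℤ) : ℝ) = 4 * (4 ^ c * θ - m') := by
        push_cast; ring
      rw [e1, abs_mul, abs_of_pos (by norm_num : (0:ℝ) < 4)] at hm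
      have e2 : 5 * (4:ℝ) ^ (c + 1) / X = 4 * (5 * 4 ^ c / X) := by ring
      rw [e2] at hm
      linarith
    have hpassprod : ∀ t, t ≤ β → 4 ≤ t → ∏ b ∈ Finset.Ico 4 t, qq τ M θ b ≤ ((53 / 100) ^ 2) ^ (t - 4) := by
      intro t ht h4
      calc ∏ b ∈ Finset.Ico 4 t, qq τ M θ b ≤ ∏ b ∈ Finset.Ico 4 t, ((53:ℝ) / 100) ^ 2 := by
            apply Finset.prod_le_prod
            · intro b _; exact qq_nonneg _ _ _ _
            · intro b hb
              simp only [Finset.mem_Ico] at hb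
              exact qq_pass hτ hX hτX hM (by omega) (hmin b (by omega))
        _ = ((53 / 100) ^ 2) ^ (t - 4) := by rw [Finset.prod_const, Nat.card_Ico]
    obtain ⟨c, hc⟩ : ∃ c, β = c + 1 := ⟨β - 1, by omega⟩
    rcases Int.even_or_odd m with hme | hmo
    · -- m = 2 m', m' odd
      obtain ⟨m', hm'⟩ := hme
      have hm'odd : Odd m' := by
        rw [← Int.not_even_iff_odd]
        rintro ⟨l, hl⟩
        exact hm4 ⟨l, by omega⟩
      have hm2 : m = 2 * m' := by omega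
      have hrow : qq τ M θ c ≤ (1 / 50) ^ (R - β) := by
        unfold qq
        apply row_half hτ hX hτX (by omega) (by omega) hm'odd (b := c)
        · rw [hc, hm2] at hm; exact hm
        · intro a ha
          apply three_four_le; omega
      have hrow' : qq τ M θ c ≤ ((53 / 100) ^ 2) ^ (R - β) := by
        refine hrow.trans (pow_le_pow_left₀ (by norm_num) (by norm_num) _)
      rcases Nat.lt_or_ge β 6 with h6 | h6
      · refine ⟨B1, Or.inr rfl, ?_⟩
        have hsub : ({c} : Finset ℕ) ⊆ range M \ B1 := by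
          intro x hx
          simp only [Finset.mem_singleton] at hx
          simp only [B1, Finset.mem_sdiff, Finset.mem_range, Finset.mem_insert, Finset.mem_singleton]
          omega
        refine (prod_qq_le_of_subset hτ.le M θ hsub).trans ?_
        rw [Finset.prod_singleton]
        refine hrow'.trans ?_
        exact pow_le_pow_of_le_one D0 D1 (by omega)
      · refine ⟨B0, Or.inl rfl, ?_⟩
        have hsub : Finset.Ico 4 (c + 1) ⊆ range M \ B0 := by
          intro x hx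
          simp only [Finset.mem_Ico] at hx
          simp only [B0, Finset.mem_sdiff, Finset.mem_range, Finset.mem_insert, Finset.mem_singleton]
          omega
        refine (prod_qq_le_of_subset hτ.le M θ hsub).trans ?_
        rw [Finset.prod_Ico_succ_top (by omega)]
        have hp := hpassprod c (by omega) (by omega)
        calc (∏ k ∈ Finset.Ico 4 c, qq τ M θ k) * qq τ M θ c
            ≤ ((53 / 100) ^ 2) ^ (c - 4) * ((53 / 100) ^ 2) ^ (R - β) :=
              mul_le_mul hp hrow' (qq_nonneg _ _ _ _) (by positivity)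
          _ = ((53 / 100) ^ 2) ^ (c - 4 + (R - β)) := by rw [pow_add]
          _ ≤ ((53 / 100) ^ 2) ^ (R - 9) := pow_le_pow_of_le_one D0 D1 (by omega)
    · -- m odd
      have hβ1 : β ≠ 1 := by
        intro h
        rw [h] at hm
        exact h1 m hmo hm
      obtain ⟨d, hd⟩ : ∃ d, c = d + 1 := ⟨c - 1, by omega⟩
      have hrow1 : qq τ M θ c ≤ (51 / 100) ^ (R - β) := by
        unfold qq
        apply row_quarter hτ hX hτX (by omega) (by omega) hmo (b := c)
        · rw [hc] at hm; exact hm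
        · intro a ha
          apply three_four_le; omega
      have hrow2 : qq τ M θ d ≤ (1 / 25) ^ ((R - β) / 4) := by
        unfold qq
        apply row_sixteen hτ hX hτX (by omega) (by omega) hmo (b := d)
        · rw [hc, hd] at hm; exact hm
        · intro a ha
          apply three_four_le; omega
      have hrow : qq τ M θ d * qq τ M θ c ≤ ((53 / 100) ^ 2) ^ (R - β - 3) := by
        calc qq τ M θ d * qq τ M θ c ≤ (1 / 25) ^ ((R - β) / 4) * (51 / 100) ^ (R - β) :=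
              mul_le_mul hrow2 hrow1 (qq_nonneg _ _ _ _) (by positivity)
          _ = (51 / 100) ^ (R - β) * (1 / 25) ^ ((R - β) / 4) := mul_comm _ _
          _ ≤ _ := mixed_le _
      rcases Nat.lt_or_ge β 6 with h6 | h6
      · refine ⟨B1, Or.inr rfl, ?_⟩
        have hsub : ({d, c} : Finset ℕ) ⊆ range M \ B1 := by
          intro x hx
          simp only [Finset.mem_insert, Finset.mem_singleton] at hx
          simp only [B1, Finset.mem_sdiff, Finset.mem_range, Finset.mem_insert, Finset.mem_singleton]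
          omega
        refine (prod_qq_le_of_subset hτ.le M θ hsub).trans ?_
        rw [Finset.prod_insert (by simp only [Finset.mem_singleton]; omega), Finset.prod_singleton]
        refine hrow.trans ?_
        exact pow_le_pow_of_le_one D0 D1 (by omega)
      · refine ⟨B0, Or.inl rfl, ?_⟩
        have hsub : Finset.Ico 4 (d + 1 + 1) ⊆ range M \ B0 := by
          intro x hx
          simp only [Finset.mem_Ico] at hx
          simp only [B0, Finset.mem_sdiff, Finset.mem_range, Finset.mem_insert, Finset.mem_singleton]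
          omega
        refine (prod_qq_le_of_subset hτ.le M θ hsub).trans ?_
        rw [Finset.prod_Ico_succ_top (by omega), Finset.prod_Ico_succ_top (by omega), ← hd]
        have hp := hpassprod d (by omega) (by omega)
        calc (∏ k ∈ Finset.Ico 4 d, qq τ M θ k) * qq τ M θ d * qq τ M θ c
            = (∏ k ∈ Finset.Ico 4 d, qq τ M θ k) * (qq τ M θ d * qq τ M θ c) := by ring
          _ ≤ ((53 / 100) ^ 2) ^ (d - 4) * ((53 / 100) ^ 2) ^ (R - β - 3) :=
              mul_le_mul hp hrow (mul_nonneg (qq_nonneg _ _ _ _) (qq_nonneg _ _ _ _)) (by positivity)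
          _ = ((53 / 100) ^ 2) ^ (d - 4 + (R - β - 3)) := by rw [pow_add]
          _ ≤ ((53 / 100) ^ 2) ^ (R - 9) := pow_le_pow_of_le_one D0 D1 (by omega)
  · push Not at hnear
    refine ⟨B0, Or.inl rfl, ?_⟩
    have hsub : Finset.Ico 4 (R + 1) ⊆ range M \ B0 := by
      intro x hx
      simp only [Finset.mem_Ico] at hx
      simp only [B0, Finset.mem_sdiff, Finset.mem_range, Finset.mem_insert, Finset.mem_singleton]
      omega
    refine (prod_qq_le_of_subset hτ.le M θ hsub).trans ?_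
    calc ∏ b ∈ Finset.Ico 4 (R + 1), qq τ M θ b ≤ ∏ b ∈ Finset.Ico 4 (R + 1), ((53:ℝ) / 100) ^ 2 := by
          apply Finset.prod_le_prod
          · intro b _; exact qq_nonneg _ _ _ _
          · intro b hb
            simp only [Finset.mem_Ico] at hb
            exact qq_pass hτ hX hτX hM (by omega) (hnear b (by omega))
      _ = ((53 / 100) ^ 2) ^ (R + 1 - 4) := by rw [Finset.prod_const, Nat.card_Ico]
      _ ≤ ((53 / 100) ^ 2) ^ (R - 9) := pow_le_pow_of_le_one D0 D1 (by omega)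

/-- AM-GM for four nonnegative numbers -/
lemma amgm4 {x y z w : ℝ} (_hx : 0 ≤ x) (_hy : 0 ≤ y) (_hz : 0 ≤ z) (_hw : 0 ≤ w) :
    x * y * z * w ≤ (x ^ 4 + y ^ 4 + z ^ 4 + w ^ 4) / 4 := by
  nlinarith [sq_nonneg (x * y - z * w), sq_nonneg (x ^ 2 - y ^ 2), sq_nonneg (z ^ 2 - w ^ 2)]

/-- fourth power of a low row is dominated by `prodv`. -/
lemma Rw_four_le {τ : ℝ} (hτ : 0 < τ) {M A b : ℕ} {X : ℝ} (hτX : τ * X ≤ 1 / 100) (hAM : A ≤ M)
    (hs : ∀ a < A, (3:ℝ) ^ a * 4 ^ b ≤ X) (θ : ℝ) :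
    Rw τ M θ b ^ 4 ≤ prodv (1 / 40000) A (4 ^ b * θ) := by
  have h1 := Rw_sq_le_prod hτ.le hAM θ b
  have h2 : Rw τ M θ b ^ 4 = (Rw τ M θ b ^ 2) ^ 2 := by ring
  rw [h2]
  refine (pow_le_pow_left₀ (sq_nonneg _) h1 2).trans ?_
  unfold prodv
  rw [← Finset.prod_pow]
  apply Finset.prod_le_prod
  · intro a _; positivity
  · intro a ha
    unfold vv
    apply pow_le_pow_left₀ (by positivity)
    have h3 := norm_phi_sq_le_eta hτ hτX (el a b) (by rw [el_cast]; exact hs a (by simpa using ha)) θ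
    have e : ((el a b : ℕ) : ℝ) * θ = 3 ^ a * (4 ^ b * θ) := by rw [el_cast]; ring
    rw [e] at h3
    exact h3

noncomputable def HH (A : ℕ) (θ : ℝ) : ℝ :=
  (∑ b ∈ B0, prodv (1 / 40000) A (4 ^ b * θ) + ∑ b ∈ B1, prodv (1 / 40000) A (4 ^ b * θ)) / 4

lemma prodv_nonneg (η : ℝ) (A : ℕ) (x : ℝ) : 0 ≤ prodv η A x :=
  Finset.prod_nonneg (fun _ _ => vv_nonneg _ _)

lemma prod_B_le {τ : ℝ} (hτ : 0 < τ) {M A : ℕ} {X : ℝ} (hτX : τ * X ≤ 1 / 100) (hAM : A ≤ M)
    (hs : ∀ a < A, (3:ℝ) ^ a * 4 ^ 9 ≤ X) (θ : ℝ) {B : Finset ℕ} (hB : B = B0 ∨ B = B1) :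
    ∏ b ∈ B, Rw τ M θ b ≤ HH A θ := by
  have hs' : ∀ b ≤ 9, ∀ a < A, (3:ℝ) ^ a * 4 ^ b ≤ X := by
    intro b hb a ha
    refine le_trans ?_ (hs a ha)
    apply mul_le_mul_of_nonneg_left _ (by positivity)
    exact pow_le_pow_right₀ (by norm_num) hb
  have hn : ∀ b, 0 ≤ Rw τ M θ b := fun b => Rw_nonneg _ _ _ _
  have h4 : ∀ b ≤ 9, Rw τ M θ b ^ 4 ≤ prodv (1 / 40000) A (4 ^ b * θ) :=
    fun b hb => Rw_four_le hτ hτX hAM (hs' b hb) θ
  have hp : ∀ b, 0 ≤ prodv (1 / 40000) A (4 ^ b * θ) := fun b => prodv_nonneg _ _ _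
  rcases hB with rfl | rfl
  · have e : ∏ b ∈ B0, Rw τ M θ b = Rw τ M θ 0 * Rw τ M θ 1 * Rw τ M θ 2 * Rw τ M θ 3 := by
      simp [B0]; ring
    rw [e]
    refine (amgm4 (hn 0) (hn 1) (hn 2) (hn 3)).trans ?_
    unfold HH
    apply div_le_div_of_nonneg_right _ (by norm_num)
    have e0 : ∑ b ∈ B0, prodv (1 / 40000) A (4 ^ b * θ) = prodv (1 / 40000) A (4 ^ 0 * θ)
        + prodv (1 / 40000) A (4 ^ 1 * θ) + prodv (1 / 40000) A (4 ^ 2 * θ)
        + prodv (1 / 40000) A (4 ^ 3 * θ) := by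
      unfold B0
      rw [Finset.sum_insert (by simp), Finset.sum_insert (by simp), Finset.sum_insert (by simp),
        Finset.sum_singleton]
      ring
    have e1 : 0 ≤ ∑ b ∈ B1, prodv (1 / 40000) A (4 ^ b * θ) := Finset.sum_nonneg (fun b _ => hp b)
    rw [e0]
    have := h4 0 (by norm_num)
    have := h4 1 (by norm_num)
    have := h4 2 (by norm_num)
    have := h4 3 (by norm_num)
    linarith
  · have e : ∏ b ∈ B1, Rw τ M θ b = Rw τ M θ 6 * Rw τ M θ 7 * Rw τ M θ 8 * Rw τ M θ 9 := by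
      simp [B1]; ring
    rw [e]
    refine (amgm4 (hn 6) (hn 7) (hn 8) (hn 9)).trans ?_
    unfold HH
    apply div_le_div_of_nonneg_right _ (by norm_num)
    have e0 : ∑ b ∈ B1, prodv (1 / 40000) A (4 ^ b * θ) = prodv (1 / 40000) A (4 ^ 6 * θ)
        + prodv (1 / 40000) A (4 ^ 7 * θ) + prodv (1 / 40000) A (4 ^ 8 * θ)
        + prodv (1 / 40000) A (4 ^ 9 * θ) := by
      unfold B1
      rw [Finset.sum_insert (by simp), Finset.sum_insert (by simp), Finset.sum_insert (by simp),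
        Finset.sum_singleton]
      ring
    have e1 : 0 ≤ ∑ b ∈ B0, prodv (1 / 40000) A (4 ^ b * θ) := Finset.sum_nonneg (fun b _ => hp b)
    rw [e0]
    have := h4 6 (by norm_num)
    have := h4 7 (by norm_num)
    have := h4 8 (by norm_num)
    have := h4 9 (by norm_num)
    linarith

lemma HH_cont (A : ℕ) : Continuous (HH A) := by
  unfold HH
  apply Continuous.div_const
  apply Continuous.add
  · apply continuous_finsetSum
    intro b _
    exact (prodv_cont _ _).comp (by fun_prop)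
  · apply continuous_finsetSum
    intro b _
    exact (prodv_cont _ _).comp (by fun_prop)

lemma HH_nonneg (A : ℕ) (θ : ℝ) : 0 ≤ HH A θ := by
  unfold HH
  have h0 : 0 ≤ ∑ b ∈ B0, prodv (1 / 40000) A (4 ^ b * θ) :=
    Finset.sum_nonneg (fun b _ => prodv_nonneg _ _ _)
  have h1 : 0 ≤ ∑ b ∈ B1, prodv (1 / 40000) A (4 ^ b * θ) :=
    Finset.sum_nonneg (fun b _ => prodv_nonneg _ _ _)
  linarith

lemma integral_HH (A : ℕ) : ∫ θ in (0:ℝ)..1, HH A θ = 2 * (3 / 8 + 1 / 40000 + (1 / 40000) ^ 2) ^ A := by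
  have hI : ∀ b : ℕ, ∫ θ in (0:ℝ)..1, prodv (1 / 40000) A (4 ^ b * θ)
      = (3 / 8 + 1 / 40000 + (1 / 40000) ^ 2) ^ A := by
    intro b
    have := integral_prodv_mul (1 / 40000) A (4 ^ b) (by positivity)
    push_cast at this
    exact this
  have hc : ∀ b : ℕ, IntervalIntegrable (fun θ => prodv (1 / 40000) A (4 ^ b * θ)) volume 0 1 := by
    intro b
    exact ((prodv_cont _ _).comp (by fun_prop)).intervalIntegrable _ _
  unfold HH
  rw [intervalIntegral.integral_div, intervalIntegral.integral_add,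
    intervalIntegral.integral_finsetSum, intervalIntegral.integral_finsetSum]
  · simp_rw [hI]
    simp only [Finset.sum_const]
    have c0 : B0.card = 4 := by decide
    have c1 : B1.card = 4 := by decide
    rw [c0, c1]
    simp only [nsmul_eq_mul]
    push_cast
    ring
  · intro b _; exact hc b
  · intro b _; exact hc b
  · apply Continuous.intervalIntegrable
    apply continuous_finsetSum
    intro b _
    exact (prodv_cont _ _).comp (by fun_prop)
  · apply Continuous.intervalIntegrable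
    apply continuous_finsetSum
    intro b _
    exact (prodv_cont _ _).comp (by fun_prop)

/-- the minor arc pointwise bound -/
lemma norm_PP_minor {τ : ℝ} (hτ : 0 < τ) {R M A : ℕ} (hR : 20 ≤ R) {X : ℝ} (hX : X = 4 ^ (R + 6))
    (hτX : τ * X ≤ 1 / 100) (hM : X < 3 ^ M) (hAM : A ≤ M)
    (hs : ∀ a < A, (3:ℝ) ^ a * 4 ^ 9 ≤ X) {θ : ℝ} (h0 : ¬ Near X θ 0)
    (h1 : ∀ m : ℤ, Odd m → ¬ |4 ^ 1 * θ - m| < 5 * 4 ^ 1 / X) :
    ‖PP τ M θ‖ ≤ (53 / 100) ^ (R - 9) * HH A θ := by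
  obtain ⟨B, hB, hprod⟩ := rest_bound hτ hR hX hτX hM h0 h1
  have hRM : R + 6 < M := four_pow_lt (by rw [← hX]; exact hM)
  have hBsub : B ⊆ range M := by
    intro x hx
    simp only [Finset.mem_range]
    rcases hB with rfl | rfl
    · simp only [B0, Finset.mem_insert, Finset.mem_singleton] at hx; omega
    · simp only [B1, Finset.mem_insert, Finset.mem_singleton] at hx; omega
  rw [norm_PP, ← Finset.prod_sdiff hBsub]
  have h2 : ∏ b ∈ range M \ B, Rw τ M θ b ≤ (53 / 100) ^ (R - 9) := by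
    have h3 : (∏ b ∈ range M \ B, Rw τ M θ b) ^ 2 ≤ ((53 / 100) ^ (R - 9)) ^ 2 := by
      rw [← Finset.prod_pow, ← pow_mul, mul_comm (R - 9) 2, pow_mul]
      exact hprod
    exact le_of_sq_le_sq h3 (by positivity)
  have h4 := prod_B_le hτ hτX hAM hs θ hB
  apply mul_le_mul h2 h4 (Finset.prod_nonneg (fun _ _ => Rw_nonneg _ _ _ _)) (by positivity)

end Pool.Agent.Lib.MP_a28f5d_nt
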