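import Mathlib
import Pool.Agent.Lib.MP_a28f5d_nt.Minor

namespace Pool.Agent.Lib.MP_a28f5d_nt

open Real Finset MeasureTheory

lemma norm_PP4 (τ : ℝ) (M : ℕ) (θ : ℝ) : ‖PP4 τ M θ‖ = ∏ b ∈ Finset.Ico 1 M, Rw τ M θ b := by
  unfold PP4 Rw idx4
  rw [norm_prod, Finset.prod_product_right]

lemma norm_PP4_sq_le {τ : ℝ} (hτ : 0 ≤ τ) {M N : ℕ} (hN : N < M) (θ : ℝ) :
    ‖PP4 τ M θ‖ ^ 2 ≤ ∏ b ∈ Finset.Ico 1 (N + 1), qq τ M θ b := by
  rw [norm_PP4, ← Finset.prod_pow]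
  exact prod_qq_le_of_subset hτ M θ (Finset.Ico_subset_Ico_right (by omega))

lemma norm_PP4_le_one {τ : ℝ} (hτ : 0 ≤ τ) (M : ℕ) (θ : ℝ) : ‖PP4 τ M θ‖ ≤ 1 := by
  rw [norm_PP4]
  exact Finset.prod_le_one (fun _ _ => Rw_nonneg _ _ _ _) (fun _ _ => Rw_le_one hτ _ _ _)

lemma qq_le_phi {τ : ℝ} (hτ : 0 ≤ τ) {M a : ℕ} (ha : a < M) (θ : ℝ) (b : ℕ) :
    qq τ M θ b ≤ ‖phi τ (el a b) θ‖ ^ 2 := by
  unfold qq
  have h := Rw_le_prod hτ M θ b (s := {a}) (by simpa using ha)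
  rw [Finset.prod_singleton] at h
  exact pow_le_pow_left₀ (Rw_nonneg _ _ _ _) h 2

lemma sin_sq_ge {x : ℝ} (hx : |x| ≤ 1 / 2) : 4 * x ^ 2 ≤ Real.sin (π * x) ^ 2 := by
  have hpi := Real.pi_pos
  have h1 : 2 / π * (π * |x|) ≤ Real.sin (π * |x|) :=
    Real.mul_le_sin (by positivity) (by nlinarith)
  have h2 : 2 / π * (π * |x|) = 2 * |x| := by field_simp
  rw [h2] at h1
  have h3 : Real.sin (π * x) ^ 2 = Real.sin (π * |x|) ^ 2 := by
    rcases abs_cases x with ⟨h, _⟩ | ⟨h, _⟩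
    · rw [h]
    · rw [h, mul_neg, Real.sin_neg, neg_sq]
  rw [h3, ← sq_abs x]
  calc 4 * |x| ^ 2 = (2 * |x|) ^ 2 := by ring
    _ ≤ Real.sin (π * |x|) ^ 2 := pow_le_pow_left₀ (by positivity) h1 2

/-- Gaussian decay in the central range. -/
lemma PP4_gauss {τ : ℝ} (hτ : 0 < τ) {M N : ℕ} (hM : 1 / τ < 3 ^ M) (hN : (4:ℝ) ^ N ≤ 1 / (2 * τ))
    {θ : ℝ} (hθ : |θ| ≤ τ) : ‖PP4 τ M θ‖ ^ 2 ≤ Real.exp (-(N * (θ / τ) ^ 2 / 10)) := by
  set Y := 1 / (2 * τ) with hY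
  have hYpos : 0 < Y := by positivity
  have hYM : Y < 3 ^ M := by
    refine lt_of_le_of_lt ?_ hM
    rw [hY]
    apply one_div_le_one_div_of_le hτ
    linarith
  have hNM : N < M := by
    have : (3:ℝ) ^ N < 3 ^ M := lt_of_le_of_lt
      ((pow_le_pow_left₀ (by norm_num) (by norm_num : (3:ℝ) ≤ 4) N).trans hN) hYM
    exact (pow_lt_pow_iff_right₀ (by norm_num : (1:ℝ) < 3)).mp this
  refine (norm_PP4_sq_le hτ.le hNM θ).trans ?_
  have hrow : ∀ b ∈ Finset.Ico 1 (N + 1), qq τ M θ b ≤ Real.exp (-((θ / τ) ^ 2 / 10)) := by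
    intro b hb
    simp only [Finset.mem_Ico] at hb
    have h4b : (4:ℝ) ^ b ≤ Y := (pow_le_pow_right₀ (by norm_num) (by omega)).trans hN
    obtain ⟨a, ha1, ha2⟩ := exists_el b h4b
    have haM : a < M := by
      have : (3:ℝ) ^ a < 3 ^ M := by
        refine lt_of_le_of_lt ?_ hYM
        refine le_trans ?_ ha2
        rw [el_cast]
        have : (1:ℝ) ≤ 4 ^ b := one_le_pow₀ (by norm_num)
        have h3 : (0:ℝ) < 3 ^ a := by positivity
        nlinarith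
      exact (pow_lt_pow_iff_right₀ (by norm_num : (1:ℝ) < 3)).mp this
    refine (qq_le_phi hτ.le haM θ b).trans ?_
    set s := (el a b : ℝ) with hs
    have hs0 : 0 < s := by rw [hs]; exact_mod_cast el_pos a b
    have hτs : τ * s ≤ 1 / 2 := by
      have : τ * Y = 1 / 2 := by rw [hY]; field_simp
      nlinarith
    refine (norm_phi_sq_le' hτ.le _ _ hτs).trans ?_
    have hsθ : |s * θ| ≤ 1 / 2 := by
      rw [abs_mul, abs_of_pos hs0]
      nlinarith [abs_nonneg θ]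
    have h5 := sin_sq_ge hsθ
    have h6 : (θ / τ) ^ 2 / 9 ≤ 4 * (s * θ) ^ 2 := by
      have h7 : 1 / (6 * τ) ≤ s := by
        have : Y / 3 = 1 / (6 * τ) := by rw [hY]; field_simp; norm_num
        rw [← this]; exact ha1.le
      have h8 : (1 / (6 * τ)) ^ 2 ≤ s ^ 2 := pow_le_pow_left₀ (by positivity) h7 2
      have h9 : (θ / τ) ^ 2 / 9 = 4 * ((1 / (6 * τ)) ^ 2 * θ ^ 2) := by field_simp; ring
      rw [h9, mul_pow]
      have := mul_le_mul_of_nonneg_right h8 (sq_nonneg θ)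
      linarith
    have h10 := Real.add_one_le_exp (-((θ / τ) ^ 2 / 10))
    have h11 : 0 ≤ (θ / τ) ^ 2 := sq_nonneg _
    linarith
  calc ∏ b ∈ Finset.Ico 1 (N + 1), qq τ M θ b
      ≤ ∏ b ∈ Finset.Ico 1 (N + 1), Real.exp (-((θ / τ) ^ 2 / 10)) :=
        Finset.prod_le_prod (fun _ _ => qq_nonneg _ _ _ _) hrow
    _ = Real.exp (-(N * (θ / τ) ^ 2 / 10)) := by
        rw [Finset.prod_const, Nat.card_Ico, ← Real.exp_nat_mul]
        congr 1
        simp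
        ring

/-- power decay in the intermediate range. -/
lemma PP4_inter {τ : ℝ} (hτ : 0 < τ) {M N : ℕ} (hM : 1 / τ < 3 ^ M)
    {θ : ℝ} (hθ1 : τ ≤ |θ|) (hθ2 : (4:ℝ) ^ N * |θ| ≤ 1 / 8) : ‖PP4 τ M θ‖ ^ 2 ≤ (87 / 100) ^ N := by
  have hθ0 : 0 < |θ| := lt_of_lt_of_le hτ hθ1
  set Y := 3 / (8 * |θ|) with hY
  have hYpos : 0 < Y := by positivity
  have hYM : Y < 3 ^ M := by
    refine lt_of_le_of_lt ?_ hM
    rw [hY, div_le_div_iff₀ (by positivity) hτ]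
    linarith
  have hNY : (4:ℝ) ^ N ≤ Y := by
    rw [hY, le_div_iff₀ (by positivity)]; linarith
  have hNM : N < M := by
    have : (3:ℝ) ^ N < 3 ^ M := lt_of_le_of_lt
      ((pow_le_pow_left₀ (by norm_num) (by norm_num : (3:ℝ) ≤ 4) N).trans hNY) hYM
    exact (pow_lt_pow_iff_right₀ (by norm_num : (1:ℝ) < 3)).mp this
  refine (norm_PP4_sq_le hτ.le hNM θ).trans ?_
  have hrow : ∀ b ∈ Finset.Ico 1 (N + 1), qq τ M θ b ≤ 87 / 100 := by
    intro b hb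
    simp only [Finset.mem_Ico] at hb
    have h4b : (4:ℝ) ^ b ≤ Y := (pow_le_pow_right₀ (by norm_num) (by omega)).trans hNY
    obtain ⟨a, ha1, ha2⟩ := exists_el b h4b
    have haM : a < M := by
      have : (3:ℝ) ^ a < 3 ^ M := by
        refine lt_of_le_of_lt ?_ hYM
        refine le_trans ?_ ha2
        rw [el_cast]
        have : (1:ℝ) ≤ 4 ^ b := one_le_pow₀ (by norm_num)
        have h3 : (0:ℝ) < 3 ^ a := by positivity
        nlinarith
      exact (pow_lt_pow_iff_right₀ (by norm_num : (1:ℝ) < 3)).mp this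
    refine (qq_le_phi hτ.le haM θ b).trans ?_
    set s := (el a b : ℝ) with hs
    have hs0 : 0 < s := by rw [hs]; exact_mod_cast el_pos a b
    have hsθ2 : s * |θ| ≤ 3 / 8 := by
      have : Y * |θ| = 3 / 8 := by rw [hY]; field_simp
      nlinarith
    have hsθ1 : 1 / 8 ≤ s * |θ| := by
      have : Y / 3 * |θ| = 1 / 8 := by rw [hY]; field_simp
      nlinarith
    have hτs : τ * s ≤ 1 / 2 := by nlinarith
    refine (norm_phi_sq_le' hτ.le _ _ hτs).trans ?_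
    have hsin : (14:ℝ) / 100 ≤ Real.sin (π * (s * θ)) ^ 2 := by
      have e1 : Real.sin (π * (s * θ)) ^ 2 = Real.sin (π * (s * |θ|)) ^ 2 := by
        rcases abs_cases θ with ⟨h, _⟩ | ⟨h, _⟩
        · rw [h]
        · rw [h]
          have : π * (s * -θ) = -(π * (s * θ)) := by ring
          rw [this, Real.sin_neg, neg_sq]
      have e2 : Real.sin (π * (s * |θ|)) ^ 2 = 1 / 2 - Real.cos (2 * (π * (s * |θ|))) / 2 := by
        rw [Real.sin_sq_eq_half_sub]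
      have e3 : Real.cos (2 * (π * (s * |θ|))) ≤ Real.cos (π / 4) := by
        apply Real.cos_le_cos_of_nonneg_of_le_pi (by positivity)
        · nlinarith [Real.pi_pos]
        · nlinarith [Real.pi_pos]
      have e4 : Real.cos (π / 4) ≤ 72 / 100 := by
        rw [Real.cos_pi_div_four]
        have : Real.sqrt 2 ≤ 1.44 := by
          apply Real.sqrt_le_iff.mpr
          constructor <;> norm_num
        linarith
      rw [e1, e2]
      linarith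
    linarith
  calc ∏ b ∈ Finset.Ico 1 (N + 1), qq τ M θ b
      ≤ ∏ b ∈ Finset.Ico 1 (N + 1), (87 / 100 : ℝ) :=
        Finset.prod_le_prod (fun _ _ => qq_nonneg _ _ _ _) hrow
    _ = (87 / 100) ^ N := by
        rw [Finset.prod_const, Nat.card_Ico]
        simp

lemma norm_VV (τ : ℝ) (M : ℕ) (θ : ℝ) : ‖VV τ M θ‖ = Rw τ M (1 / 4 + θ) 0 := by
  unfold VV Rw
  rw [norm_prod]
  apply Finset.prod_congr rfl
  intro a _
  simp [el]

/-- decay of the three-power part near the quarter -/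
lemma VV_inter {τ : ℝ} (hτ : 0 < τ) {R M K : ℕ} {X : ℝ} (hX : X = 4 ^ (R + 6))
    (hτX : τ * X ≤ 1 / 100) (hR : 1 ≤ R) (hK : K ≤ M) {θ : ℝ} (hθ : |θ| < 5 / X)
    (hs : ∀ a < K, (3:ℝ) ^ a ≤ 4 ^ (R - 1)) : ‖VV τ M θ‖ ^ 2 ≤ (51 / 100) ^ K := by
  rw [norm_VV]
  apply row_quarter hτ hX hτX hR hK (m := 1) (by decide)
  · have : (4:ℝ) ^ (0 + 1) * (1 / 4 + θ) - ((1 : ℤ) : ℝ) = 4 * θ := by push_cast; ring
    rw [this, abs_mul, abs_of_pos (by norm_num : (0:ℝ) < 4)]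
    have e : 5 * (4:ℝ) ^ (0 + 1) / X = 4 * (5 / X) := by ring
    rw [e]
    linarith
  · intro a ha
    simpa using hs a ha

end Pool.Agent.Lib.MP_a28f5d_nt
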