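import Mathlib
import Pool.Agent.Lib.MP_a28f5d_nt.Decay

namespace Pool.Agent.Lib.MP_a28f5d_nt

open Real Finset MeasureTheory

noncomputable def WW (τ : ℝ) (M : ℕ) (θ : ℝ) : ℂ :=
  VV τ M θ * (ee (-θ) - (rho τ 1 : ℂ) * Complex.I)

lemma ee_one_quarter : ee (1 / 4) = Complex.I := by
  have := ee_three_pow 0
  simpa using this

lemma gg_quarter (τ : ℝ) {M : ℕ} (hM : 0 < M) (n : ℕ) (θ : ℝ) :
    gg τ M n (1 / 4 + θ) =
      ee (-(((n + 1 : ℕ) : ℝ) / 4)) * (PP4 τ M θ * ee (-(n * θ)) * WW τ M θ) := by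
  unfold gg WW
  rw [PP_quarter τ hM]
  have e1 : ee (-((n + 1 : ℕ) * (1 / 4 + θ))) = ee (-(((n + 1 : ℕ) : ℝ) / 4)) * ee (-(n * θ)) * ee (-θ) := by
    rw [← ee_add, ← ee_add]; congr 1; push_cast; ring
  have e2 : ee (1 / 4 + θ) = Complex.I * ee θ := by
    rw [ee_add, ee_one_quarter]
  have e3 : ee (-θ) * ee θ = 1 := by
    rw [← ee_add]; simp [ee_zero]
  rw [e1, e2]
  have e4 : ee (-θ) * (1 - (rho τ 1 : ℂ) * (Complex.I * ee θ)) = ee (-θ) - (rho τ 1 : ℂ) * Complex.I := by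
    have : ee (-θ) * (1 - (rho τ 1 : ℂ) * (Complex.I * ee θ))
        = ee (-θ) - (rho τ 1 : ℂ) * Complex.I * (ee (-θ) * ee θ) := by ring
    rw [this, e3, mul_one]
  rw [← e4]
  ring

lemma VV_cont (τ : ℝ) (M : ℕ) : Continuous (VV τ M) := by
  unfold VV
  apply continuous_finsetProd
  intro a _
  exact (phi_cont _ _).comp (by fun_prop)

lemma PP4_cont (τ : ℝ) (M : ℕ) : Continuous (PP4 τ M) := by
  unfold PP4
  apply continuous_finsetProd
  intro a _
  exact phi_cont _ _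

lemma WW_cont (τ : ℝ) (M : ℕ) : Continuous (WW τ M) := by
  unfold WW
  apply (VV_cont τ M).mul
  exact (ee_cont.comp (by fun_prop)).sub continuous_const

lemma norm_EE_le {τ : ℝ} (hτ : 0 ≤ τ) (θ : ℝ) : ‖ee (-θ) - (rho τ 1 : ℂ) * Complex.I‖ ≤ 2 := by
  refine (norm_sub_le _ _).trans ?_
  rw [norm_ee, norm_mul, Complex.norm_I, mul_one, Complex.norm_real, Real.norm_eq_abs,
    abs_of_pos (rho_pos _ _)]
  have := rho_le_one hτ 1
  linarith

lemma norm_WW_le {τ : ℝ} (hτ : 0 ≤ τ) (M : ℕ) (θ : ℝ) : ‖WW τ M θ‖ ≤ 2 * ‖VV τ M θ‖ := by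
  unfold WW
  rw [norm_mul, mul_comm]
  exact mul_le_mul_of_nonneg_right (norm_EE_le hτ θ) (norm_nonneg _)

lemma WW_sub_le {τ : ℝ} (hτ : 0 < τ) (hτ1 : τ ≤ 1) (M : ℕ) {θ : ℝ} (hθ : 192 * π * |θ| / τ ≤ 1) :
    ‖WW τ M θ - WW τ M 0‖ ≤ ‖VV τ M 0‖ * (800 * π * |θ| / τ) := by
  have h1 : WW τ M θ - WW τ M 0 = (VV τ M θ - VV τ M 0) * (ee (-θ) - (rho τ 1 : ℂ) * Complex.I)
      + VV τ M 0 * (ee (-θ) - 1) := by
    unfold WW
    rw [neg_zero, ee_zero]
    ring
  rw [h1]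
  refine (norm_add_le _ _).trans ?_
  rw [norm_mul, norm_mul]
  have h2 := VV_sub_le hτ M θ
  set x := 192 * π * |θ| / τ with hx
  have hx0 : 0 ≤ x := by rw [hx]; positivity
  have h3 : Real.exp x - 1 ≤ 2 * x := by
    have h4 : Real.exp x ≤ 1 + x + x ^ 2 := by
      have := Real.abs_exp_sub_one_sub_id_le (x := x) (by rw [abs_of_nonneg hx0]; exact hθ)
      have := le_abs_self (Real.exp x - 1 - x)
      linarith
    nlinarith
  have h5 := norm_EE_le hτ.le θ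
  have h6 : ‖ee (-θ) - 1‖ ≤ 2 * π * |θ| := by
    have := norm_ee_sub_one_le (-θ)
    rwa [abs_neg] at this
  have h7 : ‖VV τ M θ - VV τ M 0‖ ≤ ‖VV τ M 0‖ * (2 * x) :=
    h2.trans (mul_le_mul_of_nonneg_left h3 (norm_nonneg _))
  have hv := norm_nonneg (VV τ M 0)
  have h8 : ‖VV τ M θ - VV τ M 0‖ * ‖ee (-θ) - (rho τ 1 : ℂ) * Complex.I‖
      ≤ ‖VV τ M 0‖ * (2 * x) * 2 :=
    mul_le_mul h7 h5 (norm_nonneg _) (by positivity)
  have h9 : ‖VV τ M 0‖ * ‖ee (-θ) - 1‖ ≤ ‖VV τ M 0‖ * (2 * π * |θ|) :=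
    mul_le_mul_of_nonneg_left h6 hv
  have h10 : 2 * π * |θ| ≤ 32 * π * |θ| / τ := by
    rw [le_div_iff₀ hτ]
    have : 0 ≤ π * |θ| := by positivity
    nlinarith
  have h11 : 800 * π * |θ| / τ = 4 * x + 32 * π * |θ| / τ := by rw [hx]; ring
  rw [h11]
  nlinarith [mul_le_mul_of_nonneg_left h10 hv]

/-- the Gaussian -/
noncomputable def GG (τ : ℝ) (M : ℕ) (θ : ℝ) : ℝ := Real.exp (-(2 * π ^ 2 * sig2 τ M * θ ^ 2))

lemma GG_cont (τ : ℝ) (M : ℕ) : Continuous (GG τ M) := by unfold GG; fun_prop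

lemma GG_nonneg (τ : ℝ) (M : ℕ) (θ : ℝ) : 0 ≤ GG τ M θ := (Real.exp_pos _).le

noncomputable def FF (τ : ℝ) (M n : ℕ) (θ : ℝ) : ℂ := PP4 τ M θ * ee (-(n * θ)) * WW τ M θ

lemma FF_cont (τ : ℝ) (M n : ℕ) : Continuous (FF τ M n) := by
  unfold FF
  exact ((PP4_cont τ M).mul (ee_cont.comp (by fun_prop))).mul (WW_cont τ M)

lemma norm_FF (τ : ℝ) (M n : ℕ) (θ : ℝ) : ‖FF τ M n θ‖ = ‖PP4 τ M θ‖ * ‖WW τ M θ‖ := by
  unfold FF
  rw [norm_mul, norm_mul, norm_ee, mul_one]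

lemma integral_inv_sq_le {c a b : ℝ} (hc : 0 ≤ c) (ha : 0 < a) (hab : a ≤ b) :
    ∫ x in a..b, c / x ^ 2 ≤ c / a := by
  have h : ∫ x in a..b, c / x ^ 2 = (-(c / b)) - (-(c / a)) := by
    apply intervalIntegral.integral_eq_sub_of_hasDerivAt
    · intro x hx
      rw [Set.uIcc_of_le hab] at hx
      have hx0 : x ≠ 0 := by linarith [hx.1]
      have h1 := ((hasDerivAt_const x c).div (hasDerivAt_id x) hx0).neg
      have e : -((0 * id x - c * 1) / id x ^ 2) = c / x ^ 2 := by simp; ring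
      rw [e] at h1
      exact h1
    · apply ContinuousOn.intervalIntegrable
      apply ContinuousOn.div continuousOn_const (by fun_prop)
      intro x hx
      rw [Set.uIcc_of_le hab] at hx
      have : 0 < x := lt_of_lt_of_le ha hx.1
      positivity
  rw [h]
  have hb : 0 < b := lt_of_lt_of_le ha hab
  have : 0 ≤ c / b := by positivity
  linarith

/-- norm of `FF` in the central tail range -/
lemma norm_FF_tail {τ : ℝ} (hτ : 0 < τ) {M N : ℕ} (hM : 1 / τ < 3 ^ M)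
    (hN : (4:ℝ) ^ N ≤ 1 / (2 * τ)) (hN0 : 1 ≤ N) (n : ℕ) {θ : ℝ} (hθ0 : θ ≠ 0) (hθ : |θ| ≤ τ) :
    ‖FF τ M n θ‖ ≤ (40 * Real.exp (192 * π) * ‖VV τ M 0‖ * τ ^ 2 / N) / θ ^ 2 := by
  rw [norm_FF]
  have h1 := PP4_gauss hτ hM hN hθ
  have hNr : (0:ℝ) < N := by exact_mod_cast hN0
  set x := N * (θ / τ) ^ 2 / 20 with hx
  have hx0 : 0 < x := by rw [hx]; positivity
  have h2 : ‖PP4 τ M θ‖ ≤ Real.exp (-x) := by
    have h3 : ‖PP4 τ M θ‖ ^ 2 ≤ Real.exp (-x) ^ 2 := by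
      refine h1.trans (le_of_eq ?_)
      rw [← Real.exp_nat_mul]
      congr 1
      rw [hx]; push_cast; ring
    exact le_of_sq_le_sq h3 (Real.exp_pos _).le
  have h4 : Real.exp (-x) ≤ 1 / x := by
    rw [Real.exp_neg, ← one_div]
    apply one_div_le_one_div_of_le hx0
    have := Real.add_one_le_exp x
    linarith
  have h5 : ‖WW τ M θ‖ ≤ 2 * (‖VV τ M 0‖ * Real.exp (192 * π)) := by
    refine (norm_WW_le hτ.le M θ).trans ?_
    apply mul_le_mul_of_nonneg_left _ (by norm_num)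
    refine (VV_le hτ M θ).trans ?_
    apply mul_le_mul_of_nonneg_left _ (norm_nonneg _)
    apply Real.exp_le_exp.mpr
    rw [div_le_iff₀ hτ]
    exact mul_le_mul_of_nonneg_left hθ (by positivity)
  calc ‖PP4 τ M θ‖ * ‖WW τ M θ‖ ≤ (1 / x) * (2 * (‖VV τ M 0‖ * Real.exp (192 * π))) :=
        mul_le_mul (h2.trans h4) h5 (norm_nonneg _) (by positivity)
    _ = (40 * Real.exp (192 * π) * ‖VV τ M 0‖ * τ ^ 2 / N) / θ ^ 2 := by
        rw [hx]; field_simp; ring

theorem central {τ : ℝ} (hτ : 0 < τ) (hτ1 : τ ≤ 1) {M N K : ℕ} (hM : 1 / τ < 3 ^ M)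
    (hN : (4:ℝ) ^ N ≤ 1 / (2 * τ)) (hN0 : 1 ≤ N) (hK : 1 ≤ τ * 4 ^ K) (hKN : K + 2 ≤ 3 * N)
    {n : ℕ} (hn : (n : ℝ) = mu4 τ M) {h : ℝ} (hh : 1 ≤ h) (hsmall : 192 * π * h ≤ Real.sqrt N)
    {δ S : ℝ} (hδ : τ ≤ δ)
    (hS : ∀ θ, τ ≤ |θ| → |θ| ≤ δ → ‖PP4 τ M θ‖ * ‖VV τ M θ‖ ≤ S) :
    ‖(∫ θ in (-δ)..δ, FF τ M n θ) - WW τ M 0 * ((∫ θ in (-(h * τ / Real.sqrt N))..(h * τ / Real.sqrt N), GG τ M θ : ℝ) : ℂ)‖
      ≤ ‖VV τ M 0‖ * (τ / Real.sqrt N) *
          ((4608 * (2 * π) ^ 3 + 1600 * π) * h ^ 4 / Real.sqrt N + 80 * Real.exp (192 * π) / h)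
        + 4 * δ * S := by
  have hNr : (0:ℝ) < N := by exact_mod_cast hN0
  have hsN : 0 < Real.sqrt N := Real.sqrt_pos.mpr hNr
  have hsN2 : Real.sqrt N ^ 2 = N := Real.sq_sqrt hNr.le
  set v := ‖VV τ M 0‖ with hv
  have hv0 : 0 ≤ v := norm_nonneg _
  set t := h * τ / Real.sqrt N with ht
  have hh0 : 0 < h := by linarith
  have ht0 : 0 < t := by rw [ht]; positivity
  have hpi := Real.pi_pos
  have hpi3 := Real.pi_gt_three
  have hhN : h ≤ Real.sqrt N := by nlinarith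
  have htτ : t ≤ τ := by
    rw [ht, div_le_iff₀ hsN]
    nlinarith
  have htsmall : 192 * π * t / τ ≤ 1 := by
    have : 192 * π * t / τ = 192 * π * h / Real.sqrt N := by rw [ht]; field_simp
    rw [this, div_le_one hsN]
    exact hsmall
  have hFc := FF_cont τ M n
  have hFi : ∀ a b : ℝ, IntervalIntegrable (FF τ M n) volume a b := fun a b =>
    hFc.intervalIntegrable _ _
  -- splitting
  have hsplit : ∫ θ in (-δ)..δ, FF τ M n θ =
      (∫ θ in (-δ)..(-τ), FF τ M n θ) + (∫ θ in (-τ)..(-t), FF τ M n θ)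
        + (∫ θ in (-t)..t, FF τ M n θ) + (∫ θ in t..τ, FF τ M n θ) + (∫ θ in τ..δ, FF τ M n θ) := by
    rw [intervalIntegral.integral_add_adjacent_intervals (hFi _ _) (hFi _ _),
      intervalIntegral.integral_add_adjacent_intervals (hFi _ _) (hFi _ _),
      intervalIntegral.integral_add_adjacent_intervals (hFi _ _) (hFi _ _),
      intervalIntegral.integral_add_adjacent_intervals (hFi _ _) (hFi _ _)]
  -- outer parts
  have hS0 : ∀ θ, τ ≤ |θ| → |θ| ≤ δ → ‖FF τ M n θ‖ ≤ 2 * S := by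
    intro θ h1 h2
    rw [norm_FF]
    have h3 := norm_WW_le hτ.le M θ
    have h4 := hS θ h1 h2
    have h5 := norm_nonneg (PP4 τ M θ)
    nlinarith [mul_le_mul_of_nonneg_left h3 h5]
  have hSpos : 0 ≤ S := by
    have := hS τ (by rw [abs_of_pos hτ]) (by rw [abs_of_pos hτ]; exact hδ)
    exact le_trans (mul_nonneg (norm_nonneg _) (norm_nonneg _)) this
  have hO1 : ‖∫ θ in τ..δ, FF τ M n θ‖ ≤ 2 * δ * S := by
    have h1 : ‖∫ θ in τ..δ, FF τ M n θ‖ ≤ (2 * S) * |δ - τ| := by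
      apply intervalIntegral.norm_integral_le_of_norm_le_const
      intro θ hθ
      rw [Set.uIoc_of_le hδ] at hθ
      have h0 : 0 < θ := lt_trans hτ hθ.1
      exact hS0 θ (by rw [abs_of_pos h0]; exact hθ.1.le) (by rw [abs_of_pos h0]; exact hθ.2)
    rw [abs_of_nonneg (by linarith)] at h1
    nlinarith
  have hO2 : ‖∫ θ in (-δ)..(-τ), FF τ M n θ‖ ≤ 2 * δ * S := by
    have h1 : ‖∫ θ in (-δ)..(-τ), FF τ M n θ‖ ≤ (2 * S) * |(-τ) - (-δ)| := by
      apply intervalIntegral.norm_integral_le_of_norm_le_const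
      intro θ hθ
      rw [Set.uIoc_of_le (by linarith)] at hθ
      have h0 : θ < 0 := by linarith [hθ.2]
      exact hS0 θ (by rw [abs_of_neg h0]; linarith [hθ.2]) (by rw [abs_of_neg h0]; linarith [hθ.1])
    rw [abs_of_nonneg (by linarith)] at h1
    nlinarith
  -- tail parts
  set c := 40 * Real.exp (192 * π) * v * τ ^ 2 / N with hc
  have hc0 : 0 ≤ c := by rw [hc]; positivity
  have hct : c / t = v * (τ / Real.sqrt N) * (40 * Real.exp (192 * π) / h) := by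
    have hN2 : (N : ℝ) = Real.sqrt N * Real.sqrt N := by rw [← sq, hsN2]
    rw [hc, ht]
    generalize Real.sqrt (N:ℝ) = q at *
    rw [hN2]
    field_simp
  have hT1 : ‖∫ θ in t..τ, FF τ M n θ‖ ≤ c / t := by
    refine (intervalIntegral.norm_integral_le_of_norm_le htτ (g := fun x => c / x ^ 2) ?_ ?_).trans
      (integral_inv_sq_le hc0 ht0 htτ)
    · apply Filter.Eventually.of_forall
      intro θ hθ
      have h0 : 0 < θ := lt_trans ht0 hθ.1
      exact norm_FF_tail hτ hM hN hN0 n h0.ne' (by rw [abs_of_pos h0]; exact hθ.2)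
    · apply ContinuousOn.intervalIntegrable
      apply ContinuousOn.div continuousOn_const (by fun_prop)
      intro x hx
      rw [Set.uIcc_of_le htτ] at hx
      have : 0 < x := lt_of_lt_of_le ht0 hx.1
      positivity
  have hT2 : ‖∫ θ in (-τ)..(-t), FF τ M n θ‖ ≤ c / t := by
    have e : ∫ θ in (-τ)..(-t), FF τ M n θ = ∫ θ in t..τ, FF τ M n (-θ) := by
      rw [intervalIntegral.integral_comp_neg (fun θ => FF τ M n θ)]
    rw [e]
    refine (intervalIntegral.norm_integral_le_of_norm_le htτ (g := fun x => c / x ^ 2) ?_ ?_).trans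
      (integral_inv_sq_le hc0 ht0 htτ)
    · apply Filter.Eventually.of_forall
      intro θ hθ
      have h0 : 0 < θ := lt_trans ht0 hθ.1
      have := norm_FF_tail hτ hM hN hN0 n (θ := -θ) (neg_ne_zero.mpr h0.ne')
        (by rw [abs_neg, abs_of_pos h0]; exact hθ.2)
      rw [neg_sq] at this
      exact this
    · apply ContinuousOn.intervalIntegrable
      apply ContinuousOn.div continuousOn_const (by fun_prop)
      intro x hx
      rw [Set.uIcc_of_le htτ] at hx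
      have : 0 < x := lt_of_lt_of_le ht0 hx.1
      positivity
  -- centre
  have hKr : ((K:ℝ) + 2) ≤ 3 * N := by exact_mod_cast hKN
  have hC : ‖(∫ θ in (-t)..t, FF τ M n θ) - WW τ M 0 * ((∫ θ in (-t)..t, GG τ M θ : ℝ) : ℂ)‖
      ≤ v * (τ / Real.sqrt N) * ((4608 * (2 * π) ^ 3 + 1600 * π) * h ^ 4 / Real.sqrt N) := by
    have e1 : (∫ θ in (-t)..t, FF τ M n θ) - WW τ M 0 * ((∫ θ in (-t)..t, GG τ M θ : ℝ) : ℂ)
        = ∫ θ in (-t)..t, (FF τ M n θ - WW τ M 0 * (GG τ M θ : ℂ)) := by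
      have hGi : IntervalIntegrable (fun θ => WW τ M 0 * (GG τ M θ : ℂ)) volume (-t) t :=
        (continuous_const.mul (Complex.continuous_ofReal.comp (GG_cont τ M))).intervalIntegrable _ _
      rw [intervalIntegral.integral_sub (hFi _ _) hGi,
        intervalIntegral.integral_const_mul, intervalIntegral.integral_ofReal]
    rw [e1]
    have hpt : ∀ θ ∈ Set.uIoc (-t) t, ‖FF τ M n θ - WW τ M 0 * (GG τ M θ : ℂ)‖
        ≤ (2 * v) * (4 * (2 * π) ^ 3 * (96 * (3 * N)) * t ^ 3 / τ ^ 3) + v * (800 * π * t / τ) := by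
      intro θ hθ
      rw [Set.uIoc_of_le (by linarith)] at hθ
      have habs : |θ| ≤ t := abs_le.mpr ⟨hθ.1.le, hθ.2⟩
      have e2 : FF τ M n θ - WW τ M 0 * (GG τ M θ : ℂ)
          = (PP4 τ M θ * ee (-(n * θ)) - (GG τ M θ : ℂ)) * WW τ M 0
            + PP4 τ M θ * ee (-(n * θ)) * (WW τ M θ - WW τ M 0) := by
        unfold FF; ring
      rw [e2]
      refine (norm_add_le _ _).trans ?_
      rw [norm_mul, norm_mul, norm_mul, norm_ee, mul_one]
      have g1 := gauss_approx hτ K hK M θ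
      rw [← hn] at g1
      have g1' : ‖PP4 τ M θ * ee (-(n * θ)) - (GG τ M θ : ℂ)‖
          ≤ 4 * (2 * π) ^ 3 * (96 * (3 * N)) * t ^ 3 / τ ^ 3 := by
        refine g1.trans ?_
        apply div_le_div_of_nonneg_right _ (by positivity)
        apply mul_le_mul _ (pow_le_pow_left₀ (abs_nonneg _) habs 3) (by positivity) (by positivity)
        apply mul_le_mul_of_nonneg_left _ (by positivity)
        linarith
      have g2 : ‖WW τ M 0‖ ≤ 2 * v := norm_WW_le hτ.le M 0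
      have g3 := norm_PP4_le_one hτ.le M θ
      have hθs : 192 * π * |θ| / τ ≤ 1 := by
        refine le_trans ?_ htsmall
        apply div_le_div_of_nonneg_right _ hτ.le
        apply mul_le_mul_of_nonneg_left habs (by positivity)
      have g4 := WW_sub_le hτ hτ1 M hθs
      have g5 : ‖WW τ M θ - WW τ M 0‖ ≤ v * (800 * π * t / τ) := by
        refine g4.trans ?_
        apply mul_le_mul_of_nonneg_left _ hv0
        apply div_le_div_of_nonneg_right _ hτ.le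
        apply mul_le_mul_of_nonneg_left habs (by positivity)
      have g6 : ‖PP4 τ M θ * ee (-(n * θ)) - (GG τ M θ : ℂ)‖ * ‖WW τ M 0‖
          ≤ (4 * (2 * π) ^ 3 * (96 * (3 * N)) * t ^ 3 / τ ^ 3) * (2 * v) :=
        mul_le_mul g1' g2 (norm_nonneg _) (by positivity)
      have g7 : ‖PP4 τ M θ‖ * ‖WW τ M θ - WW τ M 0‖ ≤ v * (800 * π * t / τ) := by
        calc ‖PP4 τ M θ‖ * ‖WW τ M θ - WW τ M 0‖ ≤ 1 * ‖WW τ M θ - WW τ M 0‖ :=
              mul_le_mul_of_nonneg_right g3 (norm_nonneg _)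
          _ ≤ _ := by rw [one_mul]; exact g5
      linarith
    refine (intervalIntegral.norm_integral_le_of_norm_le_const hpt).trans ?_
    rw [abs_of_pos (by linarith : 0 < t - -t)]
    have e3 : ((2 * v) * (4 * (2 * π) ^ 3 * (96 * (3 * N)) * t ^ 3 / τ ^ 3) + v * (800 * π * t / τ)) * (t - -t)
        = v * (τ / Real.sqrt N) * ((4608 * (2 * π) ^ 3) * h ^ 4 / Real.sqrt N)
          + v * (τ / Real.sqrt N) * (1600 * π * h ^ 2 / Real.sqrt N) := by
      have hN2 : (N : ℝ) = Real.sqrt N * Real.sqrt N := by rw [← sq, hsN2]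
      rw [ht]
      set q := Real.sqrt N
      rw [hN2]
      field_simp
      ring
    rw [e3]
    have e4 : v * (τ / Real.sqrt N) * (1600 * π * h ^ 2 / Real.sqrt N)
        ≤ v * (τ / Real.sqrt N) * (1600 * π * h ^ 4 / Real.sqrt N) := by
      apply mul_le_mul_of_nonneg_left _ (by positivity)
      apply div_le_div_of_nonneg_right _ hsN.le
      apply mul_le_mul_of_nonneg_left _ (by positivity)
      exact pow_le_pow_right₀ hh (by norm_num)
    have e5 : v * (τ / Real.sqrt N) * ((4608 * (2 * π) ^ 3 + 1600 * π) * h ^ 4 / Real.sqrt N)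
        = v * (τ / Real.sqrt N) * ((4608 * (2 * π) ^ 3) * h ^ 4 / Real.sqrt N)
          + v * (τ / Real.sqrt N) * (1600 * π * h ^ 4 / Real.sqrt N) := by ring
    rw [e5]
    linarith
  rw [hsplit]
  have e6 : (∫ θ in (-δ)..(-τ), FF τ M n θ) + (∫ θ in (-τ)..(-t), FF τ M n θ)
        + (∫ θ in (-t)..t, FF τ M n θ) + (∫ θ in t..τ, FF τ M n θ) + (∫ θ in τ..δ, FF τ M n θ)
        - WW τ M 0 * ((∫ θ in (-t)..t, GG τ M θ : ℝ) : ℂ)
      = (∫ θ in (-δ)..(-τ), FF τ M n θ) + (∫ θ in (-τ)..(-t), FF τ M n θ)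
        + ((∫ θ in (-t)..t, FF τ M n θ) - WW τ M 0 * ((∫ θ in (-t)..t, GG τ M θ : ℝ) : ℂ))
        + (∫ θ in t..τ, FF τ M n θ) + (∫ θ in τ..δ, FF τ M n θ) := by ring
  rw [e6]
  refine (norm_add_le _ _).trans ?_
  refine (add_le_add_left (norm_add_le _ _) _).trans ?_
  refine (add_le_add_left (add_le_add_left (norm_add_le _ _) _) _).trans ?_
  refine (add_le_add_left (add_le_add_left (add_le_add_left (norm_add_le _ _) _) _) _).trans ?_
  rw [hct] at hT1 hT2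
  have e7 : v * (τ / Real.sqrt N) *
          ((4608 * (2 * π) ^ 3 + 1600 * π) * h ^ 4 / Real.sqrt N + 80 * Real.exp (192 * π) / h)
      = v * (τ / Real.sqrt N) * ((4608 * (2 * π) ^ 3 + 1600 * π) * h ^ 4 / Real.sqrt N)
        + 2 * (v * (τ / Real.sqrt N) * (40 * Real.exp (192 * π) / h)) := by ring
  rw [e7]
  linarith

/-- lower bound for the Gaussian integral -/
lemma GG_lower {τ : ℝ} (hτ : 0 < τ) {M N K : ℕ} (hN0 : 1 ≤ N) (hK : 1 ≤ τ * 4 ^ K)
    (hKN : K + 2 ≤ 3 * N) {h : ℝ} (hh : 1 ≤ h) :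
    (1 / 120) * (τ / Real.sqrt N) ≤ ∫ θ in (-(h * τ / Real.sqrt N))..(h * τ / Real.sqrt N), GG τ M θ := by
  have hNr : (0:ℝ) < N := by exact_mod_cast hN0
  have hsN : 0 < Real.sqrt N := Real.sqrt_pos.mpr hNr
  have hsN2 : Real.sqrt N ^ 2 = N := Real.sq_sqrt hNr.le
  set w := (1 / 120) * (τ / Real.sqrt N) with hw
  set t := h * τ / Real.sqrt N with ht
  have hw0 : 0 < w := by rw [hw]; positivity
  have hwt : w ≤ t := by
    have : t = h * (τ / Real.sqrt N) := by rw [ht]; ring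
    rw [this, hw]
    apply mul_le_mul_of_nonneg_right _ (by positivity)
    linarith
  have hKr : ((K:ℝ) + 2) ≤ 3 * N := by exact_mod_cast hKN
  have hsig := sig2_le hτ K hK M
  have hsig2 : sig2 τ M ≤ 288 * N / τ ^ 2 := by
    refine hsig.trans ?_
    apply div_le_div_of_nonneg_right _ (by positivity)
    linarith
  have hGi : ∀ a b : ℝ, IntervalIntegrable (GG τ M) volume a b := fun a b =>
    (GG_cont τ M).intervalIntegrable _ _
  have h1 : ∫ θ in (-w)..w, GG τ M θ ≤ ∫ θ in (-t)..t, GG τ M θ := by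
    apply intervalIntegral.integral_mono_interval (by linarith) (by linarith) hwt
    · apply Filter.Eventually.of_forall
      intro θ; exact GG_nonneg _ _ _
    · exact hGi _ _
  refine le_trans ?_ h1
  have h2 : ∀ θ ∈ Set.Icc (-w) w, (1:ℝ) / 2 ≤ GG τ M θ := by
    intro θ hθ
    have habs : |θ| ≤ w := abs_le.mpr ⟨hθ.1, hθ.2⟩
    have hθ2 : θ ^ 2 ≤ w ^ 2 := by rw [← sq_abs]; exact pow_le_pow_left₀ (abs_nonneg _) habs 2
    have hx : 2 * π ^ 2 * sig2 τ M * θ ^ 2 ≤ 1 / 2 := by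
      have hs0 := sig2_nonneg τ M
      have hpi2 : π ^ 2 ≤ 10 := by
        have := Real.pi_lt_d2
        have h0 := Real.pi_pos
        nlinarith
      calc 2 * π ^ 2 * sig2 τ M * θ ^ 2 ≤ 2 * 10 * (288 * N / τ ^ 2) * w ^ 2 := by
            apply mul_le_mul _ hθ2 (sq_nonneg _) (by positivity)
            apply mul_le_mul _ hsig2 hs0 (by norm_num)
            linarith
        _ = 2 * 10 * 288 / 14400 := by
            have hN2 : (N : ℝ) = Real.sqrt N * Real.sqrt N := by rw [← sq, hsN2]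
            rw [hw]
            generalize Real.sqrt (N:ℝ) = q at *
            rw [hN2]
            field_simp
            norm_num
        _ ≤ 1 / 2 := by norm_num
    unfold GG
    have h4 := Real.add_one_le_exp (-(2 * π ^ 2 * sig2 τ M * θ ^ 2))
    linarith
  have h3 : ∫ θ in (-w)..w, (1:ℝ) / 2 ≤ ∫ θ in (-w)..w, GG τ M θ := by
    apply intervalIntegral.integral_mono_on (by linarith) _ (hGi _ _) h2
    exact intervalIntegrable_const
  refine le_trans ?_ h3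
  simp
  linarith

end Pool.Agent.Lib.MP_a28f5d_nt
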