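import Mathlib

namespace Pool.Agent.Lib.MP_a28f5d_nt

/-- The set of all numbers `p ^ a * q ^ b` with `a, b` natural numbers (zero allowed). -/
def S (p q : ℕ) : Set ℕ := {m | ∃ a b : ℕ, m = p ^ a * q ^ b}

/-- The number of finite subsets `T` of `S p q` whose elements sum to `n`. -/
noncomputable def f (p q n : ℕ) : ℕ :=
  Set.ncard {T : Finset ℕ | (∀ t ∈ T, t ∈ S p q) ∧ ∑ t ∈ T, t = n}

end Pool.Agent.Lib.MP_a28f5d_nt
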