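import Mathlib
import Pool.Agent.Lib.MP_a28f5d_nt.Gen
import Pool.Agent.Lib.MP_a28f5d_nt.CLT
import Pool.Agent.Lib.MP_a28f5d_nt.Defs

namespace Pool.Agent.Lib.MP_a28f5d_nt

open Real Finset MeasureTheory

lemma el_inj {a b c d : ℕ} (h : el a b = el c d) : a = c ∧ b = d := by
  unfold el at h
  have h3 : ∀ k, padicValNat 3 (4 ^ k) = 0 := by
    intro k
    apply padicValNat.eq_zero_of_not_dvd
    intro hd
    have := (Nat.Prime.dvd_of_dvd_pow Nat.prime_three hd)
    omega
  have hv : ∀ x y : ℕ, padicValNat 3 (3 ^ x * 4 ^ y) = x := by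
    intro x y
    have : Fact (Nat.Prime 3) := ⟨Nat.prime_three⟩
    rw [padicValNat.mul (by positivity) (by positivity), h3, padicValNat.prime_pow]
    rfl
  have hac : a = c := by rw [← hv a b, ← hv c d, h]
  subst hac
  refine ⟨rfl, ?_⟩
  have h4 : 4 ^ b = 4 ^ d := Nat.eq_of_mul_eq_mul_left (by positivity) h
  exact Nat.pow_right_injective (by norm_num) h4

lemma el_inj' : Function.Injective (fun i : ℕ × ℕ => el i.1 i.2) := by
  intro i j h
  obtain ⟨h1, h2⟩ := el_inj h
  exact Prod.ext h1 h2

lemma f_eq_cnt {M n : ℕ} (hM : n < 3 ^ M) : f 3 4 n = cnt M n := by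
  unfold f cnt
  set A := ((range M ×ˢ range M).powerset).filter (fun T => ∑ i ∈ T, el i.1 i.2 = n) with hA
  have himg : {T : Finset ℕ | (∀ t ∈ T, t ∈ S 3 4) ∧ ∑ t ∈ T, t = n}
      = ((A.image (fun T => T.image (fun i : ℕ × ℕ => el i.1 i.2)) : Finset (Finset ℕ)) : Set (Finset ℕ)) := by
    ext T
    simp only [Set.mem_ofPred_eq, Finset.coe_image, Set.mem_image, Finset.mem_coe]
    constructor
    · rintro ⟨h1, h2⟩
      have hle : ∀ t ∈ T, t ≤ n := by
        intro t ht
        rw [← h2]
        exact Finset.single_le_sum (f := fun t => t) (fun _ _ => Nat.zero_le _) ht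
      refine ⟨(range M ×ˢ range M).filter (fun i => el i.1 i.2 ∈ T), ?_, ?_⟩
      · have himg2 : ((range M ×ˢ range M).filter (fun i => el i.1 i.2 ∈ T)).image
            (fun i : ℕ × ℕ => el i.1 i.2) = T := by
          ext t
          simp only [Finset.mem_image, Finset.mem_filter, Finset.mem_product, Finset.mem_range]
          constructor
          · rintro ⟨i, ⟨_, h⟩, rfl⟩; exact h
          · intro ht
            obtain ⟨a, b, hab⟩ := h1 t ht
            have hlt := lt_of_le_of_lt (hle t ht) hM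
            refine ⟨(a, b), ⟨⟨?_, ?_⟩, ?_⟩, ?_⟩
            · have : 3 ^ a < 3 ^ M := by
                refine lt_of_le_of_lt ?_ hlt
                rw [hab]
                exact Nat.le_mul_of_pos_right _ (by positivity)
              exact (Nat.pow_lt_pow_iff_right (by norm_num)).mp this
            · have : 3 ^ b < 3 ^ M := by
                refine lt_of_le_of_lt ?_ hlt
                rw [hab]
                exact (Nat.pow_le_pow_left (by norm_num : 3 ≤ 4) b).trans
                  (Nat.le_mul_of_pos_left _ (by positivity))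
              exact (Nat.pow_lt_pow_iff_right (by norm_num)).mp this
            · show el a b ∈ T
              unfold el; rw [← hab]; exact ht
            · show el a b = t
              unfold el; rw [← hab]
        rw [hA, Finset.mem_filter, Finset.mem_powerset]
        refine ⟨Finset.filter_subset _ _, ?_⟩
        rw [← h2]
        conv_rhs => rw [← himg2]
        rw [Finset.sum_image (fun x _ y _ h => el_inj' h)]
      · ext t
        simp only [Finset.mem_image, Finset.mem_filter, Finset.mem_product, Finset.mem_range]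
        constructor
        · rintro ⟨i, ⟨_, h⟩, rfl⟩; exact h
        · intro ht
          obtain ⟨a, b, hab⟩ := h1 t ht
          have hlt := lt_of_le_of_lt (hle t ht) hM
          refine ⟨(a, b), ⟨⟨?_, ?_⟩, ?_⟩, ?_⟩
          · have : 3 ^ a < 3 ^ M := by
              refine lt_of_le_of_lt ?_ hlt
              rw [hab]
              exact Nat.le_mul_of_pos_right _ (by positivity)
            exact (Nat.pow_lt_pow_iff_right (by norm_num)).mp this
          · have : 3 ^ b < 3 ^ M := by
              refine lt_of_le_of_lt ?_ hlt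
              rw [hab]
              exact (Nat.pow_le_pow_left (by norm_num : 3 ≤ 4) b).trans
                (Nat.le_mul_of_pos_left _ (by positivity))
            exact (Nat.pow_lt_pow_iff_right (by norm_num)).mp this
          · show el a b ∈ T
            unfold el; rw [← hab]; exact ht
          · show el a b = t
            unfold el; rw [← hab]
    · rintro ⟨T', hT', rfl⟩
      rw [hA, Finset.mem_filter] at hT'
      constructor
      · intro t ht
        rw [Finset.mem_image] at ht
        obtain ⟨i, _, rfl⟩ := ht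
        exact ⟨i.1, i.2, rfl⟩
      · rw [Finset.sum_image (fun x _ y _ h => el_inj' h)]
        exact hT'.2
  rw [himg, Set.ncard_coe_finset, Finset.card_image_of_injective]
  exact Finset.image_injective el_inj'

lemma mu4_cont (M : ℕ) : Continuous (fun τ => mu4 τ M) := by
  unfold mu4 pr rho
  apply continuous_finsetSum
  intro i _
  apply Continuous.mul continuous_const
  apply Continuous.div (by fun_prop) (by fun_prop)
  intro τ
  have := Real.exp_pos (-(τ * (el i.1 i.2 : ℕ)))
  positivity

lemma mu4_ge (τ : ℝ) {M a : ℕ} (ha : a < M) (hM : 1 < M) :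
    (el a 1 : ℝ) * pr τ (el a 1) ≤ mu4 τ M := by
  unfold mu4
  have hmem : ((a, 1) : ℕ × ℕ) ∈ idx4 M := by
    unfold idx4
    simp only [Finset.mem_product, Finset.mem_range, Finset.mem_Ico]
    omega
  exact Finset.single_le_sum (f := fun i : ℕ × ℕ => (el i.1 i.2 : ℝ) * pr τ (el i.1 i.2))
    (fun i _ => mul_nonneg (Nat.cast_nonneg _) (pr_nonneg _ _)) hmem

lemma mu4_large {τ : ℝ} (hτ : 0 ≤ τ) {n : ℕ} (h : τ * 3 ^ (n + 5) ≤ 1) : (n:ℝ) < mu4 τ (n + 5) := by
  refine lt_of_lt_of_le ?_ (mu4_ge τ (a := n + 3) (by omega) (by omega))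
  have hel : (el (n + 3) 1 : ℝ) = 4 * 3 ^ (n + 3) := by rw [el_cast]; ring
  have h1 : τ * (el (n + 3) 1 : ℝ) ≤ 4 / 9 := by
    rw [hel]
    have : (3:ℝ) ^ (n + 5) = 9 * 3 ^ (n + 3) := by ring
    rw [this] at h
    linarith
  have h2 : 5 / 9 ≤ rho τ (el (n + 3) 1) := by
    unfold rho
    have := Real.add_one_le_exp (-(τ * (el (n + 3) 1 : ℝ)))
    linarith
  have h3 : rho τ (el (n + 3) 1) ≤ 1 := rho_le_one hτ _
  have h4 : 5 / 18 ≤ pr τ (el (n + 3) 1) := by
    unfold pr
    rw [le_div_iff₀ (by linarith)]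
    linarith
  have h5 : (n:ℝ) < 3 ^ (n + 3) := by
    have h6 : n < 3 ^ n := Nat.lt_pow_self (by norm_num)
    have h7 : 3 ^ n ≤ 3 ^ (n + 3) := Nat.pow_le_pow_right (by norm_num) (by omega)
    have h8 : n < 3 ^ (n + 3) := lt_of_lt_of_le h6 h7
    exact_mod_cast h8
  rw [hel]
  have h6 : (0:ℝ) < 3 ^ (n + 3) := by positivity
  nlinarith

lemma mu4_le {τ : ℝ} (hτ : 0 < τ) (K : ℕ) (hK : 1 ≤ τ * 4 ^ K) (M : ℕ) :
    mu4 τ M ≤ 96 * (K + 2) / τ := by
  have := sum_idx4_le 1 (by norm_num) (by norm_num) hτ K hK M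
  simpa [mu4] using this

/-- existence of the saddle point -/
lemma exists_saddle {n : ℕ} (hn : 200 ≤ n) : ∃ τ : ℝ, 0 < τ ∧ τ ≤ 1 ∧ 1 / τ < 3 ^ (n + 5) ∧ (n:ℝ) = mu4 τ (n + 5) := by
  have h0 : (n:ℝ) < mu4 0 (n + 5) := mu4_large le_rfl (by simp)
  have h1 : mu4 1 (n + 5) < n := by
    have h2 := mu4_le (τ := 1) one_pos 0 (by norm_num) (n + 5)
    have h3 : (200:ℝ) ≤ n := by exact_mod_cast hn
    norm_num at h2
    linarith
  have hivt := intermediate_value_Icc' (zero_le_one (α := ℝ)) (mu4_cont (n + 5)).continuousOn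
  obtain ⟨τ, hτ, hτn⟩ := hivt ⟨h1.le, h0.le⟩
  simp only at hτn
  have hτ0 : 0 < τ := by
    rcases lt_or_eq_of_le hτ.1 with h | h
    · exact h
    · rw [← h] at hτn; linarith
  refine ⟨τ, hτ0, hτ.2, ?_, hτn.symm⟩
  by_contra hcon
  push Not at hcon
  have h4 : τ * 3 ^ (n + 5) ≤ 1 := by
    rw [le_div_iff₀ hτ0] at hcon
    linarith
  have := mu4_large hτ0.le h4
  linarith

end Pool.Agent.Lib.MP_a28f5d_nt
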