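import Mathlib
import Pool.Agent.Lib.MP_a28f5d_nt.Central

namespace Pool.Agent.Lib.MP_a28f5d_nt

open Real Finset MeasureTheory

lemma phi_neg (τ : ℝ) (s : ℕ) (θ : ℝ) : phi τ s (-θ) = (starRingEnd ℂ) (phi τ s θ) := by
  rw [phi_eq, phi_eq, map_div₀, map_add, map_add, map_mul, map_one, Complex.conj_ofReal, ← ee_neg]
  congr 4
  ring

lemma PP_neg (τ : ℝ) (M : ℕ) (θ : ℝ) : PP τ M (-θ) = (starRingEnd ℂ) (PP τ M θ) := by
  unfold PP
  rw [map_prod]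
  apply Finset.prod_congr rfl
  intro b _
  rw [map_prod]
  apply Finset.prod_congr rfl
  intro a _
  exact phi_neg _ _ _

lemma gg_neg (τ : ℝ) (M n : ℕ) (θ : ℝ) : gg τ M n (-θ) = (starRingEnd ℂ) (gg τ M n θ) := by
  unfold gg
  rw [map_mul, map_mul, map_sub, map_mul, map_one, Complex.conj_ofReal, ← PP_neg, ← ee_neg, ← ee_neg]
  congr 3
  ring

lemma PP_add_one (τ : ℝ) (M : ℕ) (θ : ℝ) : PP τ M (θ + 1) = PP τ M θ := by
  unfold PP
  apply Finset.prod_congr rfl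
  intro b _
  apply Finset.prod_congr rfl
  intro a _
  have := phi_add_int (τ := τ) (el a b) θ 1
  simpa using this

lemma gg_add_one (τ : ℝ) (M n : ℕ) (θ : ℝ) : gg τ M n (θ + 1) = gg τ M n θ := by
  unfold gg
  rw [PP_add_one]
  have e1 : ee (-((n + 1 : ℕ) * (θ + 1))) = ee (-((n + 1 : ℕ) * θ)) := by
    have : -(((n + 1 : ℕ) : ℝ) * (θ + 1)) = -((n + 1 : ℕ) * θ) + ((-((n + 1 : ℕ) : ℤ) : ℤ) : ℝ) := by
      push_cast; ring
    rw [this, ee_add, ee_int, mul_one]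
  have e2 : ee (θ + 1) = ee θ := by
    have : θ + 1 = θ + ((1 : ℤ) : ℝ) := by push_cast; ring
    rw [this, ee_add, ee_int, mul_one]
  rw [e1, e2]

lemma gg_int (τ : ℝ) (M n : ℕ) (a b : ℝ) : IntervalIntegrable (gg τ M n) volume a b :=
  (gg_cont τ M n).intervalIntegrable _ _

/-- reduction to the half interval -/
lemma integral_gg_half (τ : ℝ) (M n : ℕ) :
    ∫ θ in (0:ℝ)..1, gg τ M n θ = ((2 * (∫ θ in (0:ℝ)..(1/2), gg τ M n θ).re : ℝ) : ℂ) := by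
  have h1 : ∫ θ in (0:ℝ)..1, gg τ M n θ
      = (∫ θ in (0:ℝ)..(1/2), gg τ M n θ) + ∫ θ in (1/2:ℝ)..1, gg τ M n θ := by
    rw [intervalIntegral.integral_add_adjacent_intervals (gg_int _ _ _ _ _) (gg_int _ _ _ _ _)]
  have h2 : ∫ θ in (1/2:ℝ)..1, gg τ M n θ = ∫ θ in (0:ℝ)..(1/2), gg τ M n (1 - θ) := by
    rw [intervalIntegral.integral_comp_sub_left (fun θ => gg τ M n θ) 1]
    norm_num
  have h3 : ∀ θ : ℝ, gg τ M n (1 - θ) = (starRingEnd ℂ) (gg τ M n θ) := by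
    intro θ
    have : 1 - θ = -θ + 1 := by ring
    rw [this, gg_add_one, gg_neg]
  have h4 : ∫ θ in (0:ℝ)..(1/2), gg τ M n (1 - θ) = (starRingEnd ℂ) (∫ θ in (0:ℝ)..(1/2), gg τ M n θ) := by
    simp_rw [h3]
    rw [intervalIntegral.integral_of_le (by norm_num), intervalIntegral.integral_of_le (by norm_num),
      integral_conj]
  rw [h1, h2, h4, Complex.add_conj]

/-- if the middle part dominates then the integral does not vanish -/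
lemma integral_gg_ne_zero {τ : ℝ} {M n : ℕ} {δ : ℝ} {e1 e2 e4 : ℝ}
    (h1 : ‖∫ θ in (0:ℝ)..δ, gg τ M n θ‖ ≤ e1)
    (h2 : ‖∫ θ in δ..(1/4 - δ), gg τ M n θ‖ ≤ e2)
    (h4 : ‖∫ θ in (1/4 + δ)..(1/2), gg τ M n θ‖ ≤ e4)
    (h3 : e1 + e2 + e4 < |(∫ θ in (1/4 - δ)..(1/4 + δ), gg τ M n θ).re|) :
    ∫ θ in (0:ℝ)..1, gg τ M n θ ≠ 0 := by
  rw [integral_gg_half]
  intro h0
  rw [Complex.ofReal_eq_zero] at h0
  have hsplit : ∫ θ in (0:ℝ)..(1/2), gg τ M n θ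
      = (∫ θ in (0:ℝ)..δ, gg τ M n θ) + (∫ θ in δ..(1/4 - δ), gg τ M n θ)
        + (∫ θ in (1/4 - δ)..(1/4 + δ), gg τ M n θ) + (∫ θ in (1/4 + δ)..(1/2), gg τ M n θ) := by
    rw [intervalIntegral.integral_add_adjacent_intervals (gg_int _ _ _ _ _) (gg_int _ _ _ _ _),
      intervalIntegral.integral_add_adjacent_intervals (gg_int _ _ _ _ _) (gg_int _ _ _ _ _),
      intervalIntegral.integral_add_adjacent_intervals (gg_int _ _ _ _ _) (gg_int _ _ _ _ _)]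
  rw [hsplit] at h0
  simp only [Complex.add_re] at h0
  have g1 := (Complex.abs_re_le_norm (∫ θ in (0:ℝ)..δ, gg τ M n θ)).trans h1
  have g2 := (Complex.abs_re_le_norm (∫ θ in δ..(1/4 - δ), gg τ M n θ)).trans h2
  have g4 := (Complex.abs_re_le_norm (∫ θ in (1/4 + δ)..(1/2), gg τ M n θ)).trans h4
  rw [abs_le] at g1 g2 g4
  have : |(∫ θ in (1/4 - δ)..(1/4 + δ), gg τ M n θ).re| ≤ e1 + e2 + e4 := by
    rw [abs_le]
    constructor <;> linarith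
  linarith

lemma norm_gg (τ : ℝ) (M n : ℕ) (θ : ℝ) :
    ‖gg τ M n θ‖ = ‖PP τ M θ‖ * ‖1 - (rho τ 1 : ℂ) * ee θ‖ := by
  unfold gg
  rw [norm_mul, norm_mul, norm_ee, mul_one]

lemma norm_PP_le_one {τ : ℝ} (hτ : 0 ≤ τ) (M : ℕ) (θ : ℝ) : ‖PP τ M θ‖ ≤ 1 := by
  rw [norm_PP]
  exact Finset.prod_le_one (fun _ _ => Rw_nonneg _ _ _ _) (fun _ _ => Rw_le_one hτ _ _ _)

lemma norm_one_sub_le_two {τ : ℝ} (hτ : 0 ≤ τ) (θ : ℝ) : ‖1 - (rho τ 1 : ℂ) * ee θ‖ ≤ 2 := by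
  refine (norm_sub_le _ _).trans ?_
  rw [norm_one, norm_mul, norm_ee, mul_one, Complex.norm_real, Real.norm_eq_abs,
    abs_of_pos (rho_pos _ _)]
  have := rho_le_one hτ 1
  linarith

lemma one_sub_rho_one_le {τ : ℝ} : 1 - rho τ 1 ≤ τ := by
  unfold rho
  have := Real.add_one_le_exp (-(τ * (1:ℕ)))
  push_cast at this ⊢
  linarith

lemma norm_one_sub_small {τ : ℝ} (hτ : 0 ≤ τ) (θ : ℝ) :
    ‖1 - (rho τ 1 : ℂ) * ee θ‖ ≤ τ + 2 * π * |θ| := by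
  have e : 1 - (rho τ 1 : ℂ) * ee θ = ((1 - rho τ 1 : ℝ) : ℂ) - (rho τ 1 : ℂ) * (ee θ - 1) := by
    push_cast; ring
  rw [e]
  refine (norm_sub_le _ _).trans ?_
  rw [norm_mul, Complex.norm_real, Complex.norm_real, Real.norm_eq_abs, Real.norm_eq_abs,
    abs_of_pos (rho_pos _ _), abs_of_nonneg (by linarith [rho_le_one hτ 1])]
  have h1 := norm_ee_sub_one_le θ
  have h2 := rho_le_one hτ 1
  have h3 := rho_pos τ 1
  have h4 : rho τ 1 * ‖ee θ - 1‖ ≤ 1 * (2 * π * |θ|) :=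
    mul_le_mul h2 h1 (norm_nonneg _) (by norm_num)
  have h5 := one_sub_rho_one_le (τ := τ)
  linarith

/-- contribution of a neighbourhood of zero -/
lemma near_zero {τ : ℝ} (hτ : 0 < τ) (M n : ℕ) {δ : ℝ} (hδ : τ ≤ δ) :
    ‖∫ θ in (0:ℝ)..δ, gg τ M n θ‖ ≤ 8 * δ ^ 2 := by
  have hδ0 : 0 < δ := lt_of_lt_of_le hτ hδ
  have h1 : ‖∫ θ in (0:ℝ)..δ, gg τ M n θ‖ ≤ (8 * δ) * |δ - 0| := by
    apply intervalIntegral.norm_integral_le_of_norm_le_const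
    intro θ hθ
    rw [Set.uIoc_of_le hδ0.le] at hθ
    rw [norm_gg]
    have h2 := norm_PP_le_one hτ.le M θ
    have h3 := norm_one_sub_small hτ.le θ
    rw [abs_of_pos hθ.1] at h3
    have hpi := Real.pi_lt_d2
    have hpi0 := Real.pi_pos
    have h4 : τ + 2 * π * θ ≤ 8 * δ := by
      have := hθ.2
      have := hθ.1
      nlinarith
    calc ‖PP τ M θ‖ * ‖1 - (rho τ 1 : ℂ) * ee θ‖ ≤ 1 * ‖1 - (rho τ 1 : ℂ) * ee θ‖ :=
          mul_le_mul_of_nonneg_right h2 (norm_nonneg _)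
      _ ≤ 8 * δ := by linarith
  rw [sub_zero, abs_of_pos hδ0] at h1
  linarith

/-- bound for a subinterval by the mass of `HH` -/
lemma minor_interval {τ : ℝ} (hτ : 0 < τ) {M n A : ℕ} {c : ℝ} (hc : 0 ≤ c) {a b : ℝ} (ha : 0 ≤ a)
    (hab : a ≤ b) (hb : b ≤ 1) (h : ∀ θ, a ≤ θ → θ ≤ b → ‖PP τ M θ‖ ≤ c * HH A θ) :
    ‖∫ θ in a..b, gg τ M n θ‖ ≤ 2 * c * (2 * (3 / 8 + 1 / 40000 + (1 / 40000) ^ 2) ^ A) := by
  rw [← integral_HH]
  have h1 : ‖∫ θ in a..b, gg τ M n θ‖ ≤ ∫ θ in a..b, 2 * c * HH A θ := by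
    apply intervalIntegral.norm_integral_le_of_norm_le hab
    · apply Filter.Eventually.of_forall
      intro θ hθ
      rw [norm_gg]
      have h2 := h θ hθ.1.le hθ.2
      have h3 := norm_one_sub_le_two hτ.le θ
      calc ‖PP τ M θ‖ * ‖1 - (rho τ 1 : ℂ) * ee θ‖ ≤ (c * HH A θ) * 2 :=
            mul_le_mul h2 h3 (norm_nonneg _) (mul_nonneg hc (HH_nonneg _ _))
        _ = 2 * c * HH A θ := by ring
    · exact (continuous_const.mul (HH_cont A)).intervalIntegrable _ _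
  refine h1.trans ?_
  rw [intervalIntegral.integral_const_mul]
  apply mul_le_mul_of_nonneg_left _ (by positivity)
  apply intervalIntegral.integral_mono_interval ha hab hb
  · apply Filter.Eventually.of_forall
    intro θ; exact HH_nonneg _ _
  · exact (HH_cont A).intervalIntegrable _ _

/-- middle part through `FF` -/
lemma middle_eq (τ : ℝ) {M : ℕ} (hM : 0 < M) (n : ℕ) (δ : ℝ) :
    ∫ θ in (1/4 - δ)..(1/4 + δ), gg τ M n θ
      = ee (-(((n + 1 : ℕ) : ℝ) / 4)) * ∫ θ in (-δ)..δ, FF τ M n θ := by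
  have h1 : ∫ θ in (1/4 - δ)..(1/4 + δ), gg τ M n θ = ∫ θ in (-δ)..δ, gg τ M n (1/4 + θ) := by
    rw [intervalIntegral.integral_comp_add_left (fun θ => gg τ M n θ) (1/4)]
    rfl
  rw [h1, ← intervalIntegral.integral_const_mul]
  congr 1
  funext θ
  rw [gg_quarter τ hM]
  rfl

lemma WW_zero (τ : ℝ) (M : ℕ) :
    WW τ M 0 = (‖VV τ M 0‖ : ℂ) * (Complex.exp ((Ph τ M : ℝ) * Complex.I) * (1 - (rho τ 1 : ℂ) * Complex.I)) := by
  unfold WW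
  rw [neg_zero, ee_zero]
  conv_lhs => rw [VV_zero_eq]
  ring

lemma middle_lower {τ : ℝ} (hτ : 0 < τ) (hτ1 : τ ≤ 1 / 1000) {M n : ℕ} (hM : 1 / τ < 3 ^ M) {δ G E : ℝ}
    (hG : 0 ≤ G) (hE : ‖(∫ θ in (-δ)..δ, FF τ M n θ) - WW τ M 0 * (G : ℂ)‖ ≤ E) :
    ‖VV τ M 0‖ * G * (1 / 100) - E ≤ |(∫ θ in (1/4 - δ)..(1/4 + δ), gg τ M n θ).re| := by
  have hM0 : 0 < M := by
    rcases Nat.eq_zero_or_pos M with h | h
    · rw [h, pow_zero, div_lt_one hτ] at hM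
      linarith
    · exact h
  rw [middle_eq τ hM0]
  set I := ∫ θ in (-δ)..δ, FF τ M n θ with hI
  set w := ee (-(((n + 1 : ℕ) : ℝ) / 4)) with hw
  have h1 := main_phase (Ph_nonneg hτ M) (Ph_le hτ (by linarith) M hM)
    (r := rho τ 1) (by have := one_sub_rho_one_le (τ := τ); linarith) (rho_le_one hτ.le 1) (n + 1)
  rw [← hw] at h1
  have e1 : w * I = w * (WW τ M 0 * (G : ℂ)) + w * (I - WW τ M 0 * (G : ℂ)) := by ring
  have e2 : (w * (WW τ M 0 * (G : ℂ))).re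
      = ‖VV τ M 0‖ * G * (w * (Complex.exp ((Ph τ M : ℝ) * Complex.I) * (1 - (rho τ 1 : ℂ) * Complex.I))).re := by
    rw [WW_zero]
    have : w * (((‖VV τ M 0‖ : ℂ) * (Complex.exp ((Ph τ M : ℝ) * Complex.I) * (1 - (rho τ 1 : ℂ) * Complex.I))) * (G : ℂ))
        = ((‖VV τ M 0‖ * G : ℝ) : ℂ) * (w * (Complex.exp ((Ph τ M : ℝ) * Complex.I) * (1 - (rho τ 1 : ℂ) * Complex.I))) := by
      push_cast; ring
    rw [this, Complex.re_ofReal_mul]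
  have h2 : |(w * (I - WW τ M 0 * (G : ℂ))).re| ≤ E := by
    refine (Complex.abs_re_le_norm _).trans ?_
    rw [norm_mul, hw, norm_ee, one_mul]
    exact hE
  rw [e1, Complex.add_re, e2]
  have hv := norm_nonneg (VV τ M 0)
  have hvG : 0 ≤ ‖VV τ M 0‖ * G := mul_nonneg hv hG
  have h3 : ‖VV τ M 0‖ * G * (1 / 100) ≤
      |‖VV τ M 0‖ * G * (w * (Complex.exp ((Ph τ M : ℝ) * Complex.I) * (1 - (rho τ 1 : ℂ) * Complex.I))).re| := by
    rw [abs_mul, abs_of_nonneg hvG]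
    exact mul_le_mul_of_nonneg_left h1 hvG
  have h4 := abs_sub_abs_le_abs_sub
    (‖VV τ M 0‖ * G * (w * (Complex.exp ((Ph τ M : ℝ) * Complex.I) * (1 - (rho τ 1 : ℂ) * Complex.I))).re)
    (-(w * (I - WW τ M 0 * (G : ℂ))).re)
  rw [abs_neg, sub_neg_eq_add] at h4
  linarith

end Pool.Agent.Lib.MP_a28f5d_nt
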