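import Mathlib
import Pool.Agent.Lib.MP_a28f5d_nt.Sym

namespace Pool.Agent.Lib.MP_a28f5d_nt

open Real Finset MeasureTheory

lemma VV_inter_le {τ : ℝ} (hτ : 0 < τ) {R M K : ℕ} {X : ℝ} (hX : X = 4 ^ (R + 6))
    (hτX : τ * X ≤ 1 / 100) (hR : 1 ≤ R) (hK : K ≤ M) {θ : ℝ} (hθ : |θ| ≤ 5 / X)
    (hs : ∀ a < K, (3:ℝ) ^ a ≤ 4 ^ (R - 1)) : ‖VV τ M θ‖ ^ 2 ≤ (51 / 100) ^ K := by
  have hX0 : 0 < X := by rw [hX]; positivity
  have hclosed : IsClosed {θ : ℝ | ‖VV τ M θ‖ ^ 2 ≤ (51 / 100) ^ K} :=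
    isClosed_le ((VV_cont τ M).norm.pow 2) continuous_const
  have hsub : Metric.ball (0:ℝ) (5 / X) ⊆ {θ : ℝ | ‖VV τ M θ‖ ^ 2 ≤ (51 / 100) ^ K} := by
    intro x hx
    rw [mem_ball_zero_iff, Real.norm_eq_abs] at hx
    exact VV_inter hτ hX hτX hR hK hx hs
  have h := closure_minimal hsub hclosed
  rw [closure_ball (0:ℝ) (by positivity)] at h
  apply h
  rw [mem_closedBall_zero_iff, Real.norm_eq_abs]
  exact hθ

lemma pow_trick {x r : ℝ} (hx : 0 ≤ x) (hr : 0 ≤ r) (hr1 : r ≤ 1) {p a m k : ℕ} (hp : p ≠ 0)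
    (h : x ^ p ≤ r ^ a) (hk : k * p ≤ a * m) : x ^ m ≤ r ^ k := by
  rw [← pow_le_pow_iff_left₀ (by positivity) (by positivity) hp]
  calc (x ^ m) ^ p = (x ^ p) ^ m := by rw [← pow_mul, ← pow_mul, mul_comm]
    _ ≤ (r ^ a) ^ m := pow_le_pow_left₀ (by positivity) h m
    _ = r ^ (a * m) := by rw [← pow_mul]
    _ ≤ r ^ (k * p) := pow_le_pow_of_le_one hr hr1 hk
    _ = (r ^ k) ^ p := by rw [pow_mul]

lemma three_five (k : ℕ) : (3:ℝ) ^ (5 * k) ≤ 4 ^ (4 * k) := by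
  rw [pow_mul, pow_mul]
  exact pow_le_pow_left₀ (by norm_num) (by norm_num) k

lemma four_nineteen (k : ℕ) : (4:ℝ) ^ (19 * k) ≤ 3 ^ (24 * k) := by
  rw [pow_mul, pow_mul]
  exact pow_le_pow_left₀ (by norm_num) (by norm_num) k

/-- minor arcs numerical bound -/
lemma minor_num {j : ℕ} (hj : 1 ≤ j) :
    ((53:ℝ) / 100) ^ (7524 * j - 9) * (3 / 8 + 1 / 40000 + (1 / 40000) ^ 2) ^ (9405 * j - 3)
      ≤ 13824 * (1 / 2) ^ (20126 * j) := by
  have h1 : (3 / 8 + 1 / 40000 + (1 / 40000) ^ 2 : ℝ) ^ (9405 * j - 3) ≤ (47 / 125) ^ (9405 * j - 3) :=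
    pow_le_pow_left₀ (by norm_num) (by norm_num) _
  have h2 : ((53:ℝ) / 100) ^ (7524 * j - 9) ≤ 512 * (53 / 100) ^ (7524 * j) := by
    have e : 7524 * j = (7524 * j - 9) + 9 := by omega
    have e2 : ((53:ℝ) / 100) ^ (7524 * j) = (53 / 100) ^ (7524 * j - 9) * (53 / 100) ^ 9 := by
      rw [← pow_add, ← e]
    rw [e2]
    have h0 : 0 < ((53:ℝ) / 100) ^ (7524 * j - 9) := by positivity
    have h9 : (1:ℝ) ≤ 512 * (53 / 100) ^ 9 := by norm_num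
    nlinarith
  have h3 : ((47:ℝ) / 125) ^ (9405 * j - 3) ≤ 27 * (47 / 125) ^ (9405 * j) := by
    have e : 9405 * j = (9405 * j - 3) + 3 := by omega
    have e2 : ((47:ℝ) / 125) ^ (9405 * j) = (47 / 125) ^ (9405 * j - 3) * (47 / 125) ^ 3 := by
      rw [← pow_add, ← e]
    rw [e2]
    have h0 : 0 < ((47:ℝ) / 125) ^ (9405 * j - 3) := by positivity
    have h9 : (1:ℝ) ≤ 27 * (47 / 125) ^ 3 := by norm_num
    nlinarith
  have h4 : ((53:ℝ) / 100) ^ (7524 * j) * (47 / 125) ^ (9405 * j) ≤ (1 / 2) ^ (20126 * j) := by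
    have e : ((53:ℝ) / 100) ^ (7524 * j) * (47 / 125) ^ (9405 * j)
        = ((53 / 100) ^ 4 * (47 / 125) ^ 5) ^ (1881 * j) := by
      rw [mul_pow, ← pow_mul, ← pow_mul]
      congr 2 <;> ring
    rw [e]
    apply pow_trick (p := 10) (a := 107) (by positivity) (by norm_num) (by norm_num) (by norm_num)
    · norm_num
    · omega
  calc ((53:ℝ) / 100) ^ (7524 * j - 9) * (3 / 8 + 1 / 40000 + (1 / 40000) ^ 2) ^ (9405 * j - 3)
      ≤ (512 * (53 / 100) ^ (7524 * j)) * (27 * (47 / 125) ^ (9405 * j)) :=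
        mul_le_mul h2 (h1.trans h3) (by positivity) (by positivity)
    _ = 13824 * (((53:ℝ) / 100) ^ (7524 * j) * (47 / 125) ^ (9405 * j)) := by ring
    _ ≤ 13824 * (1 / 2) ^ (20126 * j) := by linarith

/-- intermediate range numerical bound -/
lemma inter_num {j : ℕ} (hj : 1 ≤ j) :
    (5 / (4:ℝ) ^ (7524 * j + 6)) * Real.sqrt ((87 / 100) ^ (7524 * j) * (51 / 100) ^ (9405 * j - 1))
      ≤ (1 / 2) ^ (20126 * j) := by
  have h1 : ((51:ℝ) / 100) ^ (9405 * j - 1) ≤ 2 * (51 / 100) ^ (9405 * j) := by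
    have e : 9405 * j = (9405 * j - 1) + 1 := by omega
    have e2 : ((51:ℝ) / 100) ^ (9405 * j) = (51 / 100) ^ (9405 * j - 1) * (51 / 100) ^ 1 := by
      rw [← pow_add, ← e]
    rw [e2]
    have h0 : 0 < ((51:ℝ) / 100) ^ (9405 * j - 1) := by positivity
    linarith
  have h4 : ((1:ℝ) / 4) ^ (15048 * j) * (87 / 100) ^ (7524 * j) * (51 / 100) ^ (9405 * j)
      ≤ (1 / 2) ^ (40252 * j) := by
    have a1 : ((1:ℝ) / 4) ^ (15048 * j) = ((1 / 4) ^ 8) ^ (1881 * j) := by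
      rw [← pow_mul]; congr 1; ring
    have a2 : ((87:ℝ) / 100) ^ (7524 * j) = ((87 / 100) ^ 4) ^ (1881 * j) := by
      rw [← pow_mul]; congr 1; ring
    have a3 : ((51:ℝ) / 100) ^ (9405 * j) = ((51 / 100) ^ 5) ^ (1881 * j) := by
      rw [← pow_mul]; congr 1; ring
    have e : ((1:ℝ) / 4) ^ (15048 * j) * (87 / 100) ^ (7524 * j) * (51 / 100) ^ (9405 * j)
        = ((1 / 4) ^ 8 * (87 / 100) ^ 4 * (51 / 100) ^ 5) ^ (1881 * j) := by
      rw [a1, a2, a3, ← mul_pow, ← mul_pow]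
    rw [e]
    apply pow_trick (p := 5) (a := 108) (by positivity) (by norm_num) (by norm_num) (by norm_num)
    · norm_num
    · omega
  have h5 : (5 / (4:ℝ) ^ (7524 * j + 6)) ^ 2 = (25 / 4 ^ 12) * (1 / 4) ^ (15048 * j) := by
    rw [div_pow, ← pow_mul, one_div, inv_pow]
    have : (4:ℝ) ^ ((7524 * j + 6) * 2) = 4 ^ (15048 * j) * 4 ^ 12 := by
      rw [← pow_add]; congr 1; ring
    rw [this]
    field_simp
    norm_num
  set P := (87 / 100 : ℝ) ^ (7524 * j) with hP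
  have hP0 : 0 ≤ P := by rw [hP]; positivity
  set Q := (51 / 100 : ℝ) ^ (9405 * j - 1) with hQ
  have hQ0 : 0 ≤ Q := by rw [hQ]; positivity
  have h6 : ((5 / (4:ℝ) ^ (7524 * j + 6)) * Real.sqrt (P * Q)) ^ 2 ≤ ((1 / 2) ^ (20126 * j)) ^ 2 := by
    rw [mul_pow, Real.sq_sqrt (mul_nonneg hP0 hQ0), h5]
    have e3 : (((1:ℝ) / 2) ^ (20126 * j)) ^ 2 = (1 / 2) ^ (40252 * j) := by
      rw [← pow_mul]; congr 1; ring
    rw [e3]
    have h7 : (25 / 4 ^ 12) * ((1:ℝ) / 4) ^ (15048 * j) * (P * Q)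
        ≤ (25 / 4 ^ 12) * (1 / 4) ^ (15048 * j) * (P * (2 * (51 / 100) ^ (9405 * j))) := by
      apply mul_le_mul_of_nonneg_left _ (by positivity)
      exact mul_le_mul_of_nonneg_left h1 hP0
    refine h7.trans ?_
    have h8 : (25 / 4 ^ 12) * ((1:ℝ) / 4) ^ (15048 * j) * (P * (2 * (51 / 100) ^ (9405 * j)))
        = (50 / 4 ^ 12) * ((1 / 4) ^ (15048 * j) * P * (51 / 100) ^ (9405 * j)) := by ring
    rw [h8]
    have h9 : 0 ≤ ((1:ℝ) / 4) ^ (15048 * j) * P * (51 / 100) ^ (9405 * j) := by positivity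
    have h10 : (50 / 4 ^ 12 : ℝ) ≤ 1 := by norm_num
    nlinarith
  exact le_of_sq_le_sq h6 (by positivity)

lemma zero_num (j : ℕ) : 8 * (5 / (4:ℝ) ^ (7524 * j + 6)) ^ 2 ≤ (1 / 2) ^ (20126 * j) := by
  have h5 : (5 / (4:ℝ) ^ (7524 * j + 6)) ^ 2 = (25 / 4 ^ 12) * (1 / 2) ^ (30096 * j) := by
    have e1 : ((1:ℝ) / 2) ^ (30096 * j) = (1 / 4) ^ (15048 * j) := by
      have : 30096 * j = 2 * (15048 * j) := by ring
      rw [this, pow_mul]; norm_num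
    rw [e1, div_pow, ← pow_mul, one_div, inv_pow]
    have : (4:ℝ) ^ ((7524 * j + 6) * 2) = 4 ^ (15048 * j) * 4 ^ 12 := by
      rw [← pow_add]; congr 1; ring
    rw [this]
    field_simp
    norm_num
  rw [h5]
  have h6 : ((1:ℝ) / 2) ^ (30096 * j) ≤ (1 / 2) ^ (20126 * j) :=
    pow_le_pow_of_le_one (by norm_num) (by norm_num) (by omega)
  have h7 : 0 < ((1:ℝ) / 2) ^ (30096 * j) := by positivity
  have h8 : (8 * (25 / 4 ^ 12) : ℝ) ≤ 1 := by norm_num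
  nlinarith

/-- main term size -/
lemma main_size {τ : ℝ} (hτ : 0 < τ) (M : ℕ) {j : ℕ} (h1 : 1 ≤ τ * 4 ^ (7600 * (j + 1))) :
    (1 / 4) * (1 / 2) ^ (20000 * (j + 1)) ≤ ‖VV τ M 0‖ * τ := by
  have h3 : (4:ℝ) ^ (7600 * (j + 1)) ≤ 3 ^ (9600 * (j + 1)) := by
    have := four_nineteen (400 * (j + 1))
    have e1 : 19 * (400 * (j + 1)) = 7600 * (j + 1) := by ring
    have e2 : 24 * (400 * (j + 1)) = 9600 * (j + 1) := by ring
    rwa [e1, e2] at this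
  have h4 : 3 ≤ τ * 3 ^ (9600 * (j + 1) + 1) := by
    rw [pow_succ]
    have h5 := mul_le_mul_of_nonneg_left h3 hτ.le
    generalize (4:ℝ) ^ (7600 * (j + 1)) = x at *
    generalize (3:ℝ) ^ (9600 * (j + 1)) = y at *
    linarith
  have h5 := VV_lower hτ M _ h4
  have h6 : (1 / 4) * ((1:ℝ) / 2) ^ (4800 * (j + 1)) ≤ (1 / 2) * Real.sqrt (1 / 2) ^ (9600 * (j + 1) + 1) := by
    have e2 : Real.sqrt (1 / 2) ^ (9600 * (j + 1)) = ((1:ℝ) / 2) ^ (4800 * (j + 1)) := by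
      have e1 : 9600 * (j + 1) = 2 * (4800 * (j + 1)) := by ring
      rw [e1, pow_mul (Real.sqrt (1 / 2)) 2, Real.sq_sqrt (by norm_num)]
    rw [pow_succ, e2]
    have h7 : (1:ℝ) / 2 ≤ Real.sqrt (1 / 2) := by
      apply Real.le_sqrt_of_sq_le; norm_num
    have h8 : 0 < ((1:ℝ) / 2) ^ (4800 * (j + 1)) := by positivity
    generalize ((1:ℝ) / 2) ^ (4800 * (j + 1)) = y at *
    nlinarith
  have h7 : ((1:ℝ) / 2) ^ (15200 * (j + 1)) ≤ τ := by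
    have e1 : ((1:ℝ) / 2) ^ (15200 * (j + 1)) = (1 / 4) ^ (7600 * (j + 1)) := by
      have e1 : 15200 * (j + 1) = 2 * (7600 * (j + 1)) := by ring
      rw [e1, pow_mul ((1:ℝ) / 2) 2]; norm_num
    rw [e1, div_pow, one_pow, div_le_iff₀ (by positivity)]
    exact h1
  have e : (1 / 4) * ((1:ℝ) / 2) ^ (20000 * (j + 1))
      = ((1 / 4) * (1 / 2) ^ (4800 * (j + 1))) * (1 / 2) ^ (15200 * (j + 1)) := by
    have e9 : 20000 * (j + 1) = 4800 * (j + 1) + 15200 * (j + 1) := by omega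
    rw [e9, pow_add, mul_assoc]
  rw [e]
  exact mul_le_mul (h6.trans h5) h7 (by positivity) (norm_nonneg _)

end Pool.Agent.Lib.MP_a28f5d_nt
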