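import Mathlib
import Pool.Agent.Lib.MP_a28f5d_nt.Params

namespace Pool.Agent.Lib.MP_a28f5d_nt

open Real Finset MeasureTheory

lemma eventual_num (Ch : ℝ) : ∃ J0 : ℕ, 1 ≤ J0 ∧ ∀ j ≥ J0,
    Ch ≤ Real.sqrt ((7600 * j - 1 : ℕ) : ℝ) ∧
      200000 * (1 / 2 : ℝ) ^ (20126 * j) * (7600 * j) * 24000 < (1 / 4) * (1 / 2) ^ (20000 * (j + 1)) := by
  set B : ℝ := (1 / 2 : ℝ) ^ 20000 with hB
  have hB0 : 0 < B := by rw [hB]; positivity
  obtain ⟨J1, hJ1⟩ := exists_pow_lt_of_lt_one (x := B / (4 * 200000 * 7600 * 24000)) (y := (1 / 2 : ℝ))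
    (by positivity) (by norm_num)
  obtain ⟨J2, hJ2⟩ := exists_nat_ge (Ch ^ 2)
  refine ⟨max 1 (max J1 J2), le_max_left _ _, ?_⟩
  intro j hj
  have hj1 : 1 ≤ j := le_trans (le_max_left _ _) hj
  have hj2 : J1 ≤ j := le_trans (le_trans (le_max_left _ _) (le_max_right _ _)) hj
  have hj3 : J2 ≤ j := le_trans (le_trans (le_max_right _ _) (le_max_right _ _)) hj
  constructor
  · apply Real.le_sqrt_of_sq_le
    have h1 : (J2 : ℝ) ≤ ((7600 * j - 1 : ℕ) : ℝ) := by
      have : J2 ≤ 7600 * j - 1 := by omega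
      exact_mod_cast this
    linarith
  · have e1 : ((1:ℝ) / 2) ^ (20000 * (j + 1)) = (1 / 2) ^ (20000 * j) * B := by
      have : 20000 * (j + 1) = 20000 * j + 20000 := by ring
      rw [this, pow_add]
    have e2 : ((1:ℝ) / 2) ^ (20126 * j) = (1 / 2) ^ (20000 * j) * (1 / 2) ^ (126 * j) := by
      rw [← pow_add]; congr 1; ring
    have h3 : ((1:ℝ) / 2) ^ (126 * j) ≤ (1 / 2) ^ j * (1 / 2) ^ j := by
      rw [← pow_add]
      exact pow_le_pow_of_le_one (by norm_num) (by norm_num) (by omega)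
    have h4 : (j:ℝ) * (1 / 2) ^ j ≤ 1 := by
      have h5 : (j:ℝ) ≤ 2 ^ j := by exact_mod_cast (Nat.lt_two_pow_self (n := j)).le
      rw [one_div, inv_pow]
      rw [← div_eq_mul_inv, div_le_one (by positivity)]
      exact h5
    have h5 : ((1:ℝ) / 2) ^ j < B / (4 * 200000 * 7600 * 24000) :=
      lt_of_le_of_lt (pow_le_pow_of_le_one (by norm_num) (by norm_num) hj2) hJ1
    have h6 : 0 < ((1:ℝ) / 2) ^ (20000 * j) := by positivity
    have h7 : 0 < ((1:ℝ) / 2) ^ j := by positivity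
    have h9 : (0:ℝ) ≤ j := Nat.cast_nonneg j
    rw [e1, e2]
    generalize ((1:ℝ) / 2) ^ (20000 * j) = P at *
    generalize ((1:ℝ) / 2) ^ (126 * j) = Q at *
    generalize ((1:ℝ) / 2) ^ j = u at *
    clear_value B
    have h8 : (j:ℝ) * Q ≤ u := by
      calc (j:ℝ) * Q ≤ j * (u * u) := mul_le_mul_of_nonneg_left h3 h9
        _ = (j * u) * u := by ring
        _ ≤ 1 * u := mul_le_mul_of_nonneg_right h4 h7.le
        _ = u := one_mul u
    rw [lt_div_iff₀ (by norm_num)] at h5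
    calc 200000 * (P * Q) * (7600 * j) * 24000 = P * (200000 * 7600 * 24000 * (j * Q)) := by ring
      _ ≤ P * (200000 * 7600 * 24000 * u) := by
          apply mul_le_mul_of_nonneg_left _ h6.le
          linarith
      _ < P * (B / 4) := by
          apply mul_lt_mul_of_pos_left _ h6
          linarith
      _ = 1 / 4 * (P * B) := by ring

theorem J_ne : ∃ J0 : ℕ, 1 ≤ J0 ∧ ∀ j ≥ J0, ∀ (τ : ℝ) (M n : ℕ), 0 < τ →
    1 ≤ τ * 4 ^ (7600 * (j + 1)) → τ * 4 ^ (7600 * j) ≤ 1 → 1 / τ < 3 ^ M → (n:ℝ) = mu4 τ M →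
    ∫ θ in (0:ℝ)..1, gg τ M n θ ≠ 0 := by
  set C0 : ℝ := 4608 * (2 * π) ^ 3 + 1600 * π with hC0
  set h : ℝ := 48000 * 80 * Real.exp (192 * π) with hh
  have hpi := Real.pi_pos
  have hC0pos : 0 < C0 := by rw [hC0]; positivity
  have hexp1 : 1 ≤ Real.exp (192 * π) := Real.one_le_exp (by positivity)
  have hh1 : 1 ≤ h := by rw [hh]; linarith
  obtain ⟨J0, hJ0, hJ⟩ := eventual_num (48000 * C0 * h ^ 4 + 192 * π * h)
  refine ⟨J0, hJ0, ?_⟩
  intro j hj τ M n hτ hτ1 hτ2 hM hn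
  obtain ⟨hN1, hnum⟩ := hJ j hj
  have hj1 : 1 ≤ j := le_trans hJ0 hj
  set X : ℝ := 4 ^ (7524 * j + 6) with hX
  have hX0 : 0 < X := by rw [hX]; positivity
  have hτX : τ * X ≤ 1 / 100 := by
    have e : (4:ℝ) ^ (7600 * j) = X * 4 ^ (76 * j - 6) := by
      rw [hX, ← pow_add]; congr 1; omega
    rw [e] at hτ2
    have h4 : (100:ℝ) ≤ 4 ^ (76 * j - 6) := by
      have : (4:ℝ) ^ 4 ≤ 4 ^ (76 * j - 6) := pow_le_pow_right₀ (by norm_num) (by omega)
      norm_num at this ⊢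
      linarith
    have h5 : 0 < τ * X := by positivity
    generalize (4:ℝ) ^ (76 * j - 6) = y at *
    nlinarith
  have hτ1000 : τ ≤ 1 / 1000 := by
    have h4 : (1000:ℝ) ≤ 4 ^ (7600 * j) := by
      have : (4:ℝ) ^ 5 ≤ 4 ^ (7600 * j) := pow_le_pow_right₀ (by norm_num) (by omega)
      norm_num at this ⊢
      linarith
    generalize (4:ℝ) ^ (7600 * j) = y at *
    nlinarith
  have hX1 : X < 3 ^ M := by
    refine lt_of_le_of_lt ?_ hM
    rw [le_div_iff₀ hτ]
    linarith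
  have h35 : (3:ℝ) ^ (9405 * j) ≤ 4 ^ (7524 * j) := by
    have := three_five (1881 * j)
    have e1 : 5 * (1881 * j) = 9405 * j := by ring
    have e2 : 4 * (1881 * j) = 7524 * j := by ring
    rwa [e1, e2] at this
  have hX6 : X = 4 ^ (7524 * j) * 4 ^ 6 := by rw [hX, pow_add]
  have hsA : ∀ a < 9405 * j - 3, (3:ℝ) ^ a * 4 ^ 9 ≤ X := by
    intro a ha
    have h1 : (3:ℝ) ^ a * 3 ^ 4 ≤ 3 ^ (9405 * j) := by
      rw [← pow_add]
      exact pow_le_pow_right₀ (by norm_num) (by omega)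
    rw [hX6]
    have h2 : (0:ℝ) < 3 ^ a := by positivity
    generalize (4:ℝ) ^ (7524 * j) = y at *
    generalize (3:ℝ) ^ (9405 * j) = z at *
    norm_num at h1 ⊢
    linarith
  have hAM : 9405 * j - 3 ≤ M := by
    by_contra hcon
    push Not at hcon
    have := hsA M hcon
    have h3 : (0:ℝ) < 3 ^ M := by positivity
    norm_num at this
    linarith
  have hsK : ∀ a < 9405 * j - 1, (3:ℝ) ^ a ≤ 4 ^ (7524 * j - 1) := by
    intro a ha
    have h1 : (3:ℝ) ^ a * 3 ^ 2 ≤ 3 ^ (9405 * j) := by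
      rw [← pow_add]
      exact pow_le_pow_right₀ (by norm_num) (by omega)
    have h2 : (4:ℝ) ^ (7524 * j) = 4 ^ (7524 * j - 1) * 4 ^ 1 := by
      rw [← pow_add]; congr 1; omega
    rw [h2] at h35
    have h2 : (0:ℝ) < 3 ^ a := by positivity
    generalize (4:ℝ) ^ (7524 * j - 1) = y at *
    generalize (3:ℝ) ^ (9405 * j) = z at *
    norm_num at h1 h35
    linarith
  have hKM : 9405 * j - 1 ≤ M := by
    by_contra hcon
    push Not at hcon
    have h3 := hsK M hcon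
    have h4 : (4:ℝ) ^ (7524 * j - 1) ≤ X := by
      rw [hX]; exact pow_le_pow_right₀ (by norm_num) (by omega)
    linarith
  set δ : ℝ := 5 / X with hδ
  have hδ0 : 0 < δ := by rw [hδ]; positivity
  have hτδ : τ ≤ δ := by
    rw [hδ, le_div_iff₀ hX0]; linarith
  have hXbig : (4096:ℝ) ≤ X := by
    have : (4:ℝ) ^ 6 ≤ X := by rw [hX]; exact pow_le_pow_right₀ (by norm_num) (by omega)
    norm_num at this ⊢
    exact this
  have hδsmall : δ ≤ 1 / 800 := by
    rw [hδ, div_le_iff₀ hX0]; linarith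
  -- near zero
  have b1 : ‖∫ θ in (0:ℝ)..δ, gg τ M n θ‖ ≤ (1 / 2) ^ (20126 * j) :=
    (near_zero hτ M n hτδ).trans (zero_num j)
  -- minor arcs
  set c : ℝ := (53 / 100) ^ (7524 * j - 9) with hc
  have hc0 : 0 ≤ c := by rw [hc]; positivity
  have hmn := minor_num hj1
  rw [← hc] at hmn
  have e45 : (5:ℝ) * 4 ^ 1 / X = 4 * δ := by rw [hδ]; ring
  have e40 : (5:ℝ) * 4 ^ 0 / X = δ := by rw [hδ]; ring
  have near0 : ∀ θ : ℝ, δ ≤ θ → θ ≤ 1 / 2 → ¬ Near X θ 0 := by
    intro θ h1 h2 ⟨m, hm⟩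
    rw [e40, pow_zero, one_mul, abs_lt] at hm
    rcases le_or_gt m 0 with h0 | h0
    · have : (m:ℝ) ≤ 0 := by exact_mod_cast h0
      linarith [hm.2]
    · have : (1:ℝ) ≤ m := by exact_mod_cast h0
      linarith [hm.1]
  have b2 : ‖∫ θ in δ..(1/4 - δ), gg τ M n θ‖ ≤ 55296 * (1 / 2) ^ (20126 * j) := by
    refine (minor_interval hτ (A := 9405 * j - 3) hc0 hδ0.le (by linarith) (by linarith) ?_).trans ?_
    · intro θ h1 h2
      apply norm_PP_minor hτ (by omega) hX hτX hX1 hAM hsA (near0 θ h1 (by linarith))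
      intro m hm habs
      rw [e45, pow_one, abs_lt] at habs
      obtain ⟨k, hk⟩ := hm
      rcases le_or_gt k (-1) with h0 | h0
      · have : (m:ℝ) ≤ -1 := by
          have : m ≤ -1 := by omega
          exact_mod_cast this
        linarith [habs.2]
      · have : (1:ℝ) ≤ m := by
          have : 1 ≤ m := by omega
          exact_mod_cast this
        linarith [habs.1]
    · have : 2 * c * (2 * (3 / 8 + 1 / 40000 + (1 / 40000) ^ 2) ^ (9405 * j - 3))
          = 4 * (c * (3 / 8 + 1 / 40000 + (1 / 40000) ^ 2) ^ (9405 * j - 3)) := by ring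
      rw [this]
      generalize (3 / 8 + 1 / 40000 + (1 / 40000) ^ 2 : ℝ) ^ (9405 * j - 3) = y at *
      linarith
  have b4 : ‖∫ θ in (1/4 + δ)..(1/2), gg τ M n θ‖ ≤ 55296 * (1 / 2) ^ (20126 * j) := by
    refine (minor_interval hτ (A := 9405 * j - 3) hc0 (by linarith) (by linarith) (by norm_num) ?_).trans ?_
    · intro θ h1 h2
      apply norm_PP_minor hτ (by omega) hX hτX hX1 hAM hsA (near0 θ (by linarith) h2)
      intro m hm habs
      rw [e45, pow_one, abs_lt] at habs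
      obtain ⟨k, hk⟩ := hm
      rcases le_or_gt k 0 with h0 | h0
      · have : (m:ℝ) ≤ 1 := by
          have : m ≤ 1 := by omega
          exact_mod_cast this
        linarith [habs.2]
      · have : (3:ℝ) ≤ m := by
          have : 3 ≤ m := by omega
          exact_mod_cast this
        linarith [habs.1]
    · have : 2 * c * (2 * (3 / 8 + 1 / 40000 + (1 / 40000) ^ 2) ^ (9405 * j - 3))
          = 4 * (c * (3 / 8 + 1 / 40000 + (1 / 40000) ^ 2) ^ (9405 * j - 3)) := by ring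
      rw [this]
      generalize (3 / 8 + 1 / 40000 + (1 / 40000) ^ 2 : ℝ) ^ (9405 * j - 3) = y at *
      linarith
  -- central part
  set S : ℝ := Real.sqrt ((87 / 100) ^ (7524 * j) * (51 / 100) ^ (9405 * j - 1)) with hSdef
  have hS : ∀ θ, τ ≤ |θ| → |θ| ≤ δ → ‖PP4 τ M θ‖ * ‖VV τ M θ‖ ≤ S := by
    intro θ h1 h2
    rw [hSdef]
    apply Real.le_sqrt_of_sq_le
    rw [mul_pow]
    apply mul_le_mul _ _ (by positivity) (by positivity)
    · apply PP4_inter hτ hM h1
      rw [hδ, hX6] at h2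
      have h3 : (0:ℝ) < 4 ^ (7524 * j) := by positivity
      generalize (4:ℝ) ^ (7524 * j) = y at *
      rw [le_div_iff₀ (by positivity)] at h2
      norm_num at h2 ⊢
      linarith
    · apply VV_inter_le hτ hX hτX (by omega) hKM h2
      exact hsK
  have hN4 : (4:ℝ) ^ (7600 * j - 1) ≤ 1 / (2 * τ) := by
    have e : (4:ℝ) ^ (7600 * j) = 4 ^ (7600 * j - 1) * 4 ^ 1 := by
      rw [← pow_add]; congr 1; omega
    rw [e] at hτ2
    have h3 : (0:ℝ) < 4 ^ (7600 * j - 1) := by positivity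
    generalize (4:ℝ) ^ (7600 * j - 1) = y at *
    rw [le_div_iff₀ (by positivity)]
    norm_num at hτ2
    nlinarith
  have hN0 : 1 ≤ 7600 * j - 1 := by omega
  have hKN : 7600 * (j + 1) + 2 ≤ 3 * (7600 * j - 1) := by omega
  set N : ℕ := 7600 * j - 1 with hN
  have hNr : (0:ℝ) < N := by exact_mod_cast hN0
  have hsN : 0 < Real.sqrt N := Real.sqrt_pos.mpr hNr
  have hC0h : 0 ≤ C0 * h ^ 4 := by positivity
  have h192 : 0 ≤ 192 * π * h := by positivity
  have hsmall : 192 * π * h ≤ Real.sqrt N := by linarith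
  have hsmall2 : 48000 * (C0 * h ^ 4) ≤ Real.sqrt N := by linarith
  have hcen := central hτ (by linarith) hM hN4 hN0 hτ1 hKN hn hh1 hsmall hτδ hS
  have hG := GG_lower (M := M) hτ hN0 hτ1 hKN hh1
  set G := ∫ θ in (-(h * τ / Real.sqrt N))..(h * τ / Real.sqrt N), GG τ M θ with hGdef
  have hτN : 0 < τ / Real.sqrt N := by positivity
  have hG0 : 0 ≤ G := by linarith
  have hmid := middle_lower (n := n) hτ hτ1000 hM hG0 hcen
  -- error in the centre
  have heps : C0 * h ^ 4 / Real.sqrt N + 80 * Real.exp (192 * π) / h ≤ 1 / 24000 := by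
    have h1 : C0 * h ^ 4 / Real.sqrt N ≤ 1 / 48000 := by
      rw [div_le_iff₀ hsN]; linarith
    have h2 : 80 * Real.exp (192 * π) / h = 1 / 48000 := by
      rw [hh]
      have : Real.exp (192 * π) ≠ 0 := (Real.exp_pos _).ne'
      field_simp
    rw [h2]; linarith
  have hin := inter_num hj1
  rw [← hX, ← hδ, ← hSdef] at hin
  set v := ‖VV τ M 0‖ with hv
  have hv0 : 0 ≤ v := norm_nonneg _
  have hms := main_size hτ M hτ1
  rw [← hv] at hms
  have hsNle : Real.sqrt N ≤ 7600 * j := by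
    have h1 : Real.sqrt N ≤ N := by
      rw [Real.sqrt_le_left hNr.le]
      have : (1:ℝ) ≤ N := by exact_mod_cast hN0
      nlinarith
    have h2 : (N:ℝ) ≤ 7600 * j := by
      have : N ≤ 7600 * j := by omega
      exact_mod_cast this
    linarith
  have hmain : 200000 * (1 / 2) ^ (20126 * j) * 24000 < v * (τ / Real.sqrt N) := by
    have h1 : v * (τ / Real.sqrt N) = v * τ / Real.sqrt N := by ring
    rw [h1, lt_div_iff₀ hsN]
    refine lt_of_le_of_lt ?_ (lt_of_lt_of_le hnum hms)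
    have h2 : 0 < ((1:ℝ) / 2) ^ (20126 * j) := by positivity
    generalize ((1:ℝ) / 2) ^ (20126 * j) = y at *
    have h3 := mul_le_mul_of_nonneg_left hsNle (by positivity : 0 ≤ 200000 * y * 24000)
    linarith
  apply integral_gg_ne_zero b1 b2 b4
  refine lt_of_lt_of_le ?_ hmid
  have h2 : 0 < ((1:ℝ) / 2) ^ (20126 * j) := by positivity
  generalize ((1:ℝ) / 2) ^ (20126 * j) = y at *
  have h3 : v * (1 / 120 * (τ / Real.sqrt N)) ≤ v * G := mul_le_mul_of_nonneg_left hG hv0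
  have h4 : v * (τ / Real.sqrt N) * (C0 * h ^ 4 / Real.sqrt N + 80 * Real.exp (192 * π) / h)
      ≤ v * (τ / Real.sqrt N) * (1 / 24000) :=
    mul_le_mul_of_nonneg_left heps (by positivity)
  generalize v * (τ / Real.sqrt N) * (C0 * h ^ 4 / Real.sqrt N + 80 * Real.exp (192 * π) / h) = z at *
  linarith

end Pool.Agent.Lib.MP_a28f5d_nt
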